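import Pool.Agent.Lib.MP_1ad228_ntTS.Defs
import Pool.Agent.Lib.MP_1ad228_nt.GTKer

/-! LEAF A1 (medium).  The kernel of the Laplacian has at least `2 ^ (k - m_p)` elements.

Let `Act = (Ed q).filter (fun e => jacobiSym (res) p = -1)` (so `mp q p = Act.card`) and `T = univ.filter fun S : Finset (Fin k) => ∀ e ∈ Act, (e.1 ∈ S ↔ e.2 ∈ S)`.
(1) `T ⊆ Kr q p`.  Write `r i j = (q i).res (q j)` (symmetric: `BQ.res_comm`), for `i ≠ j` prime to `p` (`good_of_not_dvd q h`).  If `S ∈ T`, `i ∈ S`, `j ∉ S` then `jacobiSym (r i j) p = 1`: the symbol is `± 1` (`jacobiSym.trichotomy`, not `0` as `p ∤ r i j`, see `gtker_jac_ne` in `GTKer`);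
if it were `-1`, then `r i j` is not a square (the symbol of a square prime to `p` is `1`), so the pair `(min i j, max i j)` is in `Act` and `i ∈ S ↔ j ∈ S`.  Let `j : Fin k`; `∏ i ∈ S, RR q j i` has symbol `1`: if `j ∉ S` it is `∏ i ∈ S, r j i` (definition of `RR`), all symbols `1`.
If `j ∈ S` it is `(∏ i ∈ S.erase j, r j i) * ∏ l ∈ univ.erase j, r j l`, and `univ.erase j` is the disjoint union of `S.erase j` and `Sᶜ`: the symbol is `(symbol of the first product)² * ∏ l ∈ Sᶜ, (r j l / p) = 1`.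
(2) `2 ^ k ≤ T.card * 2 ^ Act.card`: let `φ S = Act.filter (fun e => ¬ (e.1 ∈ S ↔ e.2 ∈ S))`, a map from `Finset (Fin k)` (`2 ^ k` elements) to `Act.powerset` (`2 ^ Act.card` elements).  Every fibre has at most `T.card` elements: if `φ S = φ S'` then `symmDiff S S' ∈ T`, and `S' ↦ symmDiff S S'` is injective
(`Finset.card_le_mul_card_image` with `n = T.card`, `Finset.card_le_card_of_injOn`). -/

set_option autoImplicit false

namespace ZS

open Finset ZG

private theorem A1_jac_ne {p : ℕ} (hp : p.Prime) {n : ℤ} (h : ¬ (p : ℤ) ∣ n) :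
    jacobiSym n p = 1 ∨ jacobiSym n p = -1 := by
  rcases jacobiSym.trichotomy n p with h1 | h1
  · exfalso
    rw [jacobiSym.eq_zero_iff] at h1
    apply h1.2
    have h2 : IsCoprime n (p : ℤ) :=
      ((Nat.prime_iff_prime_int.1 hp).coprime_iff_not_dvd.2 h).symm
    rw [Int.isCoprime_iff_gcd_eq_one] at h2
    exact h2
  · exact h1

private theorem A1_jac_prod {κ : Type} (S : Finset κ) (f : κ → ℤ) (p : ℕ) :
    jacobiSym (∏ i ∈ S, f i) p = ∏ i ∈ S, jacobiSym (f i) p := by
  classical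
  induction S using Finset.induction_on with
  | empty => simp
  | insert a s ha ih => rw [Finset.prod_insert ha, Finset.prod_insert ha, jacobiSym.mul_left, ih]

private theorem A1_sq {p : ℕ} (hp : p.Prime) {n : ℤ} (h : ¬ (p : ℤ) ∣ n) (hs : IsSquare n) :
    jacobiSym n p = 1 := by
  obtain ⟨m, rfl⟩ := hs
  rw [jacobiSym.mul_left]
  have h1 : ¬ (p : ℤ) ∣ m := fun h1 => h (h1.mul_right m)
  rcases A1_jac_ne hp h1 with h2 | h2 <;> rw [h2] <;> norm_num

private theorem A1_mem {ι : Type} [Fintype ι] [DecidableEq ι] {g : ι → BQ} {p : ℕ} {S : Finset ι} :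
    S ∈ Kr g p ↔ ∀ k, jacobiSym (∏ i ∈ S, RR g k i) p = 1 := by
  unfold Kr
  rw [Finset.mem_filter]
  exact ⟨fun h => h.2, fun h => ⟨Finset.mem_univ _, h⟩⟩

private theorem A1_one {k : ℕ} {q : Fin k → BQ} {p : ℕ} (hp : p.Prime) (hg : Good q p)
    {S : Finset (Fin k)}
    (hS : ∀ e ∈ (Ed q).filter (fun e => jacobiSym ((q e.1).res (q e.2)) p = -1), (e.1 ∈ S ↔ e.2 ∈ S))
    {i j : Fin k} (hi : i ∈ S) (hj : j ∉ S) : jacobiSym ((q j).res (q i)) p = 1 := by
  have hij : i ≠ j := fun h => hj (h ▸ hi)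
  rcases A1_jac_ne hp (hg.res j i hij.symm) with h | h
  · exact h
  · exfalso
    have hns : ¬ IsSquare ((q j).res (q i)) := fun hs => by
      rw [A1_sq hp (hg.res j i hij.symm) hs] at h
      norm_num at h
    rcases lt_or_gt_of_ne hij with hlt | hlt
    · have he : (i, j) ∈ (Ed q).filter (fun e => jacobiSym ((q e.1).res (q e.2)) p = -1) := by
        unfold Ed
        rw [Finset.mem_filter, Finset.mem_filter]
        refine ⟨⟨Finset.mem_univ _, hlt, ?_⟩, ?_⟩
        · show ¬ IsSquare ((q i).res (q j))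
          rw [BQ.res_comm]
          exact hns
        · show jacobiSym ((q i).res (q j)) p = -1
          rw [BQ.res_comm]
          exact h
      exact hj ((hS _ he).1 hi)
    · have he : (j, i) ∈ (Ed q).filter (fun e => jacobiSym ((q e.1).res (q e.2)) p = -1) := by
        unfold Ed
        rw [Finset.mem_filter, Finset.mem_filter]
        exact ⟨⟨Finset.mem_univ _, hlt, hns⟩, h⟩
      exact hj ((hS _ he).2 hi)

private theorem A1_sub {k : ℕ} {q : Fin k → BQ} {p : ℕ} (hp : p.Prime) (hg : Good q p)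
    {S : Finset (Fin k)}
    (hS : ∀ e ∈ (Ed q).filter (fun e => jacobiSym ((q e.1).res (q e.2)) p = -1), (e.1 ∈ S ↔ e.2 ∈ S)) :
    S ∈ Kr q p := by
  rw [A1_mem]
  intro j
  rw [A1_jac_prod]
  by_cases hj : j ∈ S
  · rw [← Finset.mul_prod_erase S _ hj]
    have h1 : ∏ i ∈ S.erase j, jacobiSym (RR q j i) p =
        ∏ i ∈ S.erase j, jacobiSym ((q j).res (q i)) p := by
      refine Finset.prod_congr rfl fun i hi => ?_
      unfold RR
      rw [if_neg (Finset.mem_erase.1 hi).1]
    have h2 : jacobiSym (RR q j j) p = ∏ i ∈ S.erase j, jacobiSym ((q j).res (q i)) p := by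
      unfold RR
      rw [if_pos rfl, A1_jac_prod, ← Finset.prod_sdiff (Finset.erase_subset_erase j (Finset.subset_univ S))]
      rw [Finset.prod_eq_one (s := univ.erase j \ S.erase j), one_mul]
      intro l hl
      rw [Finset.mem_sdiff, Finset.mem_erase, Finset.mem_erase] at hl
      have hlS : l ∉ S := fun h => hl.2 ⟨hl.1.1, h⟩
      rw [BQ.res_comm]
      exact A1_one hp hg hS hj hlS
    rw [h1, h2, ← Finset.prod_mul_distrib]
    refine Finset.prod_eq_one fun i hi => ?_
    rcases A1_jac_ne hp (hg.res j i (Finset.mem_erase.1 hi).1.symm) with h | h <;> rw [h] <;> norm_num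
  · refine Finset.prod_eq_one fun i hi => ?_
    have hij : i ≠ j := fun h => hj (h ▸ hi)
    unfold RR
    rw [if_neg hij]
    exact A1_one hp hg hS hi hj

private theorem A1_count {k : ℕ} (Act : Finset (Fin k × Fin k)) :
    2 ^ k ≤ (univ.filter fun S : Finset (Fin k) => ∀ e ∈ Act, (e.1 ∈ S ↔ e.2 ∈ S)).card *
      2 ^ Act.card := by
  classical
  have h1 := Finset.card_le_mul_card_image (f := fun S : Finset (Fin k) =>
    Act.filter fun e => ¬ (e.1 ∈ S ↔ e.2 ∈ S)) univ
    (univ.filter fun S : Finset (Fin k) => ∀ e ∈ Act, (e.1 ∈ S ↔ e.2 ∈ S)).card (by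
      intro a ha
      obtain ⟨S₀, -, rfl⟩ := Finset.mem_image.1 ha
      refine Finset.card_le_card_of_injOn (fun S => symmDiff S₀ S) ?_ ?_
      · intro S hS
        have hS1 := (Finset.mem_filter.1 (Finset.mem_coe.1 hS)).2
        refine Finset.mem_coe.2 (Finset.mem_filter.2 ⟨Finset.mem_univ _, fun e he => ?_⟩)
        have h2 : ¬ (e.1 ∈ S ↔ e.2 ∈ S) ↔ ¬ (e.1 ∈ S₀ ↔ e.2 ∈ S₀) := by
          have h3 : e ∈ Act.filter (fun e => ¬ (e.1 ∈ S ↔ e.2 ∈ S)) ↔
              e ∈ Act.filter (fun e => ¬ (e.1 ∈ S₀ ↔ e.2 ∈ S₀)) := by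
            rw [hS1]
          rw [Finset.mem_filter, Finset.mem_filter] at h3
          constructor
          · intro h
            exact (h3.1 ⟨he, h⟩).2
          · intro h
            exact (h3.2 ⟨he, h⟩).2
        rw [Finset.mem_symmDiff, Finset.mem_symmDiff]
        tauto
      · intro S _ S' _ h
        exact symmDiff_right_injective S₀ h)
  have h2 : (univ : Finset (Finset (Fin k))).card = 2 ^ k := by
    rw [Finset.card_univ, Fintype.card_finset, Fintype.card_fin]
  rw [h2] at h1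
  refine h1.trans (Nat.mul_le_mul_left _ ?_)
  rw [← Finset.card_powerset]
  refine Finset.card_le_card fun A hA => ?_
  obtain ⟨S, -, rfl⟩ := Finset.mem_image.1 hA
  exact Finset.mem_powerset.2 (Finset.filter_subset _ _)

theorem kr_card {k : ℕ} (q : Fin k → BQ) {p : ℕ} (hp : p.Prime) (h : ¬ p ∣ Rb q) :
    2 ^ k ≤ (Kr q p).card * 2 ^ mp q p := by
  have hg : Good q p := good_of_not_dvd q h
  refine (A1_count ((Ed q).filter fun e => jacobiSym ((q e.1).res (q e.2)) p = -1)).trans ?_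
  refine Nat.mul_le_mul_right _ (Finset.card_le_card fun S hS => ?_)
  exact A1_sub hp hg (Finset.mem_filter.1 hS).2

end ZS
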