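import Pool.Agent.Lib.MP_1ad228_ntTS.Defs

/-! LEAF A2 (medium-).  The number of the subsets of odd cardinality of `Sp q p` (twice this number is `2 ^ |S|` if `S` is not empty).

The filter on the left is in bijection with `(Sp q p).powerset.filter (fun U => Odd U.card)` (`U.1 ⊆ Sp q p` means that all symbols are `1`).  For a nonempty finite set `S` with an element `a` the map `U ↦ symmDiff U {a}` (insert or erase `a`) exchanges the odd and the even subsets of `S`, so there are
`2 ^ (|S| - 1)` odd ones (or: `Finset.sum_powerset_neg_one_pow_card`).  If `S = ∅` the only subset is `∅`, which is not odd. -/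

set_option autoImplicit false

namespace ZS

open Finset ZG

private theorem A2_pow (n : ℕ) : (-1 : ℤ) ^ n = 1 - 2 * (if Odd n then 1 else 0) := by
  by_cases h : Odd n
  · rw [if_pos h, h.neg_one_pow]
    norm_num
  · rw [if_neg h, (Nat.not_odd_iff_even.1 h).neg_one_pow]
    norm_num

private theorem A2_odd {α : Type} [DecidableEq α] (S : Finset α) :
    (S.powerset.filter fun U => Odd U.card).card * 2 = if S.card = 0 then 0 else 2 ^ S.card := by
  have h1 := Finset.sum_powerset_neg_one_pow_card (x := S)
  have h2 : ∑ m ∈ S.powerset, (-1 : ℤ) ^ m.card =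
      (2 : ℤ) ^ S.card - 2 * ((S.powerset.filter fun U => Odd U.card).card : ℤ) := by
    rw [Finset.sum_congr rfl fun m _ => A2_pow m.card, Finset.sum_sub_distrib, Finset.sum_const,
      card_powerset, ← Finset.mul_sum, Finset.sum_boole, nsmul_eq_mul, mul_one]
    push_cast
    rfl
  rw [h2] at h1
  by_cases hS : S = ∅
  · subst hS
    simp
  · rw [if_neg hS] at h1
    rw [if_neg (Finset.card_ne_zero.2 (Finset.nonempty_iff_ne_empty.2 hS))]
    have h3 : (((S.powerset.filter fun U => Odd U.card).card * 2 : ℕ) : ℤ) =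
        ((2 ^ S.card : ℕ) : ℤ) := by
      push_cast
      linarith
    exact_mod_cast h3

theorem card_odd {k : ℕ} (q : Fin k → BQ) (p : ℕ) :
    (univ.filter fun U : OddSet (Fin k) => ∀ i ∈ U.1, jacobiSym (q i).disc p = 1).card * 2 =
      if (Sp q p).card = 0 then 0 else 2 ^ (Sp q p).card := by
  classical
  rw [← A2_odd]
  congr 1
  refine Finset.card_bij (fun U _ => U.1) ?_ ?_ ?_
  · intro U hU
    rw [mem_filter, mem_powerset]
    refine ⟨fun i hi => ?_, U.2⟩
    exact mem_filter.2 ⟨mem_univ _, (mem_filter.1 hU).2 i hi⟩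
  · intro U _ V _ h
    exact Subtype.ext h
  · intro U hU
    rw [mem_filter, mem_powerset] at hU
    refine ⟨⟨U, hU.2⟩, mem_filter.2 ⟨mem_univ _, fun i hi => (mem_filter.1 (hU.1 hi)).2⟩, rfl⟩

end ZS
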