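import Pool.Agent.Lib.MP_1ad228_ntTS.A1
import Pool.Agent.Lib.MP_1ad228_ntTS.A2

/-! LEAF A3 (medium).  The weights.  (All five theorems.)

Write `s = sk k = 1 / (20 k²)`, so `0 < s ≤ 1/80` as `k ≥ 2`; `σ = |Sp q p| ≤ k`, `m = mp q p`, `x = xx q p = σ - k + m`.
`mp_le`: `mp q p ≤ (Ed q).card` (filter) and `Gen.edges`.
`ws_facts`: `-k ≤ x ≤ k - 1 ≤ k`; `WS = 2 ^ (-(1-s) x)`, `-(1-s) x ≤ k`; `FS ≤ 2 ^ (s x) ≤ 2 ^ k` (real exponents; `Real.rpow_le_rpow_of_exponent_le`, `Real.rpow_natCast`).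
`wt_oneS`: `U` is odd, hence not empty, and `U.1 ⊆ Sp q p`, so `σ ≥ 1`.  By `kr_card`, `2 ^ (k - m) ≤ |Kr|` (as reals, `k - m ≥ 1` by `mp_le`).  Put `d = k - m ≥ 1`, `x = σ - d`; `2 WS = 2 ^ (1 + (1-s)(d - σ))`, and `1 + (1-s)(d - σ) ≤ d`: if `d ≥ σ` it is `≤ 1 + d - σ ≤ d`, otherwise `≤ 1 ≤ d`.
`wt_sumS`: if `Sp q p = ∅` both sides: the number of `U` is `0` (`card_odd`), the right side is `≥ 0`.  Otherwise twice the number of `U` is `2 ^ σ` and `2 ^ σ WS = 2 ^ (σ - x + s x) = 2 ^ (k - m) 2 ^ (s x) ≤ |Kr| FS`.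
`one_leS`: with `X = ∑_{p ∣ n} x(p)`: `pf FS n = 2 ^ (s X)` (no `p` has `Sp = ∅`), `pf WS n = 2 ^ (-(1-s) X)` (`Real.rpow_sum_of_pos` or induction on the set of primes as in `gtcntn_pf` of `GTCntN`).  If `X ≥ 0` the first is `≥ 1`, otherwise the second is `≥ 1`. -/

set_option autoImplicit false

namespace ZS

open Finset ZG

private theorem A3_s {k : ℕ} (hk : 2 ≤ k) : 0 < sk k ∧ sk k ≤ 1 := by
  have h1 : (2 : ℝ) ≤ k := by exact_mod_cast hk
  have h2 : (4 : ℝ) ≤ (k : ℝ) ^ 2 := by nlinarith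
  unfold sk
  refine ⟨by positivity, ?_⟩
  rw [div_le_one (by positivity)]
  linarith

private theorem A3_sp {k : ℕ} (q : Fin k → BQ) (p : ℕ) : (Sp q p).card ≤ k := by
  have h := Finset.card_le_univ (Sp q p)
  rwa [Fintype.card_fin] at h

theorem mp_le {k : ℕ} {q : Fin k → BQ} (hq : Gen q) (p : ℕ) : mp q p + 1 ≤ k := by
  refine le_trans (Nat.add_le_add_right ?_ 1) hq.edges
  unfold mp
  exact Finset.card_filter_le _ _

private theorem A3_x {k : ℕ} {q : Fin k → BQ} (hq : Gen q) (p : ℕ) :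
    -(k : ℝ) ≤ xx q p ∧ xx q p ≤ k := by
  have h1 : (mp q p : ℝ) + 1 ≤ k := by exact_mod_cast mp_le hq p
  have h2 : ((Sp q p).card : ℝ) ≤ k := by exact_mod_cast A3_sp q p
  have h3 : (0 : ℝ) ≤ mp q p := Nat.cast_nonneg _
  have h4 : (0 : ℝ) ≤ (Sp q p).card := Nat.cast_nonneg _
  unfold xx
  constructor <;> linarith

private theorem A3_cast (k : ℕ) : ((2 ^ k : ℕ) : ℝ) = (2 : ℝ) ^ (k : ℝ) := by
  rw [Real.rpow_natCast]
  push_cast
  rfl

private theorem A3_kr {k : ℕ} {q : Fin k → BQ} (hq : Gen q) {p : ℕ} (hp : p.Prime) (h : ¬ p ∣ Rb q) :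
    (2 : ℝ) ^ ((k : ℝ) - mp q p) ≤ ((Kr q p).card : ℝ) := by
  have h1 := kr_card q hp h
  have h2 := mp_le hq p
  have h3 : 2 ^ (k - mp q p) ≤ (Kr q p).card := by
    refine Nat.le_of_mul_le_mul_right ?_ (pow_pos two_pos (mp q p))
    rw [← pow_add, Nat.sub_add_cancel (by omega)]
    exact h1
  have h4 : ((k : ℝ) - mp q p) = ((k - mp q p : ℕ) : ℝ) := by
    rw [Nat.cast_sub (by omega)]
  rw [h4, Real.rpow_natCast]
  exact_mod_cast h3

theorem ws_facts {k : ℕ} {q : Fin k → BQ} (hq : Gen q) (p : ℕ) :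
    0 < WS q p ∧ WS q p ≤ ((2 ^ k : ℕ) : ℝ) ∧ 0 ≤ FS q p ∧ FS q p ≤ ((2 ^ k : ℕ) : ℝ) := by
  obtain ⟨s0, s1⟩ := A3_s hq.two
  obtain ⟨x0, x1⟩ := A3_x hq p
  have hk : (0 : ℝ) ≤ k := Nat.cast_nonneg _
  rw [A3_cast]
  refine ⟨?_, ?_, ?_, ?_⟩
  · unfold WS
    positivity
  · unfold WS
    apply Real.rpow_le_rpow_of_exponent_le one_le_two
    nlinarith [mul_nonneg (sub_nonneg.2 s1) (by linarith : 0 ≤ xx q p + k), mul_nonneg s0.le hk]
  · unfold FS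
    split_ifs
    · exact le_rfl
    · positivity
  · unfold FS
    split_ifs
    · positivity
    · apply Real.rpow_le_rpow_of_exponent_le one_le_two
      nlinarith [mul_nonneg s0.le (sub_nonneg.2 x1), mul_nonneg (sub_nonneg.2 s1) hk]

theorem wt_oneS {k : ℕ} {q : Fin k → BQ} (hq : Gen q) {p : ℕ} (hp : p.Prime) (h : ¬ p ∣ Rb q) (U : OddSet (Fin k))
    (hU : ∀ i ∈ U.1, jacobiSym (q i).disc p = 1) : 2 * WS q p ≤ ((Kr q p).card : ℝ) := by
  obtain ⟨s0, s1⟩ := A3_s hq.two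
  refine le_trans ?_ (A3_kr hq hp h)
  have h1 : 1 ≤ (Sp q p).card := by
    refine le_trans (Nat.one_le_iff_ne_zero.2 U.2.pos.ne') (Finset.card_le_card ?_)
    intro i hi
    unfold Sp
    exact Finset.mem_filter.2 ⟨Finset.mem_univ _, hU i hi⟩
  have h2 : (1 : ℝ) ≤ (Sp q p).card := by exact_mod_cast h1
  have h3 : (mp q p : ℝ) + 1 ≤ k := by exact_mod_cast mp_le hq p
  have h4 : 2 * WS q p = (2 : ℝ) ^ (1 + -(1 - sk k) * xx q p) := by
    unfold WS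
    rw [Real.rpow_add two_pos, Real.rpow_one]
  rw [h4]
  apply Real.rpow_le_rpow_of_exponent_le one_le_two
  unfold xx
  obtain ⟨d, hd⟩ : ∃ d : ℝ, d = (k : ℝ) - mp q p := ⟨_, rfl⟩
  have h5 : ((Sp q p).card : ℝ) - k + mp q p = (Sp q p).card - d := by rw [hd]; ring
  rw [h5, ← hd]
  have h6 : 1 ≤ d := by rw [hd]; linarith
  rcases le_total ((Sp q p).card : ℝ) d with h7 | h7
  · nlinarith [mul_nonneg s0.le (sub_nonneg.2 h7)]
  · nlinarith [mul_nonneg (sub_nonneg.2 s1) (sub_nonneg.2 h7)]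

theorem wt_sumS {k : ℕ} {q : Fin k → BQ} (hq : Gen q) {p : ℕ} (hp : p.Prime) (h : ¬ p ∣ Rb q) :
    ((univ.filter fun U : OddSet (Fin k) => ∀ i ∈ U.1, jacobiSym (q i).disc p = 1).card : ℝ) * (2 * WS q p) ≤
      ((Kr q p).card : ℝ) * FS q p := by
  have hc := card_odd q p
  by_cases h0 : (Sp q p).card = 0
  · rw [if_pos h0] at hc
    have h1 : (univ.filter fun U : OddSet (Fin k) => ∀ i ∈ U.1, jacobiSym (q i).disc p = 1).card = 0 := by
      omega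
    rw [h1, Nat.cast_zero, zero_mul]
    exact mul_nonneg (Nat.cast_nonneg _) (ws_facts hq p).2.2.1
  · rw [if_neg h0] at hc
    have h1 : ((univ.filter fun U : OddSet (Fin k) => ∀ i ∈ U.1, jacobiSym (q i).disc p = 1).card : ℝ) * 2
        = (2 : ℝ) ^ ((Sp q p).card : ℝ) := by
      rw [Real.rpow_natCast]
      exact_mod_cast hc
    have hne : ¬ Sp q p = ∅ := fun h => h0 (by rw [h, Finset.card_empty])
    have h2 : FS q p = (2 : ℝ) ^ (sk k * xx q p) := by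
      unfold FS
      rw [if_neg hne]
    rw [← mul_assoc, h1, h2]
    refine le_trans (le_of_eq ?_) (mul_le_mul_of_nonneg_right (A3_kr hq hp h) (by positivity))
    unfold WS
    rw [← Real.rpow_add two_pos, ← Real.rpow_add two_pos]
    congr 1
    unfold xx
    ring

theorem one_leS {k : ℕ} {q : Fin k → BQ} (hq : Gen q) (n : ℕ) (h : ∀ p ∈ n.primeFactors, Sp q p ≠ ∅) :
    1 ≤ QT.pf (FS q) n + QT.pf (WS q) n := by
  obtain ⟨s0, s1⟩ := A3_s hq.two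
  obtain ⟨X, hX⟩ : ∃ X : ℝ, X = ∑ p ∈ n.primeFactors, xx q p := ⟨_, rfl⟩
  have h1 : QT.pf (FS q) n = (2 : ℝ) ^ (sk k * X) := by
    unfold QT.pf
    rw [hX, Finset.mul_sum, Real.rpow_sum_of_pos two_pos]
    refine Finset.prod_congr rfl fun p hp => ?_
    unfold FS
    rw [if_neg (h p hp)]
  have h2 : QT.pf (WS q) n = (2 : ℝ) ^ (-(1 - sk k) * X) := by
    unfold QT.pf
    rw [hX, Finset.mul_sum, Real.rpow_sum_of_pos two_pos]
    rfl
  rw [h1, h2]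
  rcases le_total 0 X with h3 | h3
  · have h4 : 1 ≤ (2 : ℝ) ^ (sk k * X) := Real.one_le_rpow one_le_two (mul_nonneg s0.le h3)
    have h5 : 0 < (2 : ℝ) ^ (-(1 - sk k) * X) := by positivity
    linarith
  · have h4 : 1 ≤ (2 : ℝ) ^ (-(1 - sk k) * X) := by
      apply Real.one_le_rpow one_le_two
      nlinarith [mul_nonneg (sub_nonneg.2 s1) (neg_nonneg.2 h3)]
    have h5 : 0 < (2 : ℝ) ^ (sk k * X) := by positivity
    linarith

end ZS
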