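import Pool.Agent.Lib.MP_1ad228_ntTS.Defs

/-! LEAF B1 (medium).  The indicator functions and the exponent in terms of characters.  (All three theorems.)

Let `p` be a prime not dividing `Rb q`; it is odd and divides neither the discriminants nor the resultants (`good_of_not_dvd`), so all the symbols are `± 1` and `QT.chi b p = jacobiSym b p` (`p` odd: `gtmf_chi` in `GTMeanF`).
`inert_chi`: `∏ j ∈ T, (1 - χ_j) / 2` is the indicator function on the left (a factor is `1` if `χ_j = -1` and `0` if `χ_j = 1`); expand it with `Finset.prod_one_sub`/`Finset.prod_add` (`∏ j ∈ T, (1 + (- χ_j)) = ∑ A ∈ T.powerset, ∏ j ∈ A, (- χ_j)`: `Finset.prod_one_add`), and `∏ j ∈ A, χ_j = QT.chi (∏ j ∈ A, disc) p` (`jacobiSym.mul_left`,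
induction; see `gtcase_jac_prod` in `GTCase`).
`empty_chi`: `Sp q p = ∅` iff all symbols are `-1`; `inert_chi` with `T = univ` (`Finset.powerset_univ`).
`xx_chi`: `|Sp q p| = ∑ i (1 + χ_i)/2`, `mp q p = ∑ e ∈ Ed q, (1 - χ_e)/2`. -/

set_option autoImplicit false

namespace ZS

open Finset ZG

private theorem B1_ne {p : ℕ} (hp : p.Prime) {n : ℤ} (h : ¬ (p : ℤ) ∣ n) :
    jacobiSym n p = 1 ∨ jacobiSym n p = -1 := by
  have : Fact p.Prime := ⟨hp⟩
  rcases jacobiSym.trichotomy n p with h0 | h0 | h0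
  · exfalso
    rw [← jacobiSym.legendreSym.to_jacobiSym, legendreSym.eq_zero_iff,
      ZMod.intCast_zmod_eq_zero_iff_dvd] at h0
    exact h h0
  · exact Or.inl h0
  · exact Or.inr h0

private theorem B1_jac_prod {κ : Type} (S : Finset κ) (f : κ → ℤ) (p : ℕ) :
    jacobiSym (∏ i ∈ S, f i) p = ∏ i ∈ S, jacobiSym (f i) p := by
  classical
  induction S using Finset.induction_on with
  | empty => simp
  | insert a s ha ih => rw [Finset.prod_insert ha, Finset.prod_insert ha, jacobiSym.mul_left, ih]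

private theorem B1_chi {k : ℕ} (q : Fin k → BQ) {p : ℕ} (hp : p.Prime) (h : ¬ p ∣ Rb q) (b : ℤ) :
    QT.chi b p = (jacobiSym b p : ℝ) := by
  unfold QT.chi
  rw [if_pos (hp.odd_of_ne_two (good_of_not_dvd q h).two)]

open Classical in
theorem inert_chi {k : ℕ} (q : Fin k → BQ) {p : ℕ} (hp : p.Prime) (h : ¬ p ∣ Rb q) (T : Finset (Fin k)) :
    (if ∀ j ∈ T, jacobiSym (q j).disc p = -1 then (1 : ℝ) else 0) =
      (1 / 2) ^ T.card * ∑ A ∈ T.powerset, (-1) ^ A.card * QT.chi (∏ i ∈ A, (q i).disc) p := by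
  have hgood := good_of_not_dvd q h
  have h1 : (if ∀ j ∈ T, jacobiSym (q j).disc p = -1 then (1 : ℝ) else 0) =
      ∏ j ∈ T, ((1 / 2) * (1 + -(jacobiSym (q j).disc p : ℝ))) := by
    split_ifs with h2
    · rw [Finset.prod_eq_one]
      intro j hj
      rw [h2 j hj]
      norm_num
    · rw [eq_comm, Finset.prod_eq_zero_iff]
      by_contra hcon
      apply h2
      intro j hj
      rcases B1_ne hp (hgood.disc j) with h3 | h3
      · exfalso
        apply hcon
        refine ⟨j, hj, ?_⟩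
        rw [h3]
        norm_num
      · exact h3
  rw [h1, Finset.prod_mul_distrib, Finset.prod_const, Finset.prod_one_add]
  congr 1
  refine Finset.sum_congr rfl fun A _ => ?_
  rw [B1_chi q hp h, B1_jac_prod, Int.cast_prod, Finset.prod_neg]

open Classical in
theorem empty_chi {k : ℕ} (q : Fin k → BQ) {p : ℕ} (hp : p.Prime) (h : ¬ p ∣ Rb q) :
    (if Sp q p = ∅ then (1 : ℝ) else 0) =
      (1 / 2) ^ k * ∑ A : Finset (Fin k), (-1) ^ A.card * QT.chi (∏ i ∈ A, (q i).disc) p := by
  have h1 : Sp q p = ∅ ↔ ∀ j ∈ (univ : Finset (Fin k)), jacobiSym (q j).disc p = -1 := by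
    unfold Sp
    rw [Finset.filter_eq_empty_iff]
    refine forall_congr' fun j => forall_congr' fun _ => ?_
    rcases B1_ne hp ((good_of_not_dvd q h).disc j) with h3 | h3 <;> rw [h3] <;> norm_num
  have h2 := inert_chi q hp h univ
  rw [Finset.card_univ, Fintype.card_fin, Finset.powerset_univ] at h2
  rw [← h2]
  exact if_congr h1 rfl rfl

theorem xx_chi {k : ℕ} (q : Fin k → BQ) (hR : ∀ i j, i ≠ j → (q i).res (q j) ≠ 0) {p : ℕ} (hp : p.Prime)
    (h : ¬ p ∣ Rb q) : xx q p = (((Ed q).card : ℝ) - k) / 2 + (∑ i, QT.chi (q i).disc p) / 2 -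
      (∑ e ∈ Ed q, QT.chi ((q e.1).res (q e.2)) p) / 2 := by
  have hgood := good_of_not_dvd q h
  have _ := hR
  have h1 : ((Sp q p).card : ℝ) = ∑ i, (1 + QT.chi (q i).disc p) / 2 := by
    unfold Sp
    rw [Finset.card_filter]
    push_cast
    refine Finset.sum_congr rfl fun i _ => ?_
    rw [B1_chi q hp h]
    rcases B1_ne hp (hgood.disc i) with h3 | h3 <;> rw [h3] <;> norm_num
  have h2 : ((mp q p : ℕ) : ℝ) = ∑ e ∈ Ed q, (1 - QT.chi ((q e.1).res (q e.2)) p) / 2 := by
    unfold mp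
    rw [Finset.card_filter]
    push_cast
    refine Finset.sum_congr rfl fun e he => ?_
    rw [B1_chi q hp h]
    have h4 : e.1 ≠ e.2 := by
      unfold Ed at he
      exact (Finset.mem_filter.1 he).2.1.ne
    rcases B1_ne hp (hgood.res e.1 e.2 h4) with h3 | h3 <;> rw [h3] <;> norm_num
  unfold xx
  rw [h1, h2, ← Finset.sum_div, ← Finset.sum_div, Finset.sum_add_distrib, Finset.sum_sub_distrib]
  simp only [Finset.sum_const, Finset.card_univ, Fintype.card_fin, nsmul_eq_mul, mul_one]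
  ring

end ZS
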