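import Pool.Agent.Lib.MP_1ad228_ntTS.A3

/-! LEAF B2 (medium-).  The pointwise bound for the majorant and the numerical inequalities.  (All four theorems.)

`fs_le`: `s = sk k`, `ℓ = log 2`, `x = xx q p`, `|x| ≤ k`, `s k² = 1/20`.  If `Sp q p = ∅`: the left side is `0`, `x = - k + mp`, and the right side is `(1 + s/20) + s ℓ x + (s ℓ k - (1 + s/20) - s ℓ mp) = s ℓ (x + k - mp) = 0`.
Otherwise the indicator is `0` and `FS = 2 ^ (s x) = exp (s ℓ x) ≤ 1 + s ℓ x + (s ℓ x)²` (`Real.abs_exp_sub_one_sub_id_le`, `|s ℓ x| ≤ s k ≤ 1`) and `(s ℓ x)² ≤ s² k² = s / 20`.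
`num1`: `(m - k)/2 + k 2^(-k) ≤ -1/2 + 3/8 = -1/8` (`k 2^(-k) ≤ 3/8` for `k ≥ 3`: `8 k ≤ 3 * 2 ^ k`, induction), `ℓ ≥ 0.693` (`Real.log_two_gt_d9`), so the left side is `≤ 1 - 2^(-k) + s/20 - 0.0866 s ≤ 1 - 2^(-k) - 0.036 s`, and `0.036 s = 0.0018 / k² ≥ 0.001 * 2^(-k)` because `k² ≤ 1.8 * 2 ^ k` (`k = 3`: `9 ≤ 14.4`; `k ≥ 4`: `k² ≤ 2^k`, induction).
`num2`: `s = 1/80`: `(1 + 1/1600) * 3/4 - ℓ/160 ≤ 0.7505 - 0.0043 ≤ 0.74975 = 1 - et 2`.  `num3`: `(1 + 1/1600) * 3/4 - ℓ/640 ≤ 0.75046875 - 0.00108 ≤ 0.74975`. -/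

set_option autoImplicit false

namespace ZS

open Finset ZG

private theorem B2_log : (0.693 : ℝ) ≤ Real.log 2 ∧ Real.log 2 ≤ 1 := by
  refine ⟨?_, ?_⟩
  · have h := Real.log_two_gt_d9
    linarith
  · have h := Real.log_two_lt_d9
    linarith

private theorem B2_sk0 {k : ℕ} (hk : 0 < k) : 0 < sk k ∧ sk k * (k : ℝ) ^ 2 = 1 / 20 ∧ sk k * k ≤ 1 := by
  have hk0 : (0 : ℝ) < k := Nat.cast_pos.2 hk
  have hk1 : (1 : ℝ) ≤ k := by exact_mod_cast hk
  unfold sk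
  refine ⟨by positivity, ?_, ?_⟩
  · field_simp
  · rw [div_mul_eq_mul_div, one_mul, div_le_one (by positivity)]
    nlinarith

private theorem B2_xx {k : ℕ} {q : Fin k → BQ} (hq : Gen q) (p : ℕ) : |xx q p| ≤ k := by
  have h1 : (Sp q p).card ≤ k := by
    refine (Finset.card_le_univ _).trans (le_of_eq ?_)
    rw [Fintype.card_fin]
  have h2 : mp q p + 1 ≤ k := by
    refine le_trans ?_ hq.edges
    unfold mp
    exact Nat.add_le_add_right (Finset.card_filter_le _ _) 1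
  have h1' : ((Sp q p).card : ℝ) ≤ k := by exact_mod_cast h1
  have h2' : (mp q p : ℝ) + 1 ≤ k := by exact_mod_cast h2
  have h3 : (0 : ℝ) ≤ ((Sp q p).card : ℝ) := Nat.cast_nonneg _
  have h4 : (0 : ℝ) ≤ (mp q p : ℝ) := Nat.cast_nonneg _
  unfold xx
  rw [abs_le]
  constructor <;> linarith

private theorem B2_exp {t u : ℝ} (h1 : |t| ≤ 1) (h2 : t ^ 2 ≤ u) : Real.exp t ≤ 1 + t + u := by
  have h := (abs_le.1 (Real.abs_exp_sub_one_sub_id_le h1)).2
  linarith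

private theorem B2_n1 (k : ℕ) (hk : 3 ≤ k) : 8 * k ≤ 3 * 2 ^ k := by
  induction k, hk using Nat.le_induction with
  | base => norm_num
  | succ k hk ih =>
    rw [pow_succ]
    omega

private theorem B2_n2 (k : ℕ) (hk : 3 ≤ k) : 8 * k ^ 2 ≤ 9 * 2 ^ k := by
  induction k, hk using Nat.le_induction with
  | base => norm_num
  | succ k hk ih =>
    rw [pow_succ 2 k]
    have h : (k + 1) ^ 2 ≤ 2 * k ^ 2 := by nlinarith
    omega

open Classical in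
theorem fs_le {k : ℕ} {q : Fin k → BQ} (hq : Gen q) (p : ℕ) :
    FS q p ≤ (1 + sk k / 20) + sk k * Real.log 2 * xx q p +
      (if Sp q p = ∅ then (1 : ℝ) else 0) * (sk k * Real.log 2 * k - (1 + sk k / 20) - sk k * Real.log 2 * mp q p) := by
  have hk := hq.pos
  obtain ⟨hs0, hs2, hs1⟩ := B2_sk0 hk
  obtain ⟨hl0, hl1⟩ := B2_log
  have hk0 : (0 : ℝ) < k := Nat.cast_pos.2 hk
  unfold FS
  by_cases hS : Sp q p = ∅
  · rw [if_pos hS, if_pos hS]
    have hx : xx q p = - (k : ℝ) + mp q p := by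
      unfold xx
      rw [hS, Finset.card_empty, Nat.cast_zero]
      ring
    rw [hx]
    apply le_of_eq
    ring
  · rw [if_neg hS, if_neg hS, zero_mul, add_zero, Real.rpow_def_of_pos two_pos]
    have hx := B2_xx hq p
    have ht : |sk k * Real.log 2 * xx q p| ≤ sk k * k := by
      rw [abs_mul, abs_mul, abs_of_pos hs0, abs_of_nonneg (by linarith : 0 ≤ Real.log 2)]
      calc sk k * Real.log 2 * |xx q p| ≤ sk k * 1 * k := by
            refine mul_le_mul (mul_le_mul_of_nonneg_left hl1 hs0.le) hx (abs_nonneg _) (by positivity)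
        _ = sk k * k := by ring
    have ht2 : (sk k * Real.log 2 * xx q p) ^ 2 ≤ sk k / 20 := by
      rw [← sq_abs]
      calc |sk k * Real.log 2 * xx q p| ^ 2 ≤ (sk k * k) ^ 2 :=
            pow_le_pow_left₀ (abs_nonneg _) ht 2
        _ = sk k * (sk k * (k : ℝ) ^ 2) := by ring
        _ = sk k / 20 := by
            rw [hs2]
            ring
    have h := B2_exp (ht.trans hs1) ht2
    have e1 : Real.log 2 * (sk k * xx q p) = sk k * Real.log 2 * xx q p := by ring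
    rw [e1]
    linarith

theorem num1 (k m : ℕ) (hk : 3 ≤ k) (hm : m + 1 ≤ k) :
    (1 + sk k / 20) * (1 - (1 / 2) ^ k) + sk k * Real.log 2 * (((m : ℝ) - k) / 2 + k * (1 / 2) ^ k) ≤ 1 - et k := by
  obtain ⟨hs0, hs2, -⟩ := B2_sk0 (by omega : 0 < k)
  obtain ⟨hl0, hl1⟩ := B2_log
  have hk0 : (0 : ℝ) < k := Nat.cast_pos.2 (by omega)
  obtain ⟨b, hb⟩ : ∃ b : ℝ, b = (1 / 2) ^ k := ⟨_, rfl⟩
  have hb0 : 0 < b := by
    rw [hb]
    positivity
  have hb2 : b * 2 ^ k = 1 := by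
    rw [hb, ← mul_pow]
    norm_num
  have hn1 : (k : ℝ) * b ≤ 3 / 8 := by
    have h1 : (8 : ℝ) * k ≤ 3 * 2 ^ k := by exact_mod_cast B2_n1 k hk
    have h2 := mul_le_mul_of_nonneg_right h1 hb0.le
    have h3 : 3 * (2 : ℝ) ^ k * b = 3 * (b * 2 ^ k) := by ring
    rw [h3, hb2] at h2
    linarith
  have hn2 : (k : ℝ) ^ 2 * b ≤ 9 / 8 := by
    have h1 : (8 : ℝ) * (k : ℝ) ^ 2 ≤ 9 * 2 ^ k := by exact_mod_cast B2_n2 k hk
    have h2 := mul_le_mul_of_nonneg_right h1 hb0.le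
    have h3 : 9 * (2 : ℝ) ^ k * b = 9 * (b * 2 ^ k) := by ring
    rw [h3, hb2] at h2
    linarith
  have hsb : b ≤ (45 / 2) * sk k := by
    have h1 := mul_le_mul_of_nonneg_left hn2 hs0.le
    have h2 : sk k * ((k : ℝ) ^ 2 * b) = b / 20 := by
      rw [← mul_assoc, hs2]
      ring
    rw [h2] at h1
    linarith
  have hm' : (m : ℝ) + 1 ≤ k := by exact_mod_cast hm
  have hE : ((m : ℝ) - k) / 2 + k * b ≤ - 1 / 8 := by linarith
  have hsl : 0.693 * sk k ≤ sk k * Real.log 2 := by nlinarith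
  have hsl0 : 0 ≤ sk k * Real.log 2 := by linarith [mul_pos (by norm_num : (0 : ℝ) < 0.693) hs0]
  have h3 := mul_le_mul_of_nonneg_left hE hsl0
  have h4 : 0 ≤ sk k * b := by positivity
  unfold et
  rw [← hb]
  have h5 : (1 + sk k / 20) * (1 - b) = 1 - b + sk k / 20 - sk k * b / 20 := by ring
  rw [h5]
  linarith

theorem num2 : (1 + sk 2 / 20) * (1 - (1 / 2) ^ 2) + sk 2 * Real.log 2 * (((0 : ℝ) - 2) / 2 + 2 * (1 / 2) ^ 2) ≤ 1 - et 2 := by
  obtain ⟨hl0, hl1⟩ := B2_log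
  unfold et sk
  norm_num
  linarith

theorem num3 : (1 + sk 2 / 20) * (1 - (1 / 2) ^ 2) + sk 2 * Real.log 2 * (((1 : ℝ) - 2) / 2 + 2 * (1 / 2) ^ 2) -
    sk 2 * Real.log 2 / 8 ≤ 1 - et 2 := by
  obtain ⟨hl0, hl1⟩ := B2_log
  unfold et sk
  norm_num
  linarith

end ZS
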