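import Pool.Agent.Lib.MP_1ad228_ntTS.B1
import Pool.Agent.Lib.MP_1ad228_ntTS.B2
import Pool.Agent.Lib.MP_1ad228_nt.GTUb

/-! LEAF B3 (medium).  The mean value of the majorant, if `k ≥ 3` or all the resultants are squares.

Let `p ∤ Rb q` be prime, `s = sk k`, `ℓ = log 2`, `c1 = 1 + s/20`, `m = (Ed q).card`, `δ` the indicator of `Sp q p = ∅`.  In `fs_le` drop the term `- δ s ℓ mp ≤ 0`, insert `empty_chi` and `xx_chi` (`Gen.res`):
`FS ≤ c1 + s ℓ (m - k)/2 + (s ℓ k - c1) 2^(-k) + ∑ i (s ℓ / 2) χ_i - ∑ e (s ℓ / 2) χ_e + ∑_{A ≠ ∅} 2^(-k) (-1)^|A| (s ℓ k - c1) χ_A` (the term `A = ∅` of the sum is `QT.chi 1 p = 1`), and the constant is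
`c1 (1 - 2^(-k)) + s ℓ ((m - k)/2 + k 2^(-k)) ≤ 1 - et k` by `num1` (`Gen.edges`) if `k ≥ 3`, by `num2` if `k = 2` and `m = 0`.
Apply `ubG` with `κ = {A : Finset (Fin k) // A.Nonempty} ⊕ (Fin k ⊕ {e // e ∈ Ed q})` (`Fintype.sum_sum_type`), `M = 2 ^ k`, `c = 1 - et k ≥ 0`, `R = Rb q` (`Gen.Rb`); the integers are not squares by `Gen.ind`, `Gen.sq` and the definition of `Ed`; `ws_facts`; `c - 1 = - et k`. -/

set_option autoImplicit false

namespace ZS

open Finset ZG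

private theorem B3_sk {k : ℕ} (hk : 2 ≤ k) : 0 ≤ sk k * Real.log 2 := by
  unfold sk
  have := Real.log_nonneg (by norm_num : (1 : ℝ) ≤ 2)
  positivity

private theorem B3_et {k : ℕ} (hk : 2 ≤ k) : 0 ≤ 1 - et k := by
  unfold et
  have h1 : ((1 : ℝ) / 2) ^ k ≤ (1 / 2) ^ 2 := pow_le_pow_of_le_one (by norm_num) (by norm_num) hk
  have h2 : ((1 : ℝ) / 2) ^ 2 = 1 / 4 := by norm_num
  rw [h2] at h1
  linarith

private theorem B3_const {k : ℕ} {q : Fin k → BQ} (hq : Gen q) (hk : 3 ≤ k ∨ Ed q = ∅) :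
    (1 + sk k / 20) * (1 - (1 / 2) ^ k) +
      sk k * Real.log 2 * ((((Ed q).card : ℝ) - k) / 2 + k * (1 / 2) ^ k) ≤ 1 - et k := by
  by_cases h3 : 3 ≤ k
  · exact num1 k (Ed q).card h3 hq.edges
  · have hE : Ed q = ∅ := hk.resolve_left h3
    have hk2 : k = 2 := by
      have := hq.two
      omega
    subst hk2
    rw [hE, Finset.card_empty, Nat.cast_zero]
    have := num2
    push_cast
    exact this

private theorem B3_point {k : ℕ} {q : Fin k → BQ} (hq : Gen q) {p : ℕ} (hp : p.Prime) (h : ¬ p ∣ Rb q) :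
    FS q p ≤ (1 + sk k / 20) * (1 - (1 / 2) ^ k) +
      sk k * Real.log 2 * ((((Ed q).card : ℝ) - k) / 2 + k * (1 / 2) ^ k) +
      (∑ A ∈ univ.erase (∅ : Finset (Fin k)), ((1 / 2) ^ k * (-1) ^ A.card * (sk k * Real.log 2 * k - (1 + sk k / 20))) *
          QT.chi (∏ i ∈ A, (q i).disc) p +
        (∑ i, (sk k * Real.log 2 / 2) * QT.chi (q i).disc p +
        ∑ e ∈ Ed q, (-(sk k * Real.log 2 / 2)) * QT.chi ((q e.1).res (q e.2)) p)) := by
  obtain ⟨I, hI0, hI, hfs⟩ : ∃ I : ℝ, 0 ≤ I ∧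
      I = (1 / 2) ^ k * ∑ A : Finset (Fin k), (-1) ^ A.card * QT.chi (∏ i ∈ A, (q i).disc) p ∧
      FS q p ≤ (1 + sk k / 20) + sk k * Real.log 2 * xx q p +
        I * (sk k * Real.log 2 * k - (1 + sk k / 20) - sk k * Real.log 2 * mp q p) := by
    refine ⟨_, ?_, empty_chi q hp h, fs_le hq p⟩
    split_ifs
    · exact zero_le_one
    · exact le_refl _
  have hx := xx_chi q hq.res hp h
  have hodd : Odd p := hp.odd_of_ne_two (good_of_not_dvd q h).two
  have h1 : QT.chi (∏ i ∈ (∅ : Finset (Fin k)), (q i).disc) p = 1 := by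
    rw [Finset.prod_empty]
    unfold QT.chi
    rw [if_pos hodd, jacobiSym.one_left, Int.cast_one]
  have h2 : ∑ A : Finset (Fin k), (-1 : ℝ) ^ A.card * QT.chi (∏ i ∈ A, (q i).disc) p =
      1 + ∑ A ∈ univ.erase (∅ : Finset (Fin k)), (-1 : ℝ) ^ A.card * QT.chi (∏ i ∈ A, (q i).disc) p := by
    rw [← Finset.add_sum_erase univ _ (Finset.mem_univ (∅ : Finset (Fin k))), h1, Finset.card_empty, pow_zero, one_mul]
  have h3 : ∑ A ∈ univ.erase (∅ : Finset (Fin k)), ((1 / 2) ^ k * (-1) ^ A.card * (sk k * Real.log 2 * k - (1 + sk k / 20))) *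
      QT.chi (∏ i ∈ A, (q i).disc) p = ((1 / 2) ^ k * (sk k * Real.log 2 * k - (1 + sk k / 20))) *
      ∑ A ∈ univ.erase (∅ : Finset (Fin k)), (-1 : ℝ) ^ A.card * QT.chi (∏ i ∈ A, (q i).disc) p := by
    rw [Finset.mul_sum]
    exact Finset.sum_congr rfl fun A _ => by ring
  rw [h3, ← Finset.mul_sum, ← Finset.mul_sum]
  rw [h2] at hI
  rw [hx] at hfs
  have h4 : 0 ≤ I * (sk k * Real.log 2 * mp q p) :=
    mul_nonneg hI0 (mul_nonneg (B3_sk hq.two) (Nat.cast_nonneg _))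
  have h5 : I * (sk k * Real.log 2 * k - (1 + sk k / 20) - sk k * Real.log 2 * mp q p) =
      (1 / 2) ^ k * (1 + ∑ A ∈ univ.erase (∅ : Finset (Fin k)), (-1 : ℝ) ^ A.card * QT.chi (∏ i ∈ A, (q i).disc) p) *
        (sk k * Real.log 2 * k - (1 + sk k / 20)) - I * (sk k * Real.log 2 * mp q p) := by
    rw [← hI]
    ring
  rw [h5] at hfs
  refine hfs.trans ?_
  linarith

theorem mean_FS3 {k : ℕ} {q : Fin k → BQ} (hq : Gen q) (hk : 3 ≤ k ∨ Ed q = ∅) : ∃ B : ℝ, 0 < B ∧ ∀ x : ℝ, 2 ≤ x →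
    ∑ n ∈ (Icc 1 ⌊x⌋₊).filter Squarefree, QT.pf (FS q) n ≤ B * x * Real.log x ^ (-(et k)) := by
  classical
  have h := ubG (κ := {A : Finset (Fin k) // A.Nonempty} ⊕ (Fin k ⊕ {e // e ∈ Ed q})) (FS q) ((2 ^ k : ℕ) : ℝ) (1 - et k)
    (Sum.elim (fun A => (1 / 2) ^ k * (-1) ^ A.1.card * (sk k * Real.log 2 * k - (1 + sk k / 20)))
      (Sum.elim (fun _ => sk k * Real.log 2 / 2) (fun _ => -(sk k * Real.log 2 / 2))))
    (Sum.elim (fun A => ∏ i ∈ A.1, (q i).disc) (Sum.elim (fun i => (q i).disc) (fun e => (q e.1.1).res (q e.1.2))))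
    (by
      rintro (A | i | e)
      · exact hq.ind A.1 A.2
      · exact hq.sq i
      · have he := e.2
        unfold Ed at he
        rw [Finset.mem_filter] at he
        exact he.2.2)
    (Rb q) hq.Rb (B3_et hq.two) (fun p _ => (ws_facts hq p).2.2.1) (fun p _ => (ws_facts hq p).2.2.2)
    (by
      intro p hp hpR
      refine (B3_point hq hp hpR).trans ?_
      have h1 := B3_const hq hk
      rw [Fintype.sum_sum_type, Fintype.sum_sum_type]
      simp only [Sum.elim_inl, Sum.elim_inr]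
      have h2 : ∀ f : Finset (Fin k) → ℝ, ∑ A ∈ univ.erase (∅ : Finset (Fin k)), f A =
          ∑ A : {A : Finset (Fin k) // A.Nonempty}, f A.1 := fun f =>
        Finset.sum_subtype _ (fun A => by
          rw [Finset.mem_erase, Finset.nonempty_iff_ne_empty]
          exact ⟨fun h => h.1, fun h => ⟨h, Finset.mem_univ _⟩⟩) f
      have h3 : ∀ f : Fin k × Fin k → ℝ, ∑ e ∈ Ed q, f e = ∑ e : {e // e ∈ Ed q}, f e.1 := fun f =>
        Finset.sum_subtype _ (fun e => Iff.rfl) f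
      rw [h2, h3]
      exact add_le_add h1 (le_refl _))
  have e : (1 - et k) - 1 = -(et k) := by ring
  rw [e] at h
  exact h

end ZS
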