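import Pool.Agent.Lib.MP_1ad228_ntTS.B1
import Pool.Agent.Lib.MP_1ad228_ntTS.B2
import Pool.Agent.Lib.MP_1ad228_nt.GTUb

/-! LEAF B4 (medium).  The mean value of the majorant for two forms whose resultant is not a square.

Here `k = 2` and `Ed q = {(0, 1)}` (not empty, and `(0, 1)` is the only pair `i < j` in `Fin 2`); `r = (q 0).res (q 1)` is not a square.  For a prime `p ∤ Rb q` let `a, b, t` be the symbols of `(q 0).disc`, `(q 1).disc`, `r` (each `± 1`), `s = sk 2 = 1/80`, `ℓ = log 2`, `c1 = 1 + s/20`.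
`mp q p = (1 - t)/2`, `δ = (1 - a)(1 - b)/4` the indicator of `Sp q p = ∅` (`empty_chi` or directly: 4 cases), `xx q p = -1/2 + (a + b - t)/2` (`xx_chi`).  `fs_le`: `FS ≤ c1 + s ℓ xx + δ (2 s ℓ - c1) - s ℓ δ (1 - t)/2`, that is
`FS ≤ [c1 * 3/4 + s ℓ (-1/2 + 1/2) - s ℓ/8] + (a + b)(s ℓ/2 - (2 s ℓ - c1)/4 + s ℓ/8) + a b ((2 s ℓ - c1)/4 - s ℓ/8) + t (- s ℓ/2 + s ℓ/8) - (s ℓ/8) t a - (s ℓ/8) t b + (s ℓ/8) t a b` (check: expand `-(s ℓ/8)(1 - a)(1 - b)(1 - t)`; `ring`).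
The constant is `≤ 1 - et 2` by `num3`.  Apply `ubG` with `κ = Fin 7`, `M = 2 ^ 2`, `c = 1 - et 2`, `R = Rb q`, `b = disc 0, disc 1, disc 0 * disc 1, r, f (r * disc 0), f (r * disc 1), r * (disc 0 * disc 1)`, where `f b = if IsSquare b then 2 else b` and the (negative) coefficient is replaced by `0` if `b` is a square: then the symbol is `1` and dropping the negative term
is an upper bound (the trick of `gtmf_key`, `gtmf_q` in `Pool/Agent/Lib/MP_1ad228_nt/GTMeanF.lean`).  The others are not squares: `Gen.sq`, `Gen.sq2`, `Gen.res2`, definition of `Ed`. -/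

set_option autoImplicit false

namespace ZS

open Finset ZG

private theorem B4_jac {a : ℤ} {p : ℕ} (hp : p.Prime) (h : ¬ (p : ℤ) ∣ a) :
    jacobiSym a p = 1 ∨ jacobiSym a p = -1 := by
  refine jacobiSym.eq_one_or_neg_one ?_
  have h1 : ¬ p ∣ a.natAbs := fun hd => h (Int.natCast_dvd.2 hd)
  have h2 := (Nat.Prime.coprime_iff_not_dvd hp).2 h1
  rw [Int.gcd_eq_natAbs, Int.natAbs_natCast]
  exact h2.symm

private theorem B4_sq {a : ℤ} {p : ℕ} (hp : p.Prime) (h : ¬ (p : ℤ) ∣ a) (hs : IsSquare a) :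
    jacobiSym a p = 1 := by
  obtain ⟨r, rfl⟩ := hs
  have h1 : ¬ (p : ℤ) ∣ r := fun hd => h (Dvd.dvd.mul_right hd r)
  rw [jacobiSym.mul_left]
  rcases B4_jac hp h1 with e | e <;> rw [e] <;> norm_num

private theorem B4_chi (b : ℤ) {p : ℕ} (hp : Odd p) : QT.chi b p = (jacobiSym b p : ℝ) := by
  unfold QT.chi
  rw [if_pos hp]

private theorem B4_two : ¬ IsSquare (2 : ℤ) := by
  rintro ⟨r, hr⟩
  have h1 : r.natAbs * r.natAbs = 2 := by
    rw [← Int.natAbs_mul, ← hr]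
    rfl
  have h2 : r.natAbs < 2 := by
    by_contra hc
    push Not at hc
    nlinarith
  interval_cases h : r.natAbs <;> omega

private theorem B4_prime_mul {a b : ℤ} {p : ℕ} (hp : p.Prime) (ha : ¬ (p : ℤ) ∣ a)
    (hb : ¬ (p : ℤ) ∣ b) : ¬ (p : ℤ) ∣ a * b := fun h =>
  ((Nat.prime_iff_prime_int.1 hp).dvd_or_dvd h).elim ha hb

/-- The number `2` instead of a square. -/
private noncomputable def B4_q (b : ℤ) : ℤ := by
  classical exact if IsSquare b then 2 else b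

/-- The coefficient `0` for a square. -/
private noncomputable def B4_c (m : ℝ) (b : ℤ) : ℝ := by
  classical exact if IsSquare b then 0 else m

private theorem B4_qn (b : ℤ) : ¬ IsSquare (B4_q b) := by
  unfold B4_q
  split_ifs with hb
  · exact B4_two
  · exact hb

private theorem B4_key {m : ℝ} (hm : m ≤ 0) (a : ℤ) {p : ℕ} (hp : p.Prime) (hodd : Odd p)
    (ha : ¬ (p : ℤ) ∣ a) : m * (jacobiSym a p : ℝ) ≤ B4_c m a * QT.chi (B4_q a) p := by
  unfold B4_c B4_q
  by_cases hs : IsSquare a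
  · rw [B4_sq hp ha hs, if_pos hs, if_pos hs, zero_mul, Int.cast_one, mul_one]
    exact hm
  · rw [if_neg hs, if_neg hs, B4_chi _ hodd]

private theorem B4_Ed {q : Fin 2 → BQ} (hE : Ed q ≠ ∅) :
    Ed q = {(0, 1)} ∧ ¬ IsSquare ((q 0).res (q 1)) := by
  have hall : ∀ e ∈ Ed q, e = (0, 1) ∧ ¬ IsSquare ((q 0).res (q 1)) := by
    rintro ⟨e1, e2⟩ he
    unfold Ed at he
    rw [Finset.mem_filter] at he
    obtain ⟨_, h1, h2⟩ := he
    have h3 : e1 = 0 ∧ e2 = 1 := by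
      change e1 < e2 at h1
      have := e1.2
      have := e2.2
      rw [Fin.lt_def] at h1
      constructor
      · apply Fin.ext
        show (e1 : ℕ) = 0
        omega
      · apply Fin.ext
        show (e2 : ℕ) = 1
        omega
    obtain ⟨rfl, rfl⟩ := h3
    exact ⟨rfl, h2⟩
  obtain ⟨e, he⟩ := Finset.nonempty_iff_ne_empty.2 hE
  refine ⟨?_, (hall e he).2⟩
  ext e'
  rw [Finset.mem_singleton]
  constructor
  · exact fun h => (hall e' h).1
  · rintro rfl
    rw [← (hall e he).1]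
    exact he

private theorem B4_mp {q : Fin 2 → BQ} (hE : Ed q ≠ ∅) (p : ℕ) :
    mp q p = if jacobiSym ((q 0).res (q 1)) p = -1 then 1 else 0 := by
  unfold mp
  rw [(B4_Ed hE).1, Finset.filter_singleton]
  split_ifs
  · rfl
  · rfl

private theorem B4_card (q : Fin 2 → BQ) (p : ℕ) :
    (Sp q p).card = (if jacobiSym (q 0).disc p = 1 then 1 else 0) + (if jacobiSym (q 1).disc p = 1 then 1 else 0) := by
  unfold Sp
  rw [Finset.card_filter, Fin.sum_univ_two]

private theorem B4_pt {q : Fin 2 → BQ} (hq : Gen q) (hE : Ed q ≠ ∅) (p : ℕ) (s l : ℝ) (hs : s = sk 2) (hl : l = Real.log 2)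
    (a b t : ℤ) (ha : jacobiSym (q 0).disc p = a) (hb : jacobiSym (q 1).disc p = b)
    (ht : jacobiSym ((q 0).res (q 1)) p = t) (ha' : a = 1 ∨ a = -1) (hb' : b = 1 ∨ b = -1) (ht' : t = 1 ∨ t = -1) :
    FS q p ≤ (1 - et 2) + ((s * l / 2 - (2 * s * l - (1 + s / 20)) / 4 + s * l / 8) * a +
      (s * l / 2 - (2 * s * l - (1 + s / 20)) / 4 + s * l / 8) * b + ((2 * s * l - (1 + s / 20)) / 4 - s * l / 8) * (a * b) +
      (-(3 * (s * l) / 8)) * t + (-(s * l / 8)) * (t * a) + (-(s * l / 8)) * (t * b) + (s * l / 8) * (t * (a * b))) := by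
  classical
  have h1 := fs_le hq p
  have h2 := num3
  have hcard := B4_card q p
  have hmp := B4_mp hE p
  have hemp : (Sp q p = ∅) ↔ (a ≠ 1 ∧ b ≠ 1) := by
    rw [← Finset.card_eq_zero, hcard, ha, hb]
    split_ifs with h3 h4 h4 <;> simp [h3, h4]
  unfold xx at h1
  rw [if_congr hemp rfl rfl] at h1
  rw [hcard, hmp, ha, hb, ht] at h1
  rw [← hs, ← hl] at h1 h2
  rcases ha' with rfl | rfl <;> rcases hb' with rfl | rfl <;> rcases ht' with rfl | rfl <;>
    norm_num at h1 h2 ⊢ <;> linarith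

theorem mean_FS2 {q : Fin 2 → BQ} (hq : Gen q) (hE : Ed q ≠ ∅) : ∃ B : ℝ, 0 < B ∧ ∀ x : ℝ, 2 ≤ x →
    ∑ n ∈ (Icc 1 ⌊x⌋₊).filter Squarefree, QT.pf (FS q) n ≤ B * x * Real.log x ^ (-(et 2)) := by
  classical
  obtain ⟨s, hs⟩ : ∃ s, s = sk 2 := ⟨_, rfl⟩
  obtain ⟨l, hl⟩ : ∃ l, l = Real.log 2 := ⟨_, rfl⟩
  have hs0 : 0 < s := by
    rw [hs]
    unfold sk
    positivity
  have hl0 : 0 < l := by
    rw [hl]
    exact Real.log_pos (by norm_num)
  have hsl : 0 < s * l := mul_pos hs0 hl0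
  have h := ubG (FS q) (((2 ^ 2 : ℕ) : ℝ)) (1 - et 2)
    (![(s * l / 2 - (2 * s * l - (1 + s / 20)) / 4 + s * l / 8),
      (s * l / 2 - (2 * s * l - (1 + s / 20)) / 4 + s * l / 8), ((2 * s * l - (1 + s / 20)) / 4 - s * l / 8),
      (-(3 * (s * l) / 8)), B4_c (-(s * l / 8)) ((q 0).res (q 1) * (q 0).disc),
      B4_c (-(s * l / 8)) ((q 0).res (q 1) * (q 1).disc), (s * l / 8)] : Fin 7 → ℝ)
    (![(q 0).disc, (q 1).disc, (q 0).disc * (q 1).disc, (q 0).res (q 1),
      B4_q ((q 0).res (q 1) * (q 0).disc), B4_q ((q 0).res (q 1) * (q 1).disc),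
      (q 0).res (q 1) * ((q 0).disc * (q 1).disc)] : Fin 7 → ℤ)
    (by
      intro j
      fin_cases j
      · exact hq.sq 0
      · exact hq.sq 1
      · exact hq.sq2 (by decide)
      · exact (B4_Ed hE).2
      · exact B4_qn _
      · exact B4_qn _
      · exact hq.res2 rfl 0 1 (by decide)) (Rb q) hq.Rb
    (by
      unfold et
      norm_num) (fun p _ => (ws_facts hq p).2.2.1) (fun p _ => (ws_facts hq p).2.2.2)
    (by
      intro p hp hpR
      have hgd := good_of_not_dvd q hpR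
      have hodd : Odd p := hp.odd_of_ne_two hgd.two
      have hr := hgd.res 0 1 (by decide)
      have k1 := B4_key (m := -(s * l / 8)) (by linarith) _ hp hodd (B4_prime_mul hp hr (hgd.disc 0))
      have k2 := B4_key (m := -(s * l / 8)) (by linarith) _ hp hodd (B4_prime_mul hp hr (hgd.disc 1))
      have h1 := B4_pt hq hE p s l hs hl _ _ _ rfl rfl rfl (B4_jac hp (hgd.disc 0)) (B4_jac hp (hgd.disc 1)) (B4_jac hp hr)
      have hsum : ∀ (f : Fin 7 → ℝ) (b : Fin 7 → ℤ), ∑ j, f j * QT.chi (b j) p =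
          f 0 * QT.chi (b 0) p + f 1 * QT.chi (b 1) p + f 2 * QT.chi (b 2) p +
          f 3 * QT.chi (b 3) p + f 4 * QT.chi (b 4) p + f 5 * QT.chi (b 5) p +
          f 6 * QT.chi (b 6) p := by
        intro f b
        rw [Fin.sum_univ_seven]
      rw [hsum]
      change FS q p ≤ (1 - et 2) + ((s * l / 2 - (2 * s * l - (1 + s / 20)) / 4 + s * l / 8) * QT.chi (q 0).disc p +
        (s * l / 2 - (2 * s * l - (1 + s / 20)) / 4 + s * l / 8) * QT.chi (q 1).disc p +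
        ((2 * s * l - (1 + s / 20)) / 4 - s * l / 8) * QT.chi ((q 0).disc * (q 1).disc) p +
        (-(3 * (s * l) / 8)) * QT.chi ((q 0).res (q 1)) p +
        B4_c (-(s * l / 8)) ((q 0).res (q 1) * (q 0).disc) * QT.chi (B4_q ((q 0).res (q 1) * (q 0).disc)) p +
        B4_c (-(s * l / 8)) ((q 0).res (q 1) * (q 1).disc) * QT.chi (B4_q ((q 0).res (q 1) * (q 1).disc)) p +
        (s * l / 8) * QT.chi ((q 0).res (q 1) * ((q 0).disc * (q 1).disc)) p)
      rw [B4_chi (q 0).disc hodd, B4_chi (q 1).disc hodd, B4_chi ((q 0).disc * (q 1).disc) hodd,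
        B4_chi ((q 0).res (q 1)) hodd, B4_chi ((q 0).res (q 1) * ((q 0).disc * (q 1).disc)) hodd]
      simp only [jacobiSym.mul_left, Int.cast_mul] at k1 k2 ⊢
      linarith)
  have e : ((1 - et 2 : ℝ) - 1) = -(et 2) := by ring
  rw [e] at h
  exact h

end ZS
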