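import Pool.Agent.Lib.MP_1ad228_ntTS.B1
import Pool.Agent.Lib.MP_1ad228_nt.GTUb

/-! LEAF B5 (medium-).  The mean value of the indicator function of the complement of `Si q i`.  (Model: `mean_S` in `Pool/Agent/Lib/MP_1ad228_nt/GTMeanS.lean`.)

For a prime `p ∤ Rb q`, `inert_chi` with `T = univ.erase i` (`k - 1` elements): the function `F p = if Si q i p then 0 else 1` is `1 - 2^(-(k-1)) ∑_{A ⊆ T} (-1)^|A| χ_A`; the term `A = ∅` is `QT.chi 1 p = 1`, so `F p = (1 - 2 * 2^(-k)) + ∑_{A ≠ ∅, A ⊆ T} (- 2 * 2^(-k) (-1)^|A|) χ_A` (`(1/2)^(k-1) = 2 (1/2)^k`, `k ≥ 1`).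
`ubG` with `κ = {A : Finset (Fin k) // A.Nonempty ∧ i ∉ A}`, `M = 1`, `c = 1 - 2 (1/2)^k ≥ 0` (`k ≥ 2`), `R = Rb q`, `Gen.ind`; `c - 1 = -(2 (1/2)^k)`. -/

set_option autoImplicit false

namespace ZS

open Finset ZG

open Classical in
private theorem B5_split {k : ℕ} (i : Fin k) (f : Finset (Fin k) → ℝ) :
    ∑ A ∈ (univ.erase i).powerset, f A =
      f ∅ + ∑ A : {A : Finset (Fin k) // A.Nonempty ∧ i ∉ A}, f A.1 := by
  have h1 : ∑ A : {A : Finset (Fin k) // A.Nonempty ∧ i ∉ A}, f A.1 =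
      ∑ A ∈ univ.filter (fun A : Finset (Fin k) => A.Nonempty ∧ i ∉ A), f A :=
    (Finset.sum_subtype (univ.filter fun A : Finset (Fin k) => A.Nonempty ∧ i ∉ A)
      (fun A => by simp) f).symm
  have h2 : (univ.erase i).powerset =
      insert ∅ (univ.filter fun A : Finset (Fin k) => A.Nonempty ∧ i ∉ A) := by
    ext A
    rw [mem_powerset, mem_insert, mem_filter]
    constructor
    · intro h
      rcases A.eq_empty_or_nonempty with h0 | h0
      · exact Or.inl h0
      · exact Or.inr ⟨mem_univ _, h0, fun hi => (mem_erase.1 (h hi)).1 rfl⟩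
    · rintro (h | ⟨-, -, h⟩)
      · rw [h]
        exact empty_subset _
      · intro j hj
        exact mem_erase.2 ⟨fun e => h (e ▸ hj), mem_univ _⟩
  rw [h2, sum_insert (by simp), h1]

open Classical in
theorem mean_Si {k : ℕ} {q : Fin k → BQ} (hq : Gen q) (i : Fin k) : ∃ B : ℝ, 0 < B ∧ ∀ x : ℝ, 2 ≤ x →
    ∑ n ∈ (Icc 1 ⌊x⌋₊).filter Squarefree, QT.pf (fun p => if Si q i p then 0 else 1) n ≤
      B * x * Real.log x ^ (-(2 * (1 / 2) ^ k) : ℝ) := by
  have hk := hq.two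
  have hpow : (1 / 2 : ℝ) ^ (k - 1) = 2 * (1 / 2) ^ k := by
    obtain ⟨m, rfl⟩ : ∃ m, k = m + 1 := ⟨k - 1, by omega⟩
    rw [Nat.add_sub_cancel, pow_succ]
    ring
  have hle : (1 / 2 : ℝ) ^ k ≤ 1 / 4 := by
    have h1 : (1 / 2 : ℝ) ^ k ≤ (1 / 2) ^ 2 :=
      pow_le_pow_of_le_one (by norm_num) (by norm_num) hk
    norm_num at h1 ⊢
    exact h1
  have h := ubG (fun p => if Si q i p then 0 else 1) 1 (1 - 2 * (1 / 2) ^ k)
    (fun A : {A : Finset (Fin k) // A.Nonempty ∧ i ∉ A} => -(2 * (1 / 2) ^ k) * (-1) ^ A.1.card)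
    (fun A => ∏ j ∈ A.1, (q j).disc) (fun A => hq.ind A.1 A.2.1) (Rb q) hq.Rb (by linarith)
    (by intro p _; split_ifs <;> norm_num)
    (by intro p _; split_ifs <;> norm_num)
    (by
      intro p hp hpR
      have h1 := inert_chi q hp hpR (univ.erase i)
      have hcard : (univ.erase i : Finset (Fin k)).card = k - 1 := by
        rw [card_erase_of_mem (mem_univ i), card_univ, Fintype.card_fin]
      rw [hcard, hpow, B5_split i] at h1
      have hodd : Odd p := hp.odd_of_ne_two (good_of_not_dvd q hpR).two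
      have hone : QT.chi (∏ j ∈ (∅ : Finset (Fin k)), (q j).disc) p = 1 := by
        rw [prod_empty]
        unfold QT.chi
        rw [if_pos hodd, jacobiSym.one_left, Int.cast_one]
      rw [card_empty, pow_zero, one_mul, hone] at h1
      have h2 : (if Si q i p then (0 : ℝ) else 1) =
          1 - (if ∀ j ∈ univ.erase i, jacobiSym (q j).disc p = -1 then (1 : ℝ) else 0) := by
        have h3 : Si q i p ↔ ∀ j ∈ univ.erase i, jacobiSym (q j).disc p = -1 :=
          ⟨fun h j hj => h.2 j (mem_erase.1 hj).1,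
            fun h => ⟨hpR, fun j hj => h j (mem_erase.2 ⟨hj, mem_univ _⟩)⟩⟩
        by_cases h4 : Si q i p
        · rw [if_pos h4, if_pos (h3.1 h4)]
          norm_num
        · rw [if_neg h4, if_neg fun h => h4 (h3.2 h)]
          norm_num
      show (if Si q i p then (0 : ℝ) else 1) ≤ _
      rw [h2, h1]
      refine le_of_eq ?_
      rw [mul_add, mul_one, mul_sum]
      have h5 : ∑ A : {A : Finset (Fin k) // A.Nonempty ∧ i ∉ A},
          -(2 * (1 / 2 : ℝ) ^ k) * (-1) ^ A.1.card * QT.chi (∏ j ∈ A.1, (q j).disc) p =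
          -∑ A : {A : Finset (Fin k) // A.Nonempty ∧ i ∉ A},
            2 * (1 / 2 : ℝ) ^ k * ((-1) ^ A.1.card * QT.chi (∏ j ∈ A.1, (q j).disc) p) := by
        rw [← sum_neg_distrib]
        refine sum_congr rfl fun A _ => ?_
        ring
      rw [h5]
      ring)
  have e : (1 - 2 * (1 / 2 : ℝ) ^ k - 1) = -(2 * (1 / 2) ^ k) := by ring
  rw [e] at h
  exact h

end ZS
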