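import Pool.Agent.Lib.MP_1ad228_ntTS.Defs
import Pool.Agent.Lib.MP_10e784_ag.QChooseV

/-! LEAF C1 (medium).  The choice of the parameters.  Model: the private theorem `gtcount_ana` in `Pool/Agent/Lib/MP_1ad228_nt/GTCount.lean` (copy it).

Write `u = (1/2)^k`, so `0 < u ≤ 1/4`, `et k = (1 + 1/1000) u`, `ee k = (1 + 1/2000) u`, and `ε = u / 2000` (`et k - ε = ee k`).
Let `K0 ≥ 4` be larger than all the `Kf I` and `K = K0 + 1`; use `QT.chooseV (1/4 - ε) _ K` (`0 < 1/4 - ε < 1/4`): it gives `V` with `(V^K)^K ≤ N`, and with `τ = V^K`, `L = log N ≥ 1`: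
(a) `(1 + L)^K V^(-1/16) (1 + log τ)^K ≤ C1 L^(-(1/4 - ε))`, so `(1 + L)^(Kf I) V^(-1/16) (1 + log τ)^(Kf I) ≤ C1 L^(-1)` (divide by `1 + L ≥ L`; `L^(-(1/4 - ε)) ≤ 1`), and `L^(-1) ≤ L^(-ee k)`;
(b) `L^(-1/4) (1 + log τ)^K ≤ C1 L^(-(1/4 - ε))`, so `(1 + log τ)^K ≤ C1 L^ε`.
Hence the first term is `≤ S0 C1 N L^(ε - 2u) ≤ S0 C1 N L^(-ee k)` (`2u - ε ≥ ee k`), the second `≤ B N L^(-ee k)`, the terms of the sum `≤ Cf I N (C1 L^(-ee k) + B C1 L^(ε - et k)) = Cf I C1 (1 + B) N L^(-ee k)`.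
`N < N0`: `a ≤ N ≤ N0` and `N L^(-ee k) ≥ c > 0`, as in the model. -/

set_option autoImplicit false

namespace ZS

open Finset ZG

/-- the choice of the parameters -/
private theorem C1_gen {E T H ε : ℝ} (hε : 0 < ε) (hE0 : 0 < E) (hEH : ε - H ≤ -E)
    (hET : ε - T ≤ -E) (hE1 : -1 - (1 / 4 - ε) ≤ -E) {κ : Type} [Fintype κ] [Nonempty κ] (Cf : κ → ℝ) (Kf : κ → ℕ) (hCf : ∀ I, 0 < Cf I)
    (B S0 : ℝ) (hB : 0 < B) (hS0pos : 0 ≤ S0) :
    ∃ C : ℝ, 0 < C ∧ ∀ (N : ℕ) (a : ℝ), 2 ≤ N → a ≤ N →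
      (∀ V τ : ℝ, 65536 ≤ N → 1 ≤ V → 1 ≤ τ → (∀ I, V ^ Kf I ≤ τ) → (∀ I, τ ^ Kf I ≤ N) → τ ^ 2 ≤ N →
        a ≤ S0 * (N * (1 + Real.log τ) * Real.log N ^ (-H : ℝ)) + B * N * Real.log N ^ (-T : ℝ) +
          ∑ I, Cf I * N * ((1 + Real.log N) ^ Kf I * V ^ (-(1 / 16) : ℝ) + B * Real.log N ^ (-T : ℝ)) *
            (1 + Real.log τ) ^ Kf I) →
      a ≤ C * N * Real.log N ^ (-E : ℝ) := by
  obtain ⟨K, hK4, hKf⟩ : ∃ K : ℕ, 4 ≤ K ∧ ∀ I, Kf I ≤ K :=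
    ⟨(∑ I, Kf I) + 4, Nat.le_add_left _ _, fun I =>
      (Finset.single_le_sum (f := Kf) (fun _ _ => Nat.zero_le _) (Finset.mem_univ I)).trans (Nat.le_add_right _ _)⟩
  obtain ⟨C0, hC0⟩ : ∃ C0 : ℝ, C0 = ∑ I, Cf I := ⟨_, rfl⟩
  have hC0pos : 0 < C0 := by
    rw [hC0]
    exact Finset.sum_pos (fun I _ => hCf I) Finset.univ_nonempty
  obtain ⟨C1, N0, hC1, hch⟩ := QT.chooseV (1 / 4 - ε) (by linarith) (K + 1)
  obtain ⟨N1, hN1⟩ : ∃ N1 : ℕ, N1 = N0 + 65536 := ⟨_, rfl⟩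
  have hlogN1 : 0 < Real.log N1 := by
    apply Real.log_pos
    have : 1 < N1 := by omega
    exact_mod_cast this
  obtain ⟨c, hc⟩ : ∃ c : ℝ, c = Real.log N1 ^ (-E : ℝ) := ⟨_, rfl⟩
  have hcpos : 0 < c := by rw [hc]; exact Real.rpow_pos_of_pos hlogN1 _
  refine ⟨S0 * C1 + B + C0 * (C1 * (1 + B)) + N1 / c, by positivity, ?_⟩
  intro N a hN2 haN hmain
  have hNr : (1 : ℝ) < N := by
    have : 1 < N := by omega
    exact_mod_cast this
  have hlogN : 0 < Real.log N := Real.log_pos hNr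
  have hq8 : 0 < Real.log N ^ (-E : ℝ) := Real.rpow_pos_of_pos hlogN _
  by_cases hNN : N < N1
  · -- small `N`
    have hcard : a ≤ N1 := haN.trans (by exact_mod_cast hNN.le)
    have hmono : c ≤ Real.log N ^ (-E : ℝ) := by
      rw [hc]
      apply Real.rpow_le_rpow_of_nonpos hlogN _ (by linarith)
      apply Real.log_le_log (by linarith)
      exact_mod_cast hNN.le
    have h1 : (N1 : ℝ) ≤ N1 / c * N * Real.log N ^ (-E : ℝ) := by
      have e1 : (N1 : ℝ) = N1 / c * 1 * c := by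
        field_simp
      calc (N1 : ℝ) = N1 / c * 1 * c := e1
        _ ≤ N1 / c * N * Real.log N ^ (-E : ℝ) := by
          apply mul_le_mul _ hmono hcpos.le (by positivity)
          apply mul_le_mul_of_nonneg_left hNr.le (by positivity)
    have h2 : 0 ≤ (S0 * C1 + B + C0 * (C1 * (1 + B))) * N * Real.log N ^ (-E : ℝ) := by positivity
    have e3 : (S0 * C1 + B + C0 * (C1 * (1 + B)) + N1 / c) * N * Real.log N ^ (-E : ℝ) =
        (S0 * C1 + B + C0 * (C1 * (1 + B))) * N * Real.log N ^ (-E : ℝ) +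
          N1 / c * N * Real.log N ^ (-E : ℝ) := by
      ring
    rw [e3]
    linarith
  · push Not at hNN
    have hN65 : 65536 ≤ N := by omega
    have hNr' : (65536 : ℝ) ≤ N := by exact_mod_cast hN65
    have hlog1 : 1 ≤ Real.log N := by
      have h1 : Real.log 65536 ≤ Real.log N := Real.log_le_log (by norm_num) hNr'
      have h2 : Real.log 65536 = 16 * Real.log 2 := by
        rw [show (65536 : ℝ) = 2 ^ 16 by norm_num, Real.log_pow]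
        norm_num
      have h3 := Real.log_two_gt_d9
      linarith
    obtain ⟨V, hV, hVN, hb1, hb2⟩ := hch N (by omega)
    obtain ⟨τ, hτ⟩ : ∃ τ : ℝ, τ = V ^ (K + 1) := ⟨_, rfl⟩
    rw [← hτ] at hVN hb1 hb2
    have hτ1 : 1 ≤ τ := by rw [hτ]; exact one_le_pow₀ hV
    have hlogτ : 0 ≤ Real.log τ := Real.log_nonneg hτ1
    obtain ⟨L, hL⟩ : ∃ L : ℝ, L = Real.log N := ⟨_, rfl⟩
    rw [← hL] at hlogN hlog1 hb1 hb2 hq8
    -- comparison of powers of `L`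
    have hmonoL : ∀ a : ℝ, a ≤ -E → L ^ a ≤ L ^ (-E : ℝ) := fun a ha =>
      Real.rpow_le_rpow_of_exponent_le hlog1 ha
    have hP1 : (1 + Real.log τ) ^ (K + 1) ≤ C1 * L ^ (ε : ℝ) := by
      have h1 : L ^ (1 / 4 : ℝ) * (L ^ (-(1 / 4) : ℝ) * (1 + Real.log τ) ^ (K + 1)) ≤
          L ^ (1 / 4 : ℝ) * (C1 * L ^ (-(1 / 4 - ε) : ℝ)) :=
        mul_le_mul_of_nonneg_left hb2 (Real.rpow_nonneg hlogN.le _)
      have h2 : L ^ (1 / 4 : ℝ) * L ^ (-(1 / 4) : ℝ) = 1 := by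
        rw [← Real.rpow_add hlogN]
        norm_num
      have h3 : L ^ (1 / 4 : ℝ) * L ^ (-(1 / 4 - ε) : ℝ) = L ^ (ε : ℝ) := by
        rw [← Real.rpow_add hlogN]
        congr 1
        ring
      calc (1 + Real.log τ) ^ (K + 1) = L ^ (1 / 4 : ℝ) * L ^ (-(1 / 4) : ℝ) * (1 + Real.log τ) ^ (K + 1) := by
            rw [h2, one_mul]
        _ = L ^ (1 / 4 : ℝ) * (L ^ (-(1 / 4) : ℝ) * (1 + Real.log τ) ^ (K + 1)) := by ring
        _ ≤ _ := h1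
        _ = C1 * (L ^ (1 / 4 : ℝ) * L ^ (-(1 / 4 - ε) : ℝ)) := by ring
        _ = C1 * L ^ (ε : ℝ) := by rw [h3]
    have hPK : (1 + Real.log τ) ^ K ≤ C1 * L ^ (ε : ℝ) :=
      (pow_le_pow_right₀ (by linarith) (Nat.le_succ K)).trans hP1
    have hVp : 0 ≤ V ^ (-(1 / 16) : ℝ) := Real.rpow_nonneg (by linarith) _
    have hQ : (1 + L) ^ K * V ^ (-(1 / 16) : ℝ) * (1 + Real.log τ) ^ K ≤ C1 * L ^ (-E : ℝ) := by
      have h1 : (1 + L) * ((1 + L) ^ K * V ^ (-(1 / 16) : ℝ) * (1 + Real.log τ) ^ K) ≤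
          C1 * L ^ (-(1 / 4 - ε) : ℝ) := by
        calc (1 + L) * ((1 + L) ^ K * V ^ (-(1 / 16) : ℝ) * (1 + Real.log τ) ^ K) =
            (1 + L) ^ (K + 1) * V ^ (-(1 / 16) : ℝ) * (1 + Real.log τ) ^ K := by ring
          _ ≤ (1 + L) ^ (K + 1) * V ^ (-(1 / 16) : ℝ) * (1 + Real.log τ) ^ (K + 1) :=
              mul_le_mul_of_nonneg_left (pow_le_pow_right₀ (by linarith) (Nat.le_succ K)) (by positivity)
          _ ≤ _ := hb1
      have h0 : 0 ≤ (1 + L) ^ K * V ^ (-(1 / 16) : ℝ) * (1 + Real.log τ) ^ K := by positivity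
      have h2 : L * ((1 + L) ^ K * V ^ (-(1 / 16) : ℝ) * (1 + Real.log τ) ^ K) ≤
          C1 * L ^ (-(1 / 4 - ε) : ℝ) :=
        (mul_le_mul_of_nonneg_right (by linarith) h0).trans h1
      have h3 : (1 + L) ^ K * V ^ (-(1 / 16) : ℝ) * (1 + Real.log τ) ^ K ≤
          L ^ (-1 : ℝ) * (C1 * L ^ (-(1 / 4 - ε) : ℝ)) := by
        calc (1 + L) ^ K * V ^ (-(1 / 16) : ℝ) * (1 + Real.log τ) ^ K =
            L ^ (-1 : ℝ) * (L * ((1 + L) ^ K * V ^ (-(1 / 16) : ℝ) * (1 + Real.log τ) ^ K)) := by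
              rw [Real.rpow_neg_one]
              field_simp
          _ ≤ _ := mul_le_mul_of_nonneg_left h2 (Real.rpow_nonneg hlogN.le _)
      calc (1 + L) ^ K * V ^ (-(1 / 16) : ℝ) * (1 + Real.log τ) ^ K ≤
          L ^ (-1 : ℝ) * (C1 * L ^ (-(1 / 4 - ε) : ℝ)) := h3
        _ = C1 * (L ^ (-1 : ℝ) * L ^ (-(1 / 4 - ε) : ℝ)) := by ring
        _ = C1 * L ^ (-1 + -(1 / 4 - ε) : ℝ) := by rw [← Real.rpow_add hlogN]
        _ ≤ C1 * L ^ (-E : ℝ) := mul_le_mul_of_nonneg_left (hmonoL _ (by linarith)) hC1.le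
    have hm := hmain V τ hN65 hV hτ1 (fun I => by rw [hτ]; exact pow_le_pow_right₀ hV ((hKf I).trans (Nat.le_succ K)))
      (fun I => (pow_le_pow_right₀ hτ1 ((hKf I).trans (Nat.le_succ K))).trans hVN)
      ((pow_le_pow_right₀ hτ1 (by omega)).trans hVN)
    rw [← hL] at hm ⊢
    -- first part
    have hp1 : S0 * (N * (1 + Real.log τ) * L ^ (-H : ℝ)) ≤ S0 * C1 * N * L ^ (-E : ℝ) := by
      have h2 : 1 + Real.log τ ≤ (1 + Real.log τ) ^ K := by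
        calc 1 + Real.log τ = (1 + Real.log τ) ^ 1 := (pow_one _).symm
          _ ≤ (1 + Real.log τ) ^ K := pow_le_pow_right₀ (by linarith) (by omega)
      have h3 : (1 + Real.log τ) * L ^ (-H : ℝ) ≤ C1 * L ^ (-E : ℝ) := by
        calc (1 + Real.log τ) * L ^ (-H : ℝ) ≤ (C1 * L ^ (ε : ℝ)) * L ^ (-H : ℝ) :=
              mul_le_mul_of_nonneg_right (h2.trans hPK) (Real.rpow_nonneg hlogN.le _)
          _ = C1 * L ^ (ε + -H : ℝ) := by rw [mul_assoc, ← Real.rpow_add hlogN]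
          _ ≤ C1 * L ^ (-E : ℝ) := mul_le_mul_of_nonneg_left (hmonoL _ (by linarith)) hC1.le
      calc S0 * (N * (1 + Real.log τ) * L ^ (-H : ℝ)) =
          S0 * N * ((1 + Real.log τ) * L ^ (-H : ℝ)) := by ring
        _ ≤ S0 * N * (C1 * L ^ (-E : ℝ)) := mul_le_mul_of_nonneg_left h3 (by positivity)
        _ = _ := by ring
    -- second part
    have hp2 : B * N * L ^ (-T : ℝ) ≤ B * N * L ^ (-E : ℝ) := by
      apply mul_le_mul_of_nonneg_left (hmonoL _ (by linarith))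
      positivity
    -- third part
    have hp3 : (∑ I, Cf I * N * ((1 + L) ^ Kf I * V ^ (-(1 / 16) : ℝ) + B * L ^ (-T : ℝ)) *
            (1 + Real.log τ) ^ Kf I) ≤ C0 * (C1 * (1 + B)) * N * L ^ (-E : ℝ) := by
      have hterm : ∀ I, Cf I * N * ((1 + L) ^ Kf I * V ^ (-(1 / 16) : ℝ) + B * L ^ (-T : ℝ)) *
            (1 + Real.log τ) ^ Kf I ≤ Cf I * ((C1 * (1 + B)) * N * L ^ (-E : ℝ)) := by
        intro I
        have hCI := hCf I
        have a1 : (1 + L) ^ Kf I ≤ (1 + L) ^ K := pow_le_pow_right₀ (by linarith) (hKf I)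
        have a2 : (1 + Real.log τ) ^ Kf I ≤ (1 + Real.log τ) ^ K :=
          pow_le_pow_right₀ (by linarith) (hKf I)
        have a4 : 0 ≤ (1 + Real.log τ) ^ Kf I := by positivity
        have g1 : (1 + L) ^ Kf I * V ^ (-(1 / 16) : ℝ) * (1 + Real.log τ) ^ Kf I ≤
            C1 * L ^ (-E : ℝ) := by
          calc (1 + L) ^ Kf I * V ^ (-(1 / 16) : ℝ) * (1 + Real.log τ) ^ Kf I ≤
              (1 + L) ^ K * V ^ (-(1 / 16) : ℝ) * (1 + Real.log τ) ^ K :=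
                mul_le_mul (mul_le_mul_of_nonneg_right a1 hVp) a2 a4 (by positivity)
            _ ≤ _ := hQ
        have g2 : L ^ (-T : ℝ) * (1 + Real.log τ) ^ Kf I ≤ C1 * L ^ (-E : ℝ) := by
          calc L ^ (-T : ℝ) * (1 + Real.log τ) ^ Kf I ≤
              L ^ (-T : ℝ) * (C1 * L ^ (ε : ℝ)) :=
                mul_le_mul_of_nonneg_left (a2.trans hPK) (Real.rpow_nonneg hlogN.le _)
            _ = C1 * (L ^ (-T : ℝ) * L ^ (ε : ℝ)) := by ring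
            _ = C1 * L ^ (-T + ε : ℝ) := by rw [← Real.rpow_add hlogN]
            _ ≤ C1 * L ^ (-E : ℝ) := mul_le_mul_of_nonneg_left (hmonoL _ (by linarith)) hC1.le
        have e1 : Cf I * N * ((1 + L) ^ Kf I * V ^ (-(1 / 16) : ℝ) + B * L ^ (-T : ℝ)) *
            (1 + Real.log τ) ^ Kf I = Cf I * (N * ((1 + L) ^ Kf I * V ^ (-(1 / 16) : ℝ) *
              (1 + Real.log τ) ^ Kf I + B * (L ^ (-T : ℝ) * (1 + Real.log τ) ^ Kf I))) := by ring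
        have e2 : Cf I * ((C1 * (1 + B)) * N * L ^ (-E : ℝ)) =
            Cf I * (N * (C1 * L ^ (-E : ℝ) + B * (C1 * L ^ (-E : ℝ)))) := by ring
        rw [e1, e2]
        gcongr
      calc _ ≤ ∑ I, Cf I * ((C1 * (1 + B)) * N * L ^ (-E : ℝ)) :=
            Finset.sum_le_sum fun I _ => hterm I
        _ = C0 * (C1 * (1 + B)) * N * L ^ (-E : ℝ) := by
          rw [← Finset.sum_mul, ← hC0]
          ring
    have hlast : 0 ≤ N1 / c * N * L ^ (-E : ℝ) := by positivity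
    have e : (S0 * C1 + B + C0 * (C1 * (1 + B)) + N1 / c) * N * L ^ (-E : ℝ) =
            S0 * C1 * N * L ^ (-E : ℝ) + B * N * L ^ (-E : ℝ) +
            C0 * (C1 * (1 + B)) * N * L ^ (-E : ℝ) + N1 / c * N * L ^ (-E : ℝ) := by ring
    rw [e]
    linarith

theorem anaS (k : ℕ) (hk : 2 ≤ k) {κ : Type} [Fintype κ] [Nonempty κ] (Cf : κ → ℝ) (Kf : κ → ℕ) (hCf : ∀ I, 0 < Cf I)
    (B S0 : ℝ) (hB : 0 < B) (hS0pos : 0 ≤ S0) :
    ∃ C : ℝ, 0 < C ∧ ∀ (N : ℕ) (a : ℝ), 2 ≤ N → a ≤ N →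
      (∀ V τ : ℝ, 65536 ≤ N → 1 ≤ V → 1 ≤ τ → (∀ I, V ^ Kf I ≤ τ) → (∀ I, τ ^ Kf I ≤ N) → τ ^ 2 ≤ N →
        a ≤ S0 * (N * (1 + Real.log τ) * Real.log N ^ (-(2 * (1 / 2) ^ k) : ℝ)) + B * N * Real.log N ^ (-(et k)) +
          ∑ I, Cf I * N * ((1 + Real.log N) ^ Kf I * V ^ (-(1 / 16) : ℝ) + B * Real.log N ^ (-(et k))) *
            (1 + Real.log τ) ^ Kf I) →
      a ≤ C * N * Real.log N ^ (-(ee k)) := by
  have hu0 : (0 : ℝ) < (1 / 2) ^ k := by positivity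
  have hu4 : ((1 / 2) ^ k : ℝ) ≤ 1 / 4 := by
    calc ((1 / 2) ^ k : ℝ) ≤ (1 / 2) ^ 2 := pow_le_pow_of_le_one (by norm_num) (by norm_num) hk
      _ = 1 / 4 := by norm_num
  refine C1_gen (E := ee k) (T := et k) (H := 2 * (1 / 2) ^ k) (ε := (1 / 2) ^ k / 2000) (by positivity) ?_ ?_ ?_ ?_
    Cf Kf hCf B S0 hB hS0pos
  · unfold ee
    positivity
  · unfold ee
    linarith
  · unfold ee et
    linarith
  · unfold ee
    linarith

end ZS
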