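import Pool.Agent.Lib.MP_1ad228_ntTS.A3

/-! LEAF C2 (medium).  The combinatorial inequality.  Model: the private theorems `gtcount_image`, `gtcount_dvd`, `gtcount_split`, `gtcount_main` in `Pool/Agent/Lib/MP_1ad228_nt/GTCount.lean` (copy them, `Fin 3` becomes `Fin k`, `WW`, `FW` become `WS`, `FS`).

* `Si q i p` is now: `¬ p ∣ Rb q` and all `q_j`, `j ≠ i`, are inert.  If `p ∣ ∏ e_U` and `Si q i p` then `p ∣ e U` for some `U`, all `k ∈ U` have symbol `1` (`LocG`), so `U ⊆ {i}`, `U = {i}` (odd): the `Si`-part of `∏ e_U` divides `e {i}` (`gtcount_dvd`).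
* For `e` with `LocG θ q e` every prime `p ∣ ∏ e_U` divides some `e U`, `U` is odd, hence not empty, and its elements are in `Sp q p`: so `Sp q p ≠ ∅` and `one_leS` gives `1 ≤ pf FS n + pf WS n` for `n = ∏ e_U`. -/

set_option autoImplicit false

namespace ZS

open Finset ZG

private theorem C2_image {α : Type} [DecidableEq α] (T : Finset α) (f : α → ℕ) (w : ℕ → ℝ)
    (hw : ∀ a ∈ T, 0 ≤ w (f a)) : ∑ n ∈ T.image f, w n ≤ ∑ a ∈ T, w (f a) := by
  classical
  induction T using Finset.induction_on with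
  | empty => simp
  | insert a s ha ih =>
    rw [Finset.image_insert, Finset.sum_insert ha]
    have ih' := ih fun b hb => hw b (Finset.mem_insert_of_mem hb)
    have h0 := hw a (Finset.mem_insert_self a s)
    by_cases h : f a ∈ s.image f
    · rw [Finset.insert_eq_of_mem h]
      linarith
    · rw [Finset.sum_insert h]
      linarith

private theorem C2_nonempty {k : ℕ} (U : OddSet (Fin k)) : U.1.Nonempty := by
  rw [Finset.nonempty_iff_ne_empty]
  intro h
  have := U.2
  rw [h] at this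
  simp at this

open Classical in
/-- the `Si`-part of `∏ e_U` divides `e {i}` -/
private theorem C2_dvd {k : ℕ} (q : Fin k → BQ) (θ : ℕ → OddSet (Fin k) → Fin k → ℤ) (e : OddSet (Fin k) → ℕ)
    (hloc : LocG θ q e) (i : Fin k) :
    (∏ p ∈ (∏ U, e U).primeFactors with Si q i p, p) ∣ e (sg i) := by
  apply Finset.prod_primes_dvd
  · intro p hp
    exact (Nat.prime_of_mem_primeFactors (Finset.mem_filter.1 hp).1).prime
  · intro p hp
    obtain ⟨hp1, hp2⟩ := Finset.mem_filter.1 hp
    have hpp : p.Prime := Nat.prime_of_mem_primeFactors hp1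
    have hpd : p ∣ ∏ U, e U := Nat.dvd_of_mem_primeFactors hp1
    obtain ⟨U, _, hU⟩ := (hpp.prime.dvd_finsetProd_iff _).1 hpd
    obtain ⟨-, -, h3, -⟩ := hloc U p hpp hU
    have hsub : U.1 ⊆ {i} := by
      intro j hj
      rw [Finset.mem_singleton]
      by_contra hji
      have h4 := h3 j hj
      rw [hp2.2 j hji] at h4
      norm_num at h4
    have hU1 : U.1 = {i} := (Finset.subset_singleton_iff.1 hsub).resolve_left (C2_nonempty U).ne_empty
    have hU2 : U = sg i := Subtype.ext hU1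
    rw [← hU2]
    exact hU

open Classical in
/-- splitting of the sum over the typical vectors -/
private theorem C2_split {k : ℕ} (q : Fin k → BQ) (θ : ℕ → OddSet (Fin k) → Fin k → ℤ) (N : ℕ) (τ : ℝ)
    (w : (OddSet (Fin k) → ℕ) → ℝ) (hw : ∀ e, 0 ≤ w e) :
    ∑ e ∈ (QT.Box (OddSet (Fin k)) N).filter (fun e => LocG θ q e ∧ ∀ i, τ < e (sg i)), w e ≤
      ∑ I : Finset (OddSet (Fin k)), if (∀ i, sg i ∈ I) then
        ∑ e ∈ (QT.Box (OddSet (Fin k)) N).filter (fun e => (∀ U, τ < e U ↔ U ∈ I) ∧ LocG θ q e), w e else 0 := by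
  rw [← Finset.sum_fiberwise _ (fun e : OddSet (Fin k) → ℕ => Finset.univ.filter fun U => τ < (e U : ℝ)) w]
  apply Finset.sum_le_sum
  intro I _
  split_ifs with hI
  · apply Finset.sum_le_sum_of_subset_of_nonneg
    · intro e he
      rw [Finset.mem_filter, Finset.mem_filter] at he
      obtain ⟨⟨h1, h2, h3⟩, h4⟩ := he
      rw [Finset.mem_filter]
      refine ⟨h1, fun U => ?_, h2⟩
      rw [← h4, Finset.mem_filter]
      exact ⟨fun h => ⟨Finset.mem_univ _, h⟩, fun h => h.2⟩
    · intro e _ _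
      exact hw e
  · apply le_of_eq
    apply Finset.sum_eq_zero
    intro e he
    exfalso
    rw [Finset.mem_filter, Finset.mem_filter] at he
    obtain ⟨⟨h1, h2, h3⟩, h4⟩ := he
    apply hI
    intro i
    rw [← h4, Finset.mem_filter]
    exact ⟨Finset.mem_univ _, h3 i⟩

open Classical in
theorem comb_main {k : ℕ} {q : Fin k → BQ} (hq : Gen q) (θ : ℕ → OddSet (Fin k) → Fin k → ℤ) (N : ℕ) (τ : ℝ) :
    ((((QT.Box (OddSet (Fin k)) N).filter fun e => LocG θ q e).image fun e => ∏ U, e U).card : ℝ) ≤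
      (∑ i : Fin k, (((Icc 1 N).filter fun n => Squarefree n ∧
        ((∏ p ∈ n.primeFactors with Si q i p, p : ℕ) : ℝ) ≤ τ).card : ℝ)) +
      (∑ n ∈ (Icc 1 ⌊(N : ℝ)⌋₊).filter Squarefree, QT.pf (FS q) n) +
      ∑ I : Finset (OddSet (Fin k)), if (∀ i, sg i ∈ I) then
        ∑ e ∈ (QT.Box (OddSet (Fin k)) N).filter (fun e => (∀ U, τ < e U ↔ U ∈ I) ∧ LocG θ q e),
          QT.pf (WS q) (∏ U, e U) else 0 := by
  have hWp : ∀ p, 0 ≤ WS q p := fun p => (ws_facts hq p).1.le
  have hFp : ∀ p, 0 ≤ FS q p := fun p => (ws_facts hq p).2.2.1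
  have hW : ∀ n, 0 ≤ QT.pf (WS q) n := fun n => Finset.prod_nonneg fun p _ => hWp p
  have hF : ∀ n, 0 ≤ QT.pf (FS q) n := fun n => Finset.prod_nonneg fun p _ => hFp p
  set At : Fin k → Finset ℕ := fun i => (Icc 1 N).filter fun n => Squarefree n ∧
        ((∏ p ∈ n.primeFactors with Si q i p, p : ℕ) : ℝ) ≤ τ with hAt
  set T' := (QT.Box (OddSet (Fin k)) N).filter (fun e => LocG θ q e ∧ ∀ i, τ < e (sg i)) with hT'
  have hsub : (((QT.Box (OddSet (Fin k)) N).filter fun e => LocG θ q e).image fun e => ∏ U, e U) ⊆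
      (Finset.univ.biUnion At) ∪ T'.image fun e => ∏ U, e U := by
    intro n hn
    obtain ⟨e, he, rfl⟩ := Finset.mem_image.1 hn
    obtain ⟨hbox, hloc⟩ := Finset.mem_filter.1 he
    obtain ⟨h6, h7, h8⟩ := Finset.mem_filter.1 hbox
    by_cases hty : ∀ i, τ < ((∏ p ∈ (∏ U, e U).primeFactors with Si q i p, p : ℕ) : ℝ)
    · apply Finset.mem_union_right
      refine Finset.mem_image.2 ⟨e, Finset.mem_filter.2 ⟨hbox, hloc, fun i => ?_⟩, rfl⟩
      refine (hty i).trans_le ?_
      have hpos : 0 < e (sg i) := by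
        rw [Nat.pos_iff_ne_zero]
        intro h0
        exact h8.ne_zero (Finset.prod_eq_zero (Finset.mem_univ (sg i)) h0)
      exact_mod_cast Nat.le_of_dvd hpos (C2_dvd q θ e hloc i)
    · push Not at hty
      obtain ⟨i, hi⟩ := hty
      apply Finset.mem_union_left
      rw [Finset.mem_biUnion]
      refine ⟨i, Finset.mem_univ _, ?_⟩
      rw [hAt]
      simp only [Finset.mem_filter, Finset.mem_Icc]
      exact ⟨⟨Nat.pos_of_ne_zero h8.ne_zero, h7⟩, h8, hi⟩
  have h1 : ((((QT.Box (OddSet (Fin k)) N).filter fun e => LocG θ q e).image fun e => ∏ U, e U).card : ℝ) ≤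
      (∑ i : Fin k, ((At i).card : ℝ)) + ((T'.image fun e => ∏ U, e U).card : ℝ) := by
    have h2 := (Finset.card_le_card hsub).trans (Finset.card_union_le _ _)
    have h3 : (Finset.univ.biUnion At).card ≤ ∑ i : Fin k, (At i).card := Finset.card_biUnion_le
    have h4 := h2.trans (Nat.add_le_add_right h3 _)
    exact_mod_cast h4
  have hmem : ∀ e ∈ T', ∏ U, e U ∈ (Icc 1 ⌊(N : ℝ)⌋₊).filter Squarefree := by
    intro e he
    obtain ⟨hbox, -⟩ := Finset.mem_filter.1 he
    obtain ⟨h6, h7, h8⟩ := Finset.mem_filter.1 hbox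
    rw [Finset.mem_filter, Finset.mem_Icc, Nat.floor_natCast]
    exact ⟨⟨Nat.pos_of_ne_zero h8.ne_zero, h7⟩, h8⟩
  have h5 : ((T'.image fun e => ∏ U, e U).card : ℝ) ≤
      (∑ n ∈ (Icc 1 ⌊(N : ℝ)⌋₊).filter Squarefree, QT.pf (FS q) n) + ∑ e ∈ T', QT.pf (WS q) (∏ U, e U) := by
    calc ((T'.image fun e => ∏ U, e U).card : ℝ) = ∑ n ∈ (T'.image fun e => ∏ U, e U), (1 : ℝ) := by
          rw [Finset.sum_const, nsmul_eq_mul, mul_one]
      _ ≤ ∑ n ∈ (T'.image fun e => ∏ U, e U), (QT.pf (FS q) n + QT.pf (WS q) n) :=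
          Finset.sum_le_sum fun n hn => by
            obtain ⟨e, he, rfl⟩ := Finset.mem_image.1 hn
            obtain ⟨-, hloc, -⟩ := Finset.mem_filter.1 he
            refine one_leS hq _ fun p hp => ?_
            have hpp : p.Prime := Nat.prime_of_mem_primeFactors hp
            obtain ⟨U, _, hU⟩ := (hpp.prime.dvd_finsetProd_iff _).1 (Nat.dvd_of_mem_primeFactors hp)
            obtain ⟨-, -, h3, -⟩ := hloc U p hpp hU
            obtain ⟨j, hj⟩ := C2_nonempty U
            rw [← Finset.nonempty_iff_ne_empty]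
            exact ⟨j, Finset.mem_filter.2 ⟨Finset.mem_univ _, h3 j hj⟩⟩
      _ = (∑ n ∈ (T'.image fun e => ∏ U, e U), QT.pf (FS q) n) +
          ∑ n ∈ (T'.image fun e => ∏ U, e U), QT.pf (WS q) n := Finset.sum_add_distrib
      _ ≤ _ := by
          apply add_le_add
          · apply Finset.sum_le_sum_of_subset_of_nonneg
            · intro n hn
              obtain ⟨e, he, rfl⟩ := Finset.mem_image.1 hn
              exact hmem e he
            · intro n _ _
              exact hF n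
          · exact C2_image T' (fun e => ∏ U, e U) (fun n => QT.pf (WS q) n) fun e _ => hW _
  have h6 := C2_split q θ N τ (fun e => QT.pf (WS q) (∏ U, e U)) fun e => hW _
  linarith

end ZS
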