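import Pool.Agent.Lib.MP_10e784_ag.QExpand1

/-! The file GTHarm with `M` in place of `8`. -/

set_option autoImplicit false

namespace ZS

open Finset

private theorem tsHarm_box (L : Type) [Fintype L] [DecidableEq L] (V : ℝ) (hV : 1 ≤ V) :
    ∑ b ∈ (Fintype.piFinset fun _ : L => Icc 1 ⌊V⌋₊), (∏ ℓ, (b ℓ : ℝ))⁻¹ ≤
      (1 + Real.log V) ^ (Fintype.card L) := by
  have h1 : ∑ b ∈ (Fintype.piFinset fun _ : L => Icc 1 ⌊V⌋₊), (∏ ℓ, (b ℓ : ℝ))⁻¹ =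
      ∏ _ℓ : L, ∑ j ∈ Icc 1 ⌊V⌋₊, ((j : ℝ))⁻¹ := by
    rw [prod_univ_sum]
    apply sum_congr rfl
    intro b _
    rw [prod_inv_distrib]
  rw [h1, prod_const, card_univ]
  apply pow_le_pow_left₀ (sum_nonneg fun i _ => by positivity)
  have h2 := harmonic_floor_le_one_add_log V hV
  rw [harmonic_eq_sum_Icc] at h2
  push_cast at h2
  exact h2

theorem harmM (M : ℕ) (τ : ℝ) (hτ : 1 ≤ τ) :
    ∑ n ∈ (Icc 1 ⌊τ⌋₊).filter Squarefree, QT.pf (fun _ => (M : ℝ)) n / n ≤ (1 + Real.log τ) ^ M := by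
  classical
  have h0 := tsHarm_box (Fin M) τ hτ
  rw [Fintype.card_fin] at h0
  refine le_trans ?_ h0
  set S := (Icc 1 ⌊τ⌋₊).filter Squarefree with hS
  set P := (Fintype.piFinset fun _ : Fin M => Icc 1 ⌊τ⌋₊) with hP
  have h1 : ∀ n ∈ S, QT.pf (fun _ => (M : ℝ)) n / n =
      ∑ d ∈ P with (∏ ℓ, d ℓ = n), (∏ ℓ, (d ℓ : ℝ))⁻¹ := by
    intro n hn
    rw [hS, mem_filter, mem_Icc] at hn
    have h2 := QT.prod_sum_eq (L := Fin M) (fun _ _ => 1) n ⌊τ⌋₊ hn.2 hn.1.2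
    have h3 : QT.pf (fun _ => (M : ℝ)) n = ∏ p ∈ n.primeFactors, ∑ _ℓ : Fin M, (1 : ℝ) := by
      unfold QT.pf
      apply Finset.prod_congr rfl
      intro p _
      simp
    rw [h3, h2, Finset.sum_div]
    apply Finset.sum_congr rfl
    intro d hd
    rw [mem_filter] at hd
    have h4 : ∏ ℓ : Fin M, QT.pf (fun _ => (1 : ℝ)) (d ℓ) = 1 := by
      apply Finset.prod_eq_one
      intro ℓ _
      unfold QT.pf
      simp
    rw [h4, one_div]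
    congr 1
    rw [← hd.2]
    push_cast
    rfl
  rw [Finset.sum_congr rfl h1]
  have hmaps : ∀ d ∈ P.filter (fun d => ∏ ℓ, d ℓ ∈ S), ∏ ℓ, d ℓ ∈ S := by
    intro d hd
    exact (mem_filter.1 hd).2
  have h5 := Finset.sum_fiberwise_of_maps_to hmaps (fun d : Fin M → ℕ => (∏ ℓ, (d ℓ : ℝ))⁻¹)
  have h6 : ∑ n ∈ S, ∑ d ∈ P with (∏ ℓ, d ℓ = n), (∏ ℓ, (d ℓ : ℝ))⁻¹ =
      ∑ n ∈ S, ∑ d ∈ (P.filter (fun d => ∏ ℓ, d ℓ ∈ S)) with (∏ ℓ, d ℓ = n), (∏ ℓ, (d ℓ : ℝ))⁻¹ := by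
    apply Finset.sum_congr rfl
    intro n hn
    apply Finset.sum_congr _ fun _ _ => rfl
    ext d
    simp only [mem_filter]
    constructor
    · rintro ⟨h7, h8⟩
      exact ⟨⟨h7, by rw [h8]; exact hn⟩, h8⟩
    · rintro ⟨⟨h7, _⟩, h8⟩
      exact ⟨h7, h8⟩
  rw [h6, h5]
  apply Finset.sum_le_sum_of_subset_of_nonneg (Finset.filter_subset _ _)
  intro d _ _
  positivity

theorem sum_pf_invM {κ : Type} [Fintype κ] [DecidableEq κ] (M : ℕ) (τ : ℝ) (hτ : 1 ≤ τ) :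
    ∑ f ∈ Fintype.piFinset (fun _ : κ => (Icc 1 ⌊τ⌋₊).filter Squarefree), ∏ i, (QT.pf (fun _ => (M : ℝ)) (f i) / (f i : ℝ)) ≤
      (1 + Real.log τ) ^ (M * Fintype.card κ) := by
  have h1 := Finset.prod_univ_sum (fun _ : κ => (Icc 1 ⌊τ⌋₊).filter Squarefree)
    (fun _ n => QT.pf (fun _ => (M : ℝ)) n / (n : ℝ))
  rw [← h1, prod_const, card_univ, pow_mul]
  apply pow_le_pow_left₀ _ (harmM M τ hτ)
  apply Finset.sum_nonneg
  intro n _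
  apply div_nonneg _ (Nat.cast_nonneg n)
  unfold QT.pf
  exact Finset.prod_nonneg fun p _ => Nat.cast_nonneg M

end ZS
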