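import Pool.Agent.Lib.MP_1ad228_ntTS.Inner
import Pool.Agent.Lib.MP_1ad228_ntTS.Harm

/-! The file GTCase with the structure `WtM` in place of `Wt` (the bound `M` in place of `8`). -/

set_option autoImplicit false

namespace ZS

open Finset ZG

/-- facts about the reduced box size -/
private theorem tscase_X_facts (n K K₀ : ℕ) (N P : ℕ) (V τ : ℝ) (hN : 65536 ≤ N) (hV : 1 ≤ V)
    (hVτ : V ^ K ≤ τ) (hτN : τ ^ K ≤ N) (hKn : 2 * n ≤ K) (hK4 : 4 ≤ K) (hKK : K₀ ≤ K)
    (hP0 : 0 < P) (hP : (P : ℝ) ≤ τ ^ n) :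
    16 ≤ N / P ∧ V ^ K₀ ≤ τ ∧ V ^ K₀ ≤ ((N / P : ℕ) : ℝ) ∧
      Real.log N / 4 ≤ Real.log ((N / P : ℕ) : ℝ) := by
  have hτ1 : 1 ≤ τ := (one_le_pow₀ hV).trans hVτ
  have hN' : (65536 : ℝ) ≤ N := by exact_mod_cast hN
  have hN0 : (0 : ℝ) ≤ N := Nat.cast_nonneg _
  set s : ℝ := Real.sqrt N with hs
  set q : ℝ := Real.sqrt s with hq
  have hs0 : 0 ≤ s := Real.sqrt_nonneg _
  have hss : s ^ 2 = N := Real.sq_sqrt hN0
  have hqq : q ^ 2 = s := Real.sq_sqrt hs0
  have hq0 : 0 ≤ q := Real.sqrt_nonneg _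
  have hq4 : q ^ 4 = N := by rw [← hss, ← hqq]; ring
  have hq16 : 16 ≤ q := by
    by_contra h
    push Not at h
    have h1 : q ^ 4 < 16 ^ 4 := pow_lt_pow_left₀ h hq0 (by norm_num)
    rw [hq4] at h1
    norm_num at h1
    linarith
  have hPs : (P : ℝ) ≤ q ^ 2 := by
    refine hP.trans ?_
    by_contra h
    push Not at h
    have h1 : (q ^ 2) ^ 2 < (τ ^ n) ^ 2 := pow_lt_pow_left₀ h (by positivity) (by norm_num)
    have h2 : (τ ^ n) ^ 2 ≤ τ ^ K := by
      rw [← pow_mul]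
      exact pow_le_pow_right₀ hτ1 (by omega)
    have h3 : (q ^ 2) ^ 2 = N := by rw [← hq4]; ring
    rw [h3] at h1
    linarith
  have hτq : τ ≤ q := by
    by_contra h
    push Not at h
    have h1 : q ^ 4 < τ ^ 4 := pow_lt_pow_left₀ h hq0 (by norm_num)
    have h2 : τ ^ 4 ≤ τ ^ K := pow_le_pow_right₀ hτ1 hK4
    rw [hq4] at h1
    linarith
  have hlt : (N : ℝ) < (((N / P : ℕ) : ℝ) + 1) * P := by
    have h1 : N < (N / P + 1) * P := by
      rw [add_mul, one_mul]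
      exact Nat.lt_div_mul_add hP0
    exact_mod_cast h1
  have hXq : q ^ 2 < ((N / P : ℕ) : ℝ) + 1 := by
    by_contra h
    push Not at h
    have h1 : (((N / P : ℕ) : ℝ) + 1) * P ≤ q ^ 2 * q ^ 2 := by
      have hP0' : (0 : ℝ) ≤ P := Nat.cast_nonneg _
      have : (0 : ℝ) ≤ ((N / P : ℕ) : ℝ) + 1 := by positivity
      gcongr
    have h2 : q ^ 2 * q ^ 2 = N := by rw [← hq4]; ring
    linarith
  have hXq' : q ≤ ((N / P : ℕ) : ℝ) := by nlinarith
  have hVK : V ^ K₀ ≤ τ := (pow_le_pow_right₀ hV hKK).trans hVτ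
  refine ⟨?_, hVK, hVK.trans (hτq.trans hXq'), ?_⟩
  · have : (16 : ℝ) ≤ ((N / P : ℕ) : ℝ) := hq16.trans hXq'
    exact_mod_cast this
  · have h1 : Real.log N = 4 * Real.log q := by
      rw [← hq4, Real.log_pow]
      norm_num
    rw [h1]
    have h2 : Real.log q ≤ Real.log ((N / P : ℕ) : ℝ) := Real.log_le_log (by linarith) hXq'
    linarith

private theorem tscase_rpow (a b η : ℝ) (ha : 0 < a) (hab : a / 4 ≤ b) (h0 : 0 ≤ η) (h1 : η ≤ 1) :
    b ^ (-η) ≤ 4 * a ^ (-η) := by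
  have hb : 0 < b := by linarith
  have h2 : b ^ (-η) ≤ (a / 4) ^ (-η) :=
    Real.rpow_le_rpow_of_nonpos (by linarith) hab (by linarith)
  refine h2.trans ?_
  rw [Real.div_rpow ha.le (by norm_num), div_eq_mul_inv, mul_comm]
  refine mul_le_mul_of_nonneg_right ?_ (Real.rpow_nonneg ha.le _)
  rw [← Real.rpow_neg (by norm_num), neg_neg]
  calc (4 : ℝ) ^ η ≤ (4 : ℝ) ^ (1 : ℝ) := Real.rpow_le_rpow_of_exponent_le (by norm_num) h1
    _ = 4 := Real.rpow_one _

private theorem tscase_pf_nonneg (W : ℕ → ℝ) (hW : ∀ p, 0 ≤ W p) (n : ℕ) : 0 ≤ QT.pf W n :=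
  Finset.prod_nonneg fun p _ => hW p

private theorem tscase_pf_mul (W : ℕ → ℝ) (a b : ℕ) (h : Squarefree (a * b)) :
    QT.pf W (a * b) = QT.pf W a * QT.pf W b := by
  have hc : Nat.Coprime a b := Nat.coprime_of_squarefree_mul h
  unfold QT.pf
  rw [hc.primeFactors_mul, Finset.prod_union hc.disjoint_primeFactors]

private theorem tscase_pf8 (M : ℕ) (n : ℕ) : QT.pf (fun _ => (M : ℝ)) n = (M : ℝ) ^ n.primeFactors.card := by
  unfold QT.pf
  rw [Finset.prod_const]

private theorem tscase_pf8_mul (M : ℕ) (hM : 1 ≤ M) (a b : ℕ) :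
    QT.pf (fun _ => (M : ℝ)) (a * b) ≤ QT.pf (fun _ => (M : ℝ)) a * QT.pf (fun _ => (M : ℝ)) b := by
  rw [tscase_pf8, tscase_pf8, tscase_pf8, ← pow_add]
  refine pow_le_pow_right₀ (by exact_mod_cast hM) ?_
  rcases Nat.eq_zero_or_pos a with rfl | ha
  · simp
  rcases Nat.eq_zero_or_pos b with rfl | hb
  · simp
  rw [Nat.primeFactors_mul ha.ne' hb.ne']
  exact Finset.card_union_le _ _

private theorem tscase_pf8_pos (M : ℕ) (hM : 1 ≤ M) (n : ℕ) : 0 < QT.pf (fun _ => (M : ℝ)) n := by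
  rw [tscase_pf8]
  positivity

private theorem tscase_pf8_prod (M : ℕ) (hM : 1 ≤ M) {κ : Type} [DecidableEq κ] (s : Finset κ) (f : κ → ℕ) :
    QT.pf (fun _ => (M : ℝ)) (∏ i ∈ s, f i) ≤ ∏ i ∈ s, QT.pf (fun _ => (M : ℝ)) (f i) := by
  induction s using Finset.induction_on with
  | empty => simp [tscase_pf8]
  | insert b t hb ih =>
    rw [Finset.prod_insert hb, Finset.prod_insert hb]
    exact (tscase_pf8_mul M hM _ _).trans (mul_le_mul_of_nonneg_left ih (tscase_pf8_pos M hM _).le)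

private theorem tscase_pf_le (M : ℕ) (W : ℕ → ℝ) (h0 : ∀ p, 0 ≤ W p) (h8 : ∀ p, W p ≤ M) (n : ℕ) :
    QT.pf W n ≤ QT.pf (fun _ => (M : ℝ)) n :=
  Finset.prod_le_prod (fun p _ => h0 p) fun p _ => h8 p

private theorem tscase_inj_sum {α β : Type} [DecidableEq β] (s : Finset α) (t : Finset β) (φ : α → β)
    (w : β → ℝ) (hw : ∀ b, 0 ≤ w b) (h1 : ∀ a ∈ s, φ a ∈ t)
    (h2 : ∀ a ∈ s, ∀ b ∈ s, φ a = φ b → a = b) : ∑ a ∈ s, w (φ a) ≤ ∑ b ∈ t, w b := by
  rw [← Finset.sum_image (f := w) (g := φ) (s := s) (fun a ha b hb h => h2 a ha b hb h)]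
  refine Finset.sum_le_sum_of_subset_of_nonneg ?_ fun b _ _ => hw b
  intro b hb
  obtain ⟨a, ha, rfl⟩ := Finset.mem_image.1 hb
  exact h1 a ha

private theorem tscase_jac_prod {α : Type} (S : Finset α) (g : α → ℤ) (p : ℕ) :
    jacobiSym (∏ i ∈ S, g i) p = ∏ i ∈ S, jacobiSym (g i) p := by
  classical
  induction S using Finset.induction_on with
  | empty => simp [jacobiSym.one_left]
  | insert b s hb ih => rw [Finset.prod_insert hb, Finset.prod_insert hb, jacobiSym.mul_left, ih]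

open Classical in
/-- the identity of characters behind the freezing of the small coordinates -/
private theorem tscase_jac_freeze {ι : Type} [Fintype ι] [DecidableEq ι] (I : Finset (OddSet ι))
    (t : ι → ℤ) (e f e' : OddSet ι → ℕ) (S : Finset ι) (p : ℕ)
    (hf : ∀ U ∉ I, f U = e U) (he' : ∀ U ∈ I, e' U = e U)
    (hcop : ∀ U ∉ I, Int.gcd (e U : ℤ) p = 1) :
    jacobiSym ((∏ i ∈ S, (t i * ∏ U' : OddSet ι with U' ∉ I ∧ i ∈ U'.1, (f U' : ℤ))) *
      ∏ U' ∈ I with Odd (S ∩ U'.1).card, (e' U' : ℤ)) p =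
    jacobiSym ((∏ i ∈ S, t i) * ∏ U' : OddSet ι with Odd (S ∩ U'.1).card, (e U' : ℤ)) p := by
  rw [Finset.prod_mul_distrib]
  have h1 : ∏ i ∈ S, ∏ U' : OddSet ι with U' ∉ I ∧ i ∈ U'.1, (f U' : ℤ) =
      ∏ U' : OddSet ι with U' ∉ I, (e U' : ℤ) ^ (S ∩ U'.1).card := by
    have h2 : ∀ i ∈ S, ∏ U' : OddSet ι with U' ∉ I ∧ i ∈ U'.1, (f U' : ℤ) =
        ∏ U' : OddSet ι with U' ∉ I, if i ∈ U'.1 then (e U' : ℤ) else 1 := by
      intro i _
      rw [← Finset.filter_filter, Finset.prod_filter]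
      refine Finset.prod_congr rfl fun U hU => ?_
      rw [hf U (Finset.mem_filter.1 hU).2]
    rw [Finset.prod_congr rfl h2, Finset.prod_comm]
    refine Finset.prod_congr rfl fun U _ => ?_
    rw [← Finset.prod_filter, Finset.prod_const]
    congr 2
  have h3 : ∏ U' ∈ I with Odd (S ∩ U'.1).card, (e' U' : ℤ) =
      ∏ U' ∈ I with Odd (S ∩ U'.1).card, (e U' : ℤ) := by
    refine Finset.prod_congr rfl fun U hU => ?_
    rw [he' U (Finset.mem_filter.1 hU).1]
  have h4 : ∏ U' : OddSet ι with Odd (S ∩ U'.1).card, (e U' : ℤ) =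
      (∏ U' ∈ I with Odd (S ∩ U'.1).card, (e U' : ℤ)) *
        ∏ U' : OddSet ι with U' ∉ I ∧ Odd (S ∩ U'.1).card, (e U' : ℤ) := by
    rw [← Finset.prod_union]
    · refine Finset.prod_congr ?_ fun _ _ => rfl
      ext U
      simp only [Finset.mem_filter, Finset.mem_union, Finset.mem_univ, true_and]
      tauto
    · rw [Finset.disjoint_left]
      intro U hU hU'
      simp only [Finset.mem_filter, Finset.mem_univ, true_and] at hU hU'
      exact hU'.1 hU.1
  rw [h1, h3, h4]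
  simp only [jacobiSym.mul_left]
  have h5 : jacobiSym (∏ U' : OddSet ι with U' ∉ I, (e U' : ℤ) ^ (S ∩ U'.1).card) p =
      jacobiSym (∏ U' : OddSet ι with U' ∉ I ∧ Odd (S ∩ U'.1).card, (e U' : ℤ)) p := by
    rw [tscase_jac_prod, tscase_jac_prod, ← Finset.filter_filter, Finset.prod_filter (s := Finset.filter _ _)]
    refine Finset.prod_congr rfl fun U hU => ?_
    have hU' : U ∉ I := (Finset.mem_filter.1 hU).2
    have hsq1 : jacobiSym (e U : ℤ) p ^ 2 = 1 := jacobiSym.sq_one (hcop U hU')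
    rw [jacobiSym.pow_left]
    split_ifs with hodd
    · obtain ⟨k, hk⟩ := hodd
      rw [hk, pow_succ, pow_mul, hsq1, one_pow, one_mul]
    · obtain ⟨k, hk⟩ := Nat.not_odd_iff_even.1 hodd
      rw [hk, ← two_mul, pow_mul, hsq1, one_pow]
  rw [h5]
  ring

open Classical in
theorem case_M {ι : Type} [Fintype ι] [DecidableEq ι] (g : ι → BQ) (I : Finset (OddSet ι))
    (hI : ∀ i : ι, (⟨{i}, by simp⟩ : OddSet ι) ∈ I) (hne : I.Nonempty) (M : ℕ) (hM : 1 ≤ M) :
    ∃ (C : ℝ) (K : ℕ), 0 < C ∧ ∀ (W F : ℕ → ℝ) (B η : ℝ), WtM g M W F B η →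
    ∀ (θ : ℕ → OddSet ι → ι → ℤ) (N : ℕ) (V τ : ℝ), 65536 ≤ N → 1 ≤ V → V ^ K ≤ τ → τ ^ K ≤ N →
    ∑ e ∈ (QT.Box (OddSet ι) N).filter (fun e => (∀ U, τ < e U ↔ U ∈ I) ∧ LocG θ g e), QT.pf W (∏ U, e U) ≤
      C * N * ((1 + Real.log N) ^ K * V ^ (-(1 / 16) : ℝ) + B * Real.log N ^ (-η)) * (1 + Real.log τ) ^ K := by
  obtain ⟨C₀, K₀, hC₀, hin⟩ := innerM g I hI hne
  set n := Fintype.card (OddSet ι) with hn
  set K : ℕ := K₀ + M * n + 2 * n + 4 with hK
  refine ⟨4 * C₀, K, by positivity, ?_⟩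
  intro W F₀ B η hWt θ N V τ hN hV hVτ hτN
  have hτ1 : 1 ≤ τ := (one_le_pow₀ hV).trans hVτ
  have hlogτ : 0 ≤ Real.log τ := Real.log_nonneg hτ1
  have hN' : (65536 : ℝ) ≤ N := by exact_mod_cast hN
  have hlogN : 0 < Real.log N := Real.log_pos (by linarith)
  have hlogV : 0 ≤ Real.log V := Real.log_nonneg hV
  have hVτ' : V ≤ τ := by
    refine le_trans ?_ hVτ
    calc V = V ^ 1 := (pow_one V).symm
      _ ≤ V ^ K := pow_le_pow_right₀ hV (by omega)
  have hlogVτ : Real.log V ≤ Real.log τ := Real.log_le_log (by linarith) hVτ'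
  have hB0 : 0 ≤ B := hWt.B0.le
  have hpf0 : ∀ m, 0 ≤ QT.pf W m := tscase_pf_nonneg W hWt.W0
  set S := (QT.Box (OddSet ι) N).filter fun e => (∀ U, τ < e U ↔ U ∈ I) ∧
    LocG θ g e with hS
  set F : Finset (OddSet ι → ℕ) :=
    Fintype.piFinset (fun _ : OddSet ι => (Icc 1 ⌊τ⌋₊).filter Squarefree) with hF
  -- the frozen part, the large part
  set fo : (OddSet ι → ℕ) → (OddSet ι → ℕ) := fun e i => if i ∈ I then 1 else e i with hfo
  set eo : (OddSet ι → ℕ) → (OddSet ι → ℕ) := fun e i => if i ∈ I then e i else 1 with heo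
  have hmul : ∀ e : OddSet ι → ℕ, ∏ i, e i = (∏ i, fo e i) * ∏ i, eo e i := by
    intro e
    rw [← Finset.prod_mul_distrib]
    refine Finset.prod_congr rfl fun i _ => ?_
    simp only [hfo, heo]
    split_ifs <;> simp
  set R : (OddSet ι → ℕ) → Finset (OddSet ι → ℕ) := fun f => S.filter fun e => fo e = f with hR
  have hSmem : ∀ e ∈ S, (∀ i, 1 ≤ e i) ∧ ∏ i, e i ≤ N ∧ Squarefree (∏ i, e i) ∧
      (∀ i, τ < e i ↔ i ∈ I) ∧ LocG θ g e := by
    intro e he
    obtain ⟨h1, h3, h4⟩ := Finset.mem_filter.1 he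
    obtain ⟨h6, h7, h8⟩ := Finset.mem_filter.1 h1
    exact ⟨fun i => (Finset.mem_Icc.1 (Fintype.mem_piFinset.1 h6 i)).1, h7, h8, h3, h4⟩
  have hfoF : ∀ e ∈ S, fo e ∈ F := by
    intro e he
    obtain ⟨h1, -, h3, h6, -⟩ := hSmem e he
    rw [hF, Fintype.mem_piFinset]
    intro i
    rw [Finset.mem_filter, Finset.mem_Icc]
    simp only [hfo]
    split_ifs with hi
    · exact ⟨⟨le_rfl, Nat.floor_pos.2 hτ1⟩, squarefree_one⟩
    · refine ⟨⟨h1 i, Nat.le_floor ?_⟩, ?_⟩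
      · by_contra h
        push Not at h
        exact hi ((h6 i).1 h)
      · exact h3.squarefree_of_dvd (Finset.dvd_prod_of_mem e (Finset.mem_univ i))
  -- covering
  have hcover : S ⊆ F.biUnion R := by
    intro e he
    rw [Finset.mem_biUnion]
    exact ⟨fo e, hfoF e he, Finset.mem_filter.2 ⟨he, rfl⟩⟩
  -- the bound for one class
  set E : ℝ := (1 + Real.log N) ^ K₀ * V ^ (-(1 / 16) : ℝ) +
    B * (4 * Real.log N ^ (-η)) * (1 + Real.log τ) ^ K₀ with hE
  have hVr : 0 ≤ V ^ (-(1 / 16) : ℝ) := Real.rpow_nonneg (by linarith) _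
  have hLr : 0 ≤ Real.log N ^ (-η) := Real.rpow_nonneg hlogN.le _
  have hE0 : 0 ≤ E := by positivity
  have hclass : ∀ f ∈ F, ∑ e ∈ R f, QT.pf W (∏ U, e U) ≤
      C₀ * N * E * ∏ i, (QT.pf (fun _ => (M : ℝ)) (f i) / (f i : ℝ)) := by
    intro f hf
    have hf1 : ∀ i, 1 ≤ f i ∧ (f i : ℝ) ≤ τ := by
      intro i
      have h1 := Finset.mem_Icc.1 (Finset.mem_filter.1 (Fintype.mem_piFinset.1 hf i)).1
      exact ⟨h1.1, (Nat.cast_le.2 h1.2).trans (Nat.floor_le (by linarith))⟩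
    set P : ℕ := ∏ i, f i with hPdef
    have hP0 : 0 < P := Finset.prod_pos fun i _ => (hf1 i).1
    have hPτ : (P : ℝ) ≤ τ ^ n := by
      rw [hPdef, Nat.cast_prod]
      calc ∏ i, (f i : ℝ) ≤ ∏ _i : OddSet ι, τ :=
            Finset.prod_le_prod (fun _ _ => Nat.cast_nonneg _) fun i _ => (hf1 i).2
        _ = τ ^ n := by rw [Finset.prod_const, Finset.card_univ]
    obtain ⟨hX16, hVK₀, hVX, hlogX⟩ := tscase_X_facts n K K₀ N P V τ hN hV hVτ hτN (by omega)
      (by omega) (by omega) hP0 hPτ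
    set X : ℕ := N / P with hXdef
    have hb := hin M W F₀ B η hWt
      (fun p U i => θ p U i * ∏ U' : OddSet ι with U' ∉ I ∧ i ∈ U'.1, (f U' : ℤ)) X V τ
      hX16 hV hVK₀ hVX
    have hQ0 : 0 ≤ ∏ i, QT.pf (fun _ => (M : ℝ)) (f i) :=
      Finset.prod_nonneg fun i _ => (tscase_pf8_pos M hM _).le
    have hsum1 : ∑ e ∈ R f, QT.pf W (∏ U, e U) ≤
        (∏ i, QT.pf (fun _ => (M : ℝ)) (f i)) * ∑ e ∈ R f, QT.pf W (∏ U, eo e U) := by
      rw [Finset.mul_sum]
      refine Finset.sum_le_sum fun e he => ?_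
      simp only [hR] at he
      obtain ⟨heS, hfe⟩ := Finset.mem_filter.1 he
      obtain ⟨h1, h2, h3, h6, h7⟩ := hSmem e heS
      rw [hmul e] at h3
      rw [hmul e, tscase_pf_mul W _ _ h3, hfe]
      refine mul_le_mul_of_nonneg_right ?_ (hpf0 _)
      exact (tscase_pf_le M W hWt.W0 hWt.WM _).trans (tscase_pf8_prod M hM _ _)
    have hsum2 : ∑ e ∈ R f, QT.pf W (∏ U, eo e U) ≤
        ∑ e ∈ (QT.Box (OddSet ι) X).filter (fun e => (∀ U ∉ I, e U = 1) ∧ (∀ U ∈ I, τ < e U) ∧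
        (∀ U ∈ I, ∀ p : ℕ, p.Prime → p ∣ e U →
          ¬ p ∣ Rb g ∧ (∀ i, ¬ (p : ℤ) ∣ (fun p U i => θ p U i *
            ∏ U' : OddSet ι with U' ∉ I ∧ i ∈ U'.1, (f U' : ℤ)) p U i) ∧
          (∀ k ∈ U.1, jacobiSym (g k).disc p = 1) ∧
          ∀ S ∈ Kr g p, Even (S ∩ U.1).card →
            jacobiSym ((∏ i ∈ S, (fun p U i => θ p U i *
            ∏ U' : OddSet ι with U' ∉ I ∧ i ∈ U'.1, (f U' : ℤ)) p U i) *
            ∏ U' ∈ I with Odd (S ∩ U'.1).card, (e U' : ℤ)) p = 1)),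
      QT.pf W (∏ U, e U) := by
      refine tscase_inj_sum (R f) _ eo (fun e => QT.pf W (∏ U, e U)) (fun _ => hpf0 _) ?_ ?_
      · intro e he
        simp only [hR] at he
        obtain ⟨heS, hfe⟩ := Finset.mem_filter.1 he
        obtain ⟨h1, h2, h3, h6, h7⟩ := hSmem e heS
        have hdvd : ∏ i, eo e i ∣ ∏ i, e i := by
          rw [hmul e]
          exact Dvd.intro_left _ rfl
        have heo1 : ∀ i, 1 ≤ eo e i := by
          intro i
          simp only [heo]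
          split_ifs
          · exact h1 i
          · exact le_rfl
        have hle : ∏ i, eo e i ≤ X := by
          rw [hXdef, Nat.le_div_iff_mul_le hP0, mul_comm, hPdef, ← hfe, ← hmul e]
          exact h2
        have hfe' : ∀ U ∉ I, f U = e U := by
          intro U hU
          rw [← hfe]
          simp [hfo, hU]
        have hee' : ∀ U ∈ I, eo e U = e U := by
          intro U hU
          simp [heo, hU]
        refine Finset.mem_filter.2 ⟨Finset.mem_filter.2 ⟨?_, hle, ?_⟩, ?_, ?_, ?_⟩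
        · rw [Fintype.mem_piFinset]
          intro i
          rw [Finset.mem_Icc]
          refine ⟨heo1 i, le_trans ?_ hle⟩
          exact Finset.single_le_prod' (f := fun i => eo e i) (fun j _ => heo1 j)
            (Finset.mem_univ i)
        · exact h3.squarefree_of_dvd hdvd
        · intro i hi
          simp [heo, hi]
        · intro i hi
          simp only [heo, if_pos hi]
          exact (h6 i).2 hi
        · intro U hU p hp hpe
          rw [hee' U hU] at hpe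
          obtain ⟨h13, h8, h9, h10⟩ := h7 U p hp hpe
          -- `p` does not divide the other entries
          have hnd : ∀ U', U' ≠ U → ¬ p ∣ e U' := by
            intro U' hne' hd
            have h11 : p * p ∣ ∏ i, e i := by
              rw [← Finset.mul_prod_erase _ _ (Finset.mem_univ U),
                ← Finset.mul_prod_erase _ _ (Finset.mem_erase.2 ⟨hne', Finset.mem_univ U'⟩)]
              exact mul_dvd_mul hpe (Dvd.dvd.mul_right hd _)
            exact hp.not_isUnit (h3 p h11)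
          have hcop : ∀ U' ∉ I, Int.gcd (e U' : ℤ) p = 1 := by
            intro U' hU'
            rw [Int.gcd_natCast_natCast]
            exact ((Nat.Prime.coprime_iff_not_dvd hp).2
              (hnd U' (fun h => hU' (h ▸ hU)))).symm
          refine ⟨h13, ?_, h9, ?_⟩
          · intro i hd
            have hpI : Prime (p : ℤ) := Nat.prime_iff_prime_int.1 hp
            rcases hpI.dvd_or_dvd hd with hd | hd
            · exact h8 i hd
            · obtain ⟨U', hU', hd'⟩ := (hpI.dvd_finsetProd_iff _).1 hd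
              have hU'I : U' ∉ I := (Finset.mem_filter.1 hU').2.1
              rw [hfe' U' hU'I] at hd'
              exact hnd U' (fun h => hU'I (h ▸ hU)) (by exact_mod_cast hd')
          · intro T hT hT2
            have h12 := tscase_jac_freeze I (θ p U) e f (eo e) T p hfe' hee' hcop
            exact h12.trans (h10 T hT hT2)
      · intro e he e' he' hee
        simp only [hR] at he he'
        obtain ⟨-, hfe⟩ := Finset.mem_filter.1 he
        obtain ⟨-, hfe'⟩ := Finset.mem_filter.1 he'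
        funext i
        by_cases hi : i ∈ I
        · have := congrFun hee i
          simpa [heo, hi] using this
        · have := congrFun (hfe.trans hfe'.symm) i
          simpa [hfo, hi] using this
    have hcard' : ∑ e ∈ R f, QT.pf W (∏ U, e U) ≤ (∏ i, QT.pf (fun _ => (M : ℝ)) (f i)) *
        (C₀ * X * ((1 + Real.log X) ^ K₀ * V ^ (-(1 / 16) : ℝ) +
        B * Real.log X ^ (-η) * (1 + Real.log V) ^ K₀)) :=
      hsum1.trans (mul_le_mul_of_nonneg_left (hsum2.trans hb) hQ0)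
    refine hcard'.trans ?_
    have hXN : (X : ℝ) ≤ N * ∏ i, (1 / (f i : ℝ)) := by
      have h1 : (X : ℝ) ≤ (N : ℝ) / P := Nat.cast_div_le
      refine h1.trans (le_of_eq ?_)
      rw [hPdef, Nat.cast_prod, div_eq_mul_inv]
      congr 1
      rw [← Finset.prod_inv_distrib]
      exact Finset.prod_congr rfl fun i _ => (one_div _).symm
    have hX0 : (0 : ℝ) ≤ X := Nat.cast_nonneg _
    have hX16' : (16 : ℝ) ≤ X := by exact_mod_cast hX16
    have hXleN : (X : ℝ) ≤ N := by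
      have : X ≤ N := Nat.div_le_self _ _
      exact_mod_cast this
    have hlogXN : Real.log X ≤ Real.log N := Real.log_le_log (by linarith) hXleN
    have hlogX0 : 0 ≤ Real.log X := Real.log_nonneg (by linarith)
    have hLX : Real.log X ^ (-η) ≤ 4 * Real.log N ^ (-η) :=
      tscase_rpow _ _ η hlogN hlogX hWt.η0 hWt.η1
    have hLX0 : 0 ≤ Real.log X ^ (-η) := Real.rpow_nonneg hlogX0 _
    have hterm : (1 + Real.log X) ^ K₀ * V ^ (-(1 / 16) : ℝ) +
        B * Real.log X ^ (-η) * (1 + Real.log V) ^ K₀ ≤ E := by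
      rw [hE]
      gcongr
    have hterm0 : 0 ≤ (1 + Real.log X) ^ K₀ * V ^ (-(1 / 16) : ℝ) +
        B * Real.log X ^ (-η) * (1 + Real.log V) ^ K₀ := by
      positivity
    have hprod : ∏ i, (QT.pf (fun _ => (M : ℝ)) (f i) / (f i : ℝ)) =
        (∏ i, QT.pf (fun _ => (M : ℝ)) (f i)) * ∏ i, (1 / (f i : ℝ)) := by
      rw [← Finset.prod_mul_distrib]
      exact Finset.prod_congr rfl fun i _ => by rw [mul_one_div]
    calc (∏ i, QT.pf (fun _ => (M : ℝ)) (f i)) *
        (C₀ * X * ((1 + Real.log X) ^ K₀ * V ^ (-(1 / 16) : ℝ) +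
        B * Real.log X ^ (-η) * (1 + Real.log V) ^ K₀)) ≤
          (∏ i, QT.pf (fun _ => (M : ℝ)) (f i)) * (C₀ * (N * ∏ i, (1 / (f i : ℝ))) * E) := by
          gcongr
      _ = _ := by rw [hprod]; ring
  -- summation
  have hfin : ∑ e ∈ S, QT.pf W (∏ U, e U) ≤ C₀ * N * E * (1 + Real.log τ) ^ (M * n) := by
    have h1 : ∑ e ∈ S, QT.pf W (∏ U, e U) ≤ ∑ f ∈ F, ∑ e ∈ R f, QT.pf W (∏ U, e U) := by
      refine (Finset.sum_le_sum_of_subset_of_nonneg hcover fun e _ _ => hpf0 _).trans ?_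
      refine (Finset.sum_biUnion ?_).le
      intro f _ f' _ hff
      rw [Function.onFun, Finset.disjoint_left]
      intro e he he'
      simp only [hR] at he he'
      exact hff ((Finset.mem_filter.1 he).2.symm.trans (Finset.mem_filter.1 he').2)
    calc ∑ e ∈ S, QT.pf W (∏ U, e U) ≤ ∑ f ∈ F, ∑ e ∈ R f, QT.pf W (∏ U, e U) := h1
      _ ≤ ∑ f ∈ F, C₀ * N * E * ∏ i, (QT.pf (fun _ => (M : ℝ)) (f i) / (f i : ℝ)) :=
          Finset.sum_le_sum fun f hf => hclass f hf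
      _ = C₀ * N * E * ∑ f ∈ F, ∏ i, (QT.pf (fun _ => (M : ℝ)) (f i) / (f i : ℝ)) := by
          rw [← Finset.mul_sum]
      _ ≤ C₀ * N * E * (1 + Real.log τ) ^ (M * n) := by
          refine mul_le_mul_of_nonneg_left ?_ (by positivity)
          rw [hn]
          exact sum_pf_invM M τ hτ1
  refine hfin.trans ?_
  set G := (1 + Real.log N) ^ K * V ^ (-(1 / 16) : ℝ) + B * Real.log N ^ (-η) with hGdef
  have hG0 : 0 ≤ G := by positivity
  have hE' : E ≤ 4 * G * (1 + Real.log τ) ^ K₀ := by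
    have h1 : (1 + Real.log N) ^ K₀ ≤ (1 + Real.log N) ^ K :=
      pow_le_pow_right₀ (by linarith) (by omega)
    have h2 : 1 ≤ (1 + Real.log τ) ^ K₀ := one_le_pow₀ (by linarith)
    set α := (1 + Real.log N) ^ K * V ^ (-(1 / 16) : ℝ) with hα
    set l := Real.log N ^ (-η) with hl
    set r := (1 + Real.log τ) ^ K₀ with hr
    have ha0 : 0 ≤ α := by positivity
    have h3 : (1 + Real.log N) ^ K₀ * V ^ (-(1 / 16) : ℝ) ≤ α := by
      rw [hα]
      gcongr
    have h4 : α ≤ α * r := le_mul_of_one_le_right ha0 h2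
    have h6 : 0 ≤ α * r := by positivity
    rw [hE, hGdef]
    nlinarith
  have hpow : (1 + Real.log τ) ^ K₀ * (1 + Real.log τ) ^ (M * n) ≤ (1 + Real.log τ) ^ K := by
    rw [← pow_add]
    exact pow_le_pow_right₀ (by linarith) (by omega)
  have hN0 : (0 : ℝ) ≤ N := Nat.cast_nonneg _
  have hL0 : 0 ≤ 1 + Real.log τ := by linarith
  calc C₀ * N * E * (1 + Real.log τ) ^ (M * n)
      ≤ C₀ * N * (4 * G * (1 + Real.log τ) ^ K₀) * (1 + Real.log τ) ^ (M * n) := by
        gcongr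
    _ = 4 * C₀ * N * G * ((1 + Real.log τ) ^ K₀ * (1 + Real.log τ) ^ (M * n)) := by ring
    _ ≤ 4 * C₀ * N * G * (1 + Real.log τ) ^ K := by
        gcongr

end ZS
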