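import Pool.Agent.Lib.MP_1ad228_ntTS.B3
import Pool.Agent.Lib.MP_1ad228_ntTS.B4
import Pool.Agent.Lib.MP_1ad228_ntTS.B5
import Pool.Agent.Lib.MP_1ad228_ntTS.C1
import Pool.Agent.Lib.MP_1ad228_ntTS.C2
import Pool.Agent.Lib.MP_1ad228_ntTS.Case
import Pool.Agent.Lib.MP_1ad228_nt.GTAtyp

/-! LEAF C3 (medium-).  The counting theorem.  Model: `gtcount_part`, `gtcount_meanS` and the proof of `countV` at the end of `Pool/Agent/Lib/MP_1ad228_nt/GTCount.lean`.

`mean_FS`: `mean_FS3` if `3 ≤ k` or `Ed q = ∅`; otherwise `k = 2` (`Gen.two`), `subst` and `mean_FS2`.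
`countS`: `WtM q (2 ^ k) (WS q) (FS q) B (et k)` by `ws_facts`, `wt_oneS`, `wt_sumS`, `mean_FS` (`0 ≤ et k ≤ 1`); for a set `I` containing all the `sg i`, `case_M q I hI _ (2 ^ k) _` gives `C, K` (nonempty: `sg` of the index `⟨0, Gen.pos⟩`); for the other `I` take `C = 1, K = 0` (`gtcount_part`).  `anaS` with `κ = Finset (OddSet (Fin k))`, `S0 = ∑ i, 2 * BS i`
(`BS i` from `mean_Si`), then `comb_main`, `atyp (Si q i) (BS i) (2 * (1/2)^k)` (`0 ≤ 2 (1/2)^k ≤ 1`), `mean_FS` with `x = N`, `case_M`, exactly as in the proof of `countV`. -/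

set_option autoImplicit false

namespace ZS

open Finset ZG

theorem mean_FS {k : ℕ} {q : Fin k → BQ} (hq : Gen q) : ∃ B : ℝ, 0 < B ∧ ∀ x : ℝ, 2 ≤ x →
    ∑ n ∈ (Icc 1 ⌊x⌋₊).filter Squarefree, QT.pf (FS q) n ≤ B * x * Real.log x ^ (-(et k)) := by
  by_cases h3 : 3 ≤ k ∨ Ed q = ∅
  · exact mean_FS3 hq h3
  · push Not at h3
    have h2 : k = 2 := by
      have := hq.two
      omega
    subst h2
    exact mean_FS2 hq (Finset.nonempty_iff_ne_empty.1 h3.2)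

private theorem C3_et (k : ℕ) (hk : 2 ≤ k) : 0 ≤ et k ∧ et k ≤ 1 ∧ (2 * (1 / 2) ^ k : ℝ) ≤ 1 := by
  have h1 : ((1 : ℝ) / 2) ^ k ≤ (1 / 2) ^ 2 := pow_le_pow_of_le_one (by norm_num) (by norm_num) hk
  have h0 : (0 : ℝ) ≤ (1 / 2) ^ k := by positivity
  unfold et
  refine ⟨by positivity, ?_, ?_⟩
  · norm_num at h1 ⊢
    linarith
  · norm_num at h1 ⊢
    linarith

open Classical in
private theorem C3_part {k : ℕ} {q : Fin k → BQ} (hq : Gen q) (I : Finset (OddSet (Fin k))) :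
    ∃ (C : ℝ) (K : ℕ), 0 < C ∧ ((∀ i, sg i ∈ I) → ∀ (W F : ℕ → ℝ) (B η : ℝ), WtM q (2 ^ k) W F B η →
    ∀ (θ : ℕ → OddSet (Fin k) → Fin k → ℤ) (N : ℕ) (V τ : ℝ), 65536 ≤ N → 1 ≤ V → V ^ K ≤ τ → τ ^ K ≤ N →
    ∑ e ∈ (QT.Box (OddSet (Fin k)) N).filter (fun e => (∀ U, τ < e U ↔ U ∈ I) ∧ LocG θ q e), QT.pf W (∏ U, e U) ≤
      C * N * ((1 + Real.log N) ^ K * V ^ (-(1 / 16) : ℝ) + B * Real.log N ^ (-η)) * (1 + Real.log τ) ^ K) := by
  by_cases hI : ∀ i, sg i ∈ I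
  · obtain ⟨C, K, hC, h⟩ := case_M q I hI ⟨sg ⟨0, hq.pos⟩, hI ⟨0, hq.pos⟩⟩ (2 ^ k) Nat.one_le_two_pow
    exact ⟨C, K, hC, fun _ => h⟩
  · exact ⟨1, 0, one_pos, fun h => absurd h hI⟩

open Classical in
theorem countS {k : ℕ} {q : Fin k → BQ} (hq : Gen q) :
    ∃ C : ℝ, 0 < C ∧ ∀ (θ : ℕ → OddSet (Fin k) → Fin k → ℤ) (N : ℕ), 2 ≤ N →
      ((((QT.Box (OddSet (Fin k)) N).filter fun e => LocG θ q e).image fun e => ∏ U, e U).card : ℝ) ≤
        C * N * Real.log N ^ (-(ee k)) := by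
  obtain ⟨B, hB, hBF⟩ := mean_FS hq
  choose BS hBS hbS using mean_Si hq
  obtain ⟨he0, he1, he2⟩ := C3_et k hq.two
  have hwt : WtM q (2 ^ k) (WS q) (FS q) B (et k) :=
    { W0 := fun p => (ws_facts hq p).1.le
      WM := fun p => (ws_facts hq p).2.1
      one := fun p hp h U hU => wt_oneS hq hp h U hU
      sum := fun p hp h => by
        refine le_trans (le_of_eq ?_) (wt_sumS hq hp h)
        congr 3
        exact Finset.filter_congr_decidable _ _ _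
      F0 := fun p _ => (ws_facts hq p).2.2.1
      B0 := hB
      η0 := he0
      η1 := he1
      bound := hBF }
  choose Cf Kf hCf hbf using C3_part hq
  have : Nonempty (Finset (OddSet (Fin k))) := ⟨∅⟩
  obtain ⟨C, hCpos, hCb⟩ := anaS k hq.two Cf Kf hCf B (∑ i : Fin k, 2 * BS i) hB
    (Finset.sum_nonneg fun i _ => by have := hBS i; positivity)
  refine ⟨C, hCpos, ?_⟩
  intro θ N hN2
  apply hCb N _ hN2
  · have h1 : (((QT.Box (OddSet (Fin k)) N).filter fun e => LocG θ q e).image fun e => ∏ U, e U) ⊆ Icc 1 N := by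
      intro n hn
      obtain ⟨e, he, rfl⟩ := Finset.mem_image.1 hn
      obtain ⟨hbox, -⟩ := Finset.mem_filter.1 he
      obtain ⟨h6, h7, h8⟩ := Finset.mem_filter.1 hbox
      rw [Finset.mem_Icc]
      exact ⟨Nat.pos_of_ne_zero h8.ne_zero, h7⟩
    have h2 := Finset.card_le_card h1
    rw [Nat.card_Icc, Nat.add_sub_cancel] at h2
    exact_mod_cast h2
  · intro V τ hN65 hV1 hτ1 hVτ hτN hτ2
    refine (comb_main hq θ N τ).trans (add_le_add (add_le_add ?_ ?_) ?_)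
    · rw [Finset.sum_mul]
      apply Finset.sum_le_sum
      intro i _
      have h1 := atyp (Si q i) (BS i) (2 * (1 / 2) ^ k) (hBS i) (by positivity) he2 (hbS i) N τ
        (by omega) hτ1 hτ2
      refine h1.trans (le_of_eq ?_)
      ring
    · have hN1 : (2 : ℝ) ≤ N := by exact_mod_cast hN2
      exact hBF N hN1
    · apply Finset.sum_le_sum
      intro I _
      split_ifs with hI
      · exact hbf I hI (WS q) (FS q) B (et k) hwt θ N V τ hN65 hV1 (hVτ I) (hτN I)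
      · have hCI := hCf I
        have hlogτ : 0 ≤ Real.log τ := Real.log_nonneg hτ1
        have hlogN : 0 ≤ Real.log N := Real.log_natCast_nonneg _
        have hVp : 0 ≤ V ^ (-(1 / 16) : ℝ) := Real.rpow_nonneg (by linarith) _
        positivity

end ZS
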