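import Pool.Agent.Lib.MP_1ad228_ntTS.C3
import Pool.Agent.Lib.MP_1ad228_nt.GTFam
import Pool.Agent.Lib.MP_1ad228_nt.GTGlob

/-! LEAF C4 (easy+).  The upper bound.  Copy of `main` in `Pool/Agent/Lib/MP_1ad228_nt/GTMain.lean` (with its private lemmas `gtmain_data`, `gtmain_card`, renamed) for `Fin k` in place of `Fin 3`, the exponent `ee k` in place of `1/2000`, `countS` in place of `countV` and `countN`;
`family_desc` (file `GTFam`, `[Nonempty ι]`: `Gen.pos`, `Fin.pos_iff_nonempty`) and `glob` (file `GTGlob`) hold for every index type.  `(q i).A, (q i).C, (q i).disc, (q i).res (q j) ≠ 0`: `Gen.A`, `Gen.C`, `Gen.disc`, `Gen.res`, `Gen.Rb` in `Defs`. -/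

set_option autoImplicit false

namespace ZS

open Finset ZG

/-- the data of one twist -/
private theorem C4_data {k : ℕ} [Nonempty (Fin k)] (g : Fin k → BQ) (hA : ∀ i, (g i).A ≠ 0) (hC : ∀ i, (g i).C ≠ 0)
    (hd : ∀ i, (g i).disc ≠ 0) (hR : ∀ i j, i ≠ j → (g i).res (g j) ≠ 0) (N : ℕ) (D : ℤ) (hDN : |D| ≤ (N : ℤ))
    (hD : Squarefree D) (h : Adelic g D) :
    ∃ (g0 : ℤ) (s : Fin k → ℤ) (e : OddSet (Fin k) → ℕ), g0.natAbs ∣ Rb g ∧ (∀ i, (s i).natAbs ∣ Rb g) ∧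
      D = g0 * ∏ U, (e U : ℤ) ∧ e ∈ QT.Box (OddSet (Fin k)) N ∧ LocG (theta g s) g e := by
  obtain ⟨g0, s, e, hg, hs, hDg, hsqf, hcop, hloc⟩ := family_desc g hA hC hd hR D hD h
  have hD0 : D ≠ 0 := hD.ne_zero
  have hg0 : g0 ≠ 0 := by
    rintro rfl
    rw [zero_mul] at hDg
    exact hD0 hDg
  have hpos : ∀ U, 1 ≤ e U := by
    intro U
    rw [Nat.one_le_iff_ne_zero]
    intro h0
    exact hsqf.ne_zero (Finset.prod_eq_zero (Finset.mem_univ U) h0)
  have hprodN : ∏ U, e U ≤ N := by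
    have h1 : ((∏ U, e U : ℕ) : ℤ) ≤ |D| := by
      rw [hDg, abs_mul]
      have h2 : (1 : ℤ) ≤ |g0| := Int.one_le_abs hg0
      have h3 : |∏ U, (e U : ℤ)| = ((∏ U, e U : ℕ) : ℤ) := by
        rw [abs_of_nonneg (Finset.prod_nonneg fun i _ => Int.natCast_nonneg _)]
        push_cast
        rfl
      rw [h3]
      nlinarith [Int.natCast_nonneg (∏ U, e U)]
    exact_mod_cast h1.trans hDN
  refine ⟨g0, s, e, hg, hs, hDg, ?_, hloc⟩
  unfold QT.Box
  rw [Finset.mem_filter, Fintype.mem_piFinset]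
  refine ⟨fun U => ?_, hprodN, hsqf⟩
  rw [Finset.mem_Icc]
  refine ⟨hpos U, ?_⟩
  have : e U ∣ ∏ U, e U := Finset.dvd_prod_of_mem e (Finset.mem_univ U)
  exact (Nat.le_of_dvd (Finset.prod_pos fun i _ => hpos i) this).trans hprodN

open Classical in
private theorem C4_card {k : ℕ} [Nonempty (Fin k)] (g : Fin k → BQ) (hA : ∀ i, (g i).A ≠ 0) (hC : ∀ i, (g i).C ≠ 0)
    (hd : ∀ i, (g i).disc ≠ 0) (hR : ∀ i j, i ≠ j → (g i).res (g j) ≠ 0) (C₀ : ℝ) (hC₀ : 0 < C₀)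
    (hcount : ∀ (θ : ℕ → OddSet (Fin k) → Fin k → ℤ) (N : ℕ), 2 ≤ N →
      ((((QT.Box (OddSet (Fin k)) N).filter fun e => LocG θ g e).image fun e => ∏ U, e U).card : ℝ) ≤
        C₀ * N * Real.log N ^ (-(ee k))) :
    ∃ C : ℝ, 0 < C ∧ ∀ N : ℕ, 2 ≤ N →
      (((Finset.Icc (-(N : ℤ)) N).filter fun D => Squarefree D ∧ Adelic g D).card : ℝ) ≤
        C * N * Real.log N ^ (-(ee k)) := by
  have hR' : Rb g ≠ 0 := Rb_ne g hA hC hd hR
  set R : ℕ := Rb g with hRdef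
  set GS : Finset ℤ := Finset.Icc (-(R : ℤ)) R with hGS
  set CS : Finset (Fin k → ℤ) := Fintype.piFinset fun _ : Fin k => Finset.Icc (-(R : ℤ)) R with hCS
  refine ⟨(GS.card : ℝ) * CS.card * C₀ + 1, by positivity, ?_⟩
  intro N hN
  have hN2 : (2 : ℝ) ≤ N := by exact_mod_cast hN
  have hlog : 0 ≤ Real.log N ^ (-(ee k)) :=
    Real.rpow_nonneg (Real.log_nonneg (by linarith)) _
  set T : (Fin k → ℤ) → Finset ℕ := fun s =>
    ((QT.Box (OddSet (Fin k)) N).filter fun e => LocG (theta g s) g e).image fun e => ∏ U, e U with hT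
  set SS := (Finset.Icc (-(N : ℤ)) N).filter fun D => Squarefree D ∧ Adelic g D with hSS
  have hsub : SS ⊆ GS.biUnion fun g0 => CS.biUnion fun s => (T s).image fun n : ℕ => g0 * (n : ℤ) := by
    intro D hD
    rw [hSS, Finset.mem_filter, Finset.mem_Icc] at hD
    obtain ⟨⟨hD1, hD2⟩, hsqD, hAd⟩ := hD
    obtain ⟨g0, s, e, hg, hs, hDe, hbox, hloc⟩ :=
      C4_data g hA hC hd hR N D (abs_le.2 ⟨hD1, hD2⟩) hsqD hAd
    have hle : ∀ z : ℤ, z.natAbs ∣ R → z ∈ Finset.Icc (-(R : ℤ)) R := by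
      intro z hz
      have h1 : z.natAbs ≤ R := Nat.le_of_dvd (Nat.pos_of_ne_zero hR') hz
      rw [Finset.mem_Icc, ← abs_le, Int.abs_eq_natAbs]
      exact_mod_cast h1
    rw [Finset.mem_biUnion]
    refine ⟨g0, hle g0 hg, ?_⟩
    rw [Finset.mem_biUnion]
    refine ⟨s, ?_, ?_⟩
    · rw [hCS, Fintype.mem_piFinset]
      exact fun i => hle _ (hs i)
    · rw [Finset.mem_image]
      refine ⟨∏ U, e U, ?_, ?_⟩
      · rw [hT]
        exact Finset.mem_image.2 ⟨e, Finset.mem_filter.2 ⟨hbox, hloc⟩, rfl⟩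
      · rw [hDe]
        push_cast
        rfl
  have hcard : (SS.card : ℝ) ≤ ∑ _g0 ∈ GS, ∑ s ∈ CS, ((T s).card : ℝ) := by
    have h1 : SS.card ≤ ∑ _g0 ∈ GS, ∑ s ∈ CS, (T s).card := by
      refine (Finset.card_le_card hsub).trans (Finset.card_biUnion_le.trans ?_)
      apply Finset.sum_le_sum
      intro g0 _
      refine Finset.card_biUnion_le.trans ?_
      apply Finset.sum_le_sum
      intro s _
      exact Finset.card_image_le
    exact_mod_cast h1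
  refine hcard.trans ?_
  have h2 : ∑ s ∈ CS, ((T s).card : ℝ) ≤ (CS.card : ℝ) * (C₀ * N * Real.log N ^ (-(ee k))) := by
    rw [← nsmul_eq_mul]
    apply Finset.sum_le_card_nsmul
    intro s _
    exact hcount (theta g s) N hN
  rw [Finset.sum_const, nsmul_eq_mul]
  have h4 : (0 : ℝ) ≤ N * Real.log N ^ (-(ee k)) := by positivity
  calc (GS.card : ℝ) * ∑ s ∈ CS, ((T s).card : ℝ)
      ≤ (GS.card : ℝ) * ((CS.card : ℝ) * (C₀ * N * Real.log N ^ (-(ee k)))) := by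
        apply mul_le_mul_of_nonneg_left h2
        positivity
    _ ≤ ((GS.card : ℝ) * CS.card * C₀ + 1) * (N * Real.log N ^ (-(ee k))) := by
        nlinarith
    _ = ((GS.card : ℝ) * CS.card * C₀ + 1) * N * Real.log N ^ (-(ee k)) := by ring

theorem mainS {k : ℕ} {q : Fin k → BQ} (hq : Gen q) : ∃ C : ℝ, 0 < C ∧ ∀ N : ℕ, 2 ≤ N →
    (Nat.card {D : ℤ // Squarefree D ∧ |D| ≤ (N : ℤ) ∧ (Adelic q D ∨ Global q D)} : ℝ) ≤
      C * N * Real.log N ^ (-(ee k)) := by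
  classical
  have : Nonempty (Fin k) := ⟨⟨0, hq.pos⟩⟩
  obtain ⟨C₀, hC₀, hcount⟩ := countS hq
  obtain ⟨C, hC, hCb⟩ := C4_card q hq.A hq.C hq.disc hq.res C₀ hC₀ hcount
  refine ⟨C, hC, fun N hN => le_trans ?_ (hCb N hN)⟩
  have h1 : Nat.card {D : ℤ // Squarefree D ∧ |D| ≤ (N : ℤ) ∧ (Adelic q D ∨ Global q D)} ≤
      ((Finset.Icc (-(N : ℤ)) N).filter fun D => Squarefree D ∧ Adelic q D).card := by
    have h2 : ∀ D : ℤ, (Squarefree D ∧ |D| ≤ (N : ℤ) ∧ (Adelic q D ∨ Global q D)) →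
        D ∈ (Finset.Icc (-(N : ℤ)) N).filter fun D => Squarefree D ∧ Adelic q D := by
      rintro D ⟨hD, hDN, hAd⟩
      rw [Finset.mem_filter, Finset.mem_Icc, ← abs_le]
      refine ⟨hDN, hD, ?_⟩
      rcases hAd with hAd | hAd
      · exact hAd
      · exact glob hq.res hD.ne_zero hAd
    have h3 := Nat.card_le_card_of_injective
      (fun x : {D : ℤ // Squarefree D ∧ |D| ≤ (N : ℤ) ∧ (Adelic q D ∨ Global q D)} =>
        (⟨x.1, h2 x.1 x.2⟩ : ((Finset.Icc (-(N : ℤ)) N).filter fun D => Squarefree D ∧ Adelic q D :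
          Finset ℤ))) (fun x y hxy => by
        have := congrArg Subtype.val hxy
        exact Subtype.ext this)
    rw [Nat.card_eq_fintype_card (α := ((Finset.Icc (-(N : ℤ)) N).filter fun D =>
      Squarefree D ∧ Adelic q D : Finset ℤ)), Fintype.card_coe] at h3
    exact h3
  exact_mod_cast h1

end ZS
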