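import Pool.Agent.Lib.MP_1ad228_nt.GTDefs
import Pool.Agent.Lib.MP_10e784_ag.PT.PTDefs

/-!
# MP_1ad228_nt: the quadratic twists `D w² = q_1(x, z) ... q_k(x, z)` of a curve of genus `k - 1`

Definitions.  `BQ`, `ev`, `disc`, `res`, `Pt`, `Cyc`, `Adelic`, `Global`, `Rb`, `Kr`, `LocG` are those of
`Pool/Agent/Lib/MP_1ad228_nt/GTDefs.lean`, used here for the index type `Fin k`.
-/

set_option autoImplicit false

namespace ZS

open Finset ZG

/-- The curve `D w² = ∏ q_i(x, z)` has a point over the field `F`. -/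
def HasPoint (F : Type) [Field F] {k : ℕ} (q : Fin k → BQ) (D : ℤ) : Prop :=
  ∃ x z w : F, ¬ (x = 0 ∧ z = 0) ∧ (D : F) * w ^ 2 = ∏ i, (q i).ev x z

/-- The curve `D w² = ∏ q_i(x, z)` has points over `ℝ` and over all `ℚ_p`. -/
def ELS {k : ℕ} (q : Fin k → BQ) (D : ℤ) : Prop :=
  HasPoint ℝ q D ∧ ∀ (p : ℕ) [Fact p.Prime], HasPoint ℚ_[p] q D

open Classical in
/-- The pairs `i < j` such that the resultant of `q_i` and `q_j` is not a square. -/
noncomputable def Ed {k : ℕ} (q : Fin k → BQ) : Finset (Fin k × Fin k) :=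
  univ.filter fun e => e.1 < e.2 ∧ ¬ IsSquare ((q e.1).res (q e.2))

/-- The hypotheses on the forms: the discriminants are independent modulo squares, fewer than `k` of the resultants are
not squares and, for two forms, the resultant is not the product of the discriminants modulo squares. -/
structure Gen {k : ℕ} (q : Fin k → BQ) : Prop where
  two : 2 ≤ k
  ind : ∀ A : Finset (Fin k), A.Nonempty → ¬ IsSquare (∏ i ∈ A, (q i).disc)
  edges : (Ed q).card + 1 ≤ k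
  res2 : k = 2 → ∀ i j, i ≠ j → ¬ IsSquare ((q i).res (q j) * ((q i).disc * (q j).disc))

/-- the forms which split modulo `p` -/
def Sp {k : ℕ} (q : Fin k → BQ) (p : ℕ) : Finset (Fin k) := univ.filter fun i => jacobiSym (q i).disc p = 1

/-- the number of the nonsquare resultants which are non-residues modulo `p` -/
noncomputable def mp {k : ℕ} (q : Fin k → BQ) (p : ℕ) : ℕ :=
  ((Ed q).filter fun e => jacobiSym ((q e.1).res (q e.2)) p = -1).card

/-- the exponent `x(p) = |S_p| - k + m_p` -/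
noncomputable def xx {k : ℕ} (q : Fin k → BQ) (p : ℕ) : ℝ := ((Sp q p).card : ℝ) - k + mp q p

/-- the small number `s = 1 / (20 k²)` -/
noncomputable def sk (k : ℕ) : ℝ := 1 / (20 * (k : ℝ) ^ 2)

/-- the exponent `(1 + 1/1000) 2^(-k)` of the mean value -/
noncomputable def et (k : ℕ) : ℝ := (1 + 1 / 1000) * (1 / 2) ^ k

/-- the exponent `(1 + 1/2000) 2^(-k)` of the theorem -/
noncomputable def ee (k : ℕ) : ℝ := (1 + 1 / 2000) * (1 / 2) ^ k

/-- the weight `W = 2^(-(1 - s) x(p))` -/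
noncomputable def WS {k : ℕ} (q : Fin k → BQ) (p : ℕ) : ℝ := (2 : ℝ) ^ (-(1 - sk k) * xx q p)

open Classical in
/-- the majorant `F = 2^(s x(p))`, zero if no form splits -/
noncomputable def FS {k : ℕ} (q : Fin k → BQ) (p : ℕ) : ℝ :=
  if Sp q p = ∅ then 0 else (2 : ℝ) ^ (sk k * xx q p)

/-- the prime numbers modulo which one of the forms splits -/
def RS {k : ℕ} (q : Fin k → BQ) : Set ℕ := {p | p.Prime ∧ ∃ i, jacobiSym (q i).disc p = 1}

/-- the condition on `p`: all the forms `q_j`, `j ≠ i`, are inert modulo `p` -/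
def Si {k : ℕ} (q : Fin k → BQ) (i : Fin k) (p : ℕ) : Prop :=
  ¬ p ∣ Rb q ∧ ∀ j, j ≠ i → jacobiSym (q j).disc p = -1

/-- the one-element set `{i}` -/
def sg {k : ℕ} (i : Fin k) : OddSet (Fin k) := ⟨{i}, by simp⟩

/-- the conditions on the weight `W` and the majorant `F` (the structure `Wt` of `GTWt` with `M` in place of `8`) -/
structure WtM {ι : Type} [Fintype ι] [DecidableEq ι] (g : ι → BQ) (M : ℕ) (W F : ℕ → ℝ) (B η : ℝ) : Prop where
  W0 : ∀ p, 0 ≤ W p
  WM : ∀ p, W p ≤ M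
  one : ∀ p, p.Prime → ¬ p ∣ Rb g → ∀ U : OddSet ι, (∀ k ∈ U.1, jacobiSym (g k).disc p = 1) →
    2 * W p ≤ ((Kr g p).card : ℝ)
  sum : ∀ p, p.Prime → ¬ p ∣ Rb g →
    ((univ.filter fun U : OddSet ι => ∀ k ∈ U.1, jacobiSym (g k).disc p = 1).card : ℝ) * (2 * W p) ≤
      ((Kr g p).card : ℝ) * F p
  F0 : ∀ p, p.Prime → 0 ≤ F p
  B0 : 0 < B
  η0 : 0 ≤ η
  η1 : η ≤ 1
  bound : ∀ x : ℝ, 2 ≤ x → ∑ n ∈ (Icc 1 ⌊x⌋₊).filter Squarefree, QT.pf F n ≤ B * x * Real.log x ^ (-η)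

theorem Gen.sq {k : ℕ} {q : Fin k → BQ} (hq : Gen q) (i : Fin k) : ¬ IsSquare (q i).disc := by
  have h := hq.ind {i} (Finset.singleton_nonempty i)
  rwa [Finset.prod_singleton] at h

theorem Gen.sq2 {k : ℕ} {q : Fin k → BQ} (hq : Gen q) {i j : Fin k} (hij : i ≠ j) :
    ¬ IsSquare ((q i).disc * (q j).disc) := by
  have h := hq.ind {i, j} (Finset.insert_nonempty i {j})
  rwa [Finset.prod_pair hij] at h

theorem Gen.A {k : ℕ} {q : Fin k → BQ} (hq : Gen q) (i : Fin k) : (q i).A ≠ 0 := by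
  intro h
  apply hq.sq i
  refine ⟨(q i).B, ?_⟩
  unfold BQ.disc
  rw [h]
  ring

theorem Gen.C {k : ℕ} {q : Fin k → BQ} (hq : Gen q) (i : Fin k) : (q i).C ≠ 0 := by
  intro h
  apply hq.sq i
  refine ⟨(q i).B, ?_⟩
  unfold BQ.disc
  rw [h]
  ring

theorem Gen.disc {k : ℕ} {q : Fin k → BQ} (hq : Gen q) (i : Fin k) : (q i).disc ≠ 0 := by
  intro h
  apply hq.sq i
  rw [h]
  exact ⟨0, by ring⟩

/-- `4 Res(g, h) = P² - disc g disc h` -/
theorem four_res (g h : BQ) : 4 * g.res h =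
    (g.B * h.B - 2 * (g.A * h.C + h.A * g.C)) ^ 2 - g.disc * h.disc := by
  unfold BQ.res BQ.disc
  ring

theorem Gen.res {k : ℕ} {q : Fin k → BQ} (hq : Gen q) (i j : Fin k) (hij : i ≠ j) : (q i).res (q j) ≠ 0 := by
  intro h
  apply hq.sq2 hij
  have h4 := four_res (q i) (q j)
  rw [h] at h4
  exact ⟨(q i).B * (q j).B - 2 * ((q i).A * (q j).C + (q j).A * (q i).C), by linarith⟩

theorem Gen.Rb {k : ℕ} {q : Fin k → BQ} (hq : Gen q) : Rb q ≠ 0 :=
  Rb_ne q hq.A hq.C hq.disc hq.res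

theorem Gen.pos {k : ℕ} {q : Fin k → BQ} (hq : Gen q) : 0 < k := lt_of_lt_of_le two_pos hq.two

end ZS
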