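import Pool.Agent.Lib.MP_1ad228_ntTS.Defs
import Pool.Agent.Lib.MP_1ad228_nt.GTData
import Pool.Agent.Lib.MP_10e784_ag.EL.ELStep
import Pool.Agent.Lib.MP_10e784_ag.EL.ELHens

/-! LEAF L1 (medium).  Local points at the good primes not dividing `D`.  (Both theorems.)

Let `p ∤ Rb q` (so `Good q p`, `good_of_not_dvd`: `p` is odd and divides none of `A`, `C`, `disc`, `res`).
`sqf_mod`: modulo `p` the quadratic polynomials `f_i = A_i X² + B_i X + C_i` have leading coefficient `≠ 0` and discriminant `≠ 0`, so each is separable (`4 A_i f_i - (2 A_i X + B_i)² = - disc`, and `2 A_i X + B_i` is the derivative: `IsCoprime f_i f_i'`), hence squarefree, and two of them are coprime because the resultant is `≠ 0`: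
with `m = A_i C_j - A_j C_i`, `a = A_i B_j - A_j B_i`, `l = B_i C_j - B_j C_i` one has `A_j f_i - A_i f_j = -(a X + m)`, `C_j f_i - C_i f_j = X (m X + l)` up to sign, `B_j f_i - B_i f_j = ...`, `res = m² - a l` (use the identities `BQ.res_x`, `BQ.res_z` of `GTDefs` in the ring `(ZMod p)[X]` at `(X, 1)`: they write `res * X ^ 3` and `res * 1 ^ 3` as combinations of `f_i` and `f_j`: in particular
`BQ.res_z` with `z = 1` gives `IsCoprime f_i f_j` at once).  The product is squarefree (`Finset.squarefree_prod_of_pairwise_isCoprime` or induction with `IsCoprime.prod_right` and `Polynomial.Separable.mul`/`squarefree_mul`), of degree `2 k` (`natDegree_prod`, each factor of degree `2`).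
`good_point` (`1 ≤ k`): `P0` from `EL.stepanov (2 * k)`.  `u = (D : ZMod p) ≠ 0`: there is `x : ZMod p` with `f(x) ≠ 0` and `D f(x)` a square; lift `x` to an integer `X0`: `D * ∏ (q i).ev X0 1` is an integer prime to `p`, a square modulo `p`, so it is `s²` in `ℤ_[p]` (`EL.hens_sq_odd`); take the point `(X0, 1, s / D)` over `ℚ_[p]`. -/

set_option autoImplicit false

namespace ZS

open Finset ZG Polynomial

private theorem L1_sep {K : Type} [Field K] {a b c : K} (h : b ^ 2 - 4 * a * c ≠ 0) :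
    (C a * X ^ 2 + C b * X + C c : K[X]).Separable := by
  have hder : derivative (C a * X ^ 2 + C b * X + C c : K[X]) = 2 * C a * X + C b := by
    simp only [derivative_add, derivative_mul, derivative_C, derivative_X, derivative_X_pow, zero_mul, zero_add,
      mul_one, add_zero]
    have h2 : (C ((2 : ℕ) : K) : K[X]) = 2 := by
      rw [Nat.cast_ofNat, map_ofNat]
    rw [h2]
    norm_num
    ring
  unfold Polynomial.Separable
  rw [hder]
  obtain ⟨d, hd⟩ : ∃ d : K, d = (b ^ 2 - 4 * a * c)⁻¹ := ⟨_, rfl⟩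
  refine ⟨-(C d * (4 * C a)), C d * (2 * C a * X + C b), ?_⟩
  have h1 : C d * C (b ^ 2 - 4 * a * c) = (1 : K[X]) := by
    rw [hd, ← C_mul, inv_mul_cancel₀ h, C_1]
  have h2 : (C (b ^ 2 - 4 * a * c) : K[X]) = C b ^ 2 - 4 * C a * C c := by
    simp only [C_mul, C_sub, C_pow, map_ofNat]
  rw [h2] at h1
  rw [← h1]
  ring

private theorem L1_cop {K : Type} [Field K] {a b c a' b' c' : K} (hc : c ≠ 0)
    (h : (a * c' - a' * c) ^ 2 - (a * b' - a' * b) * (b * c' - b' * c) ≠ 0) :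
    IsCoprime (C a * X ^ 2 + C b * X + C c : K[X]) (C a' * X ^ 2 + C b' * X + C c') := by
  obtain ⟨r, hr⟩ : ∃ r : K, r = (a * c' - a' * c) ^ 2 - (a * b' - a' * b) * (b * c' - b' * c) := ⟨_, rfl⟩
  rw [← hr] at h
  have hrc : r * c ≠ 0 := mul_ne_zero h hc
  refine ⟨C ((r * c)⁻¹) * (C r - (C a * X + C b) * (C (a * c' - a' * c) * X * (-C a') - C (a * b' - a' * b) * C c')),
    C ((r * c)⁻¹) * (-(C a * X + C b) * (C (a * c' - a' * c) * X * C a + C (a * b' - a' * b) * C c)), ?_⟩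
  have h1 : C ((r * c)⁻¹) * (C r * C c) = (1 : K[X]) := by
    rw [← C_mul, ← C_mul, inv_mul_cancel₀ hrc, C_1]
  have h2 : (C r : K[X]) = (C a * C c' - C a' * C c) ^ 2 - (C a * C b' - C a' * C b) * (C b * C c' - C b' * C c) := by
    rw [hr]
    simp only [C_mul, C_sub, C_pow]
  have h3 : (C r - (C a * X + C b) * (C (a * c' - a' * c) * X * (-C a') - C (a * b' - a' * b) * C c')) *
        (C a * X ^ 2 + C b * X + C c : K[X]) +
      (-(C a * X + C b) * (C (a * c' - a' * c) * X * C a + C (a * b' - a' * b) * C c)) *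
        (C a' * X ^ 2 + C b' * X + C c') = C r * C c := by
    rw [h2]
    simp only [C_mul, C_sub]
    ring
  calc _ = C ((r * c)⁻¹) * ((C r - (C a * X + C b) * (C (a * c' - a' * c) * X * (-C a') - C (a * b' - a' * b) * C c')) *
        (C a * X ^ 2 + C b * X + C c : K[X]) +
      (-(C a * X + C b) * (C (a * c' - a' * c) * X * C a + C (a * b' - a' * b) * C c)) *
        (C a' * X ^ 2 + C b' * X + C c')) := by ring
    _ = 1 := by rw [h3, h1]

private theorem L1_ne {p : ℕ} [Fact p.Prime] {a : ℤ} (h : ¬ (p : ℤ) ∣ a) : (a : ZMod p) ≠ 0 := by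
  intro h1
  exact h ((ZMod.intCast_zmod_eq_zero_iff_dvd a p).1 h1)

theorem sqf_mod {k : ℕ} (q : Fin k → BQ) (p : ℕ) [Fact p.Prime] (h : ¬ p ∣ Rb q) :
    Squarefree (∏ i, (C ((q i).A : ZMod p) * X ^ 2 + C ((q i).B : ZMod p) * X + C ((q i).C : ZMod p))) ∧
    (∏ i, (C ((q i).A : ZMod p) * X ^ 2 + C ((q i).B : ZMod p) * X + C ((q i).C : ZMod p))).natDegree = 2 * k := by
  have hg := good_of_not_dvd q h
  have hA := fun i => L1_ne (hg.A i)
  have hC := fun i => L1_ne (hg.C i)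
  have hdisc : ∀ i, ((q i).B : ZMod p) ^ 2 - 4 * ((q i).A : ZMod p) * ((q i).C : ZMod p) ≠ 0 := by
    intro i
    have h1 := L1_ne (hg.disc i)
    unfold BQ.disc at h1
    push_cast at h1
    exact h1
  have hres : ∀ i j, i ≠ j → (((q i).A : ZMod p) * (q j).C - (q j).A * (q i).C) ^ 2 -
      (((q i).A : ZMod p) * (q j).B - (q j).A * (q i).B) * (((q i).B : ZMod p) * (q j).C - (q j).B * (q i).C) ≠ 0 := by
    intro i j hij
    have h1 := L1_ne (hg.res i j hij)
    unfold BQ.res at h1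
    push_cast at h1
    exact h1
  have hd := fun i => natDegree_quadratic (b := ((q i).B : ZMod p)) (c := ((q i).C : ZMod p)) (hA i)
  have hne : ∀ i, (C ((q i).A : ZMod p) * X ^ 2 + C ((q i).B : ZMod p) * X + C ((q i).C : ZMod p)) ≠ 0 := by
    intro i h0
    have h1 := hd i
    rw [h0, natDegree_zero] at h1
    omega
  refine ⟨(separable_prod (fun i j hij => L1_cop (hC i) (hres i j hij)) fun i => L1_sep (hdisc i)).squarefree, ?_⟩
  rw [natDegree_prod _ _ fun i _ => hne i, Finset.sum_congr rfl fun i _ => hd i, Finset.sum_const, Finset.card_univ,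
    Fintype.card_fin, smul_eq_mul, mul_comm]

theorem good_point {k : ℕ} (hk : 1 ≤ k) (q : Fin k → BQ) : ∃ P0 : ℕ, ∀ (p : ℕ) [Fact p.Prime], P0 ≤ p → ¬ p ∣ Rb q →
    ∀ D : ℤ, ¬ (p : ℤ) ∣ D → HasPoint ℚ_[p] q D := by
  obtain ⟨P0, hP0⟩ := EL.stepanov (2 * k) (by omega)
  refine ⟨P0, fun p _ hp hR D hD => ?_⟩
  have hg := good_of_not_dvd q hR
  obtain ⟨hsq, hdeg⟩ := sqf_mod q p hR
  obtain ⟨x, hx0, hxs⟩ := hP0 p hp _ hsq hdeg (D : ZMod p) (L1_ne hD)
  obtain ⟨t, rfl⟩ := ZMod.intCast_surjective x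
  have he : (∏ i, (C ((q i).A : ZMod p) * X ^ 2 + C ((q i).B : ZMod p) * X + C ((q i).C : ZMod p))).eval
      ((t : ℤ) : ZMod p) = ((∏ i, (q i).ev t 1 : ℤ) : ZMod p) := by
    rw [eval_prod, Int.cast_prod]
    refine Finset.prod_congr rfl fun i _ => ?_
    unfold BQ.ev
    simp only [eval_add, eval_mul, eval_C, eval_X, eval_pow, Int.cast_id, mul_one, one_pow]
    push_cast
    ring
  rw [he] at hx0 hxs
  have hN : ¬ (p : ℤ) ∣ D * ∏ i, (q i).ev t 1 := by
    intro h1
    rcases (Nat.prime_iff_prime_int.1 (Fact.out : p.Prime)).dvd_or_dvd h1 with h2 | h2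
    · exact hD h2
    · exact hx0 ((ZMod.intCast_zmod_eq_zero_iff_dvd _ p).2 h2)
  have hs : IsSquare ((D * ∏ i, (q i).ev t 1 : ℤ) : ZMod p) := by
    rw [Int.cast_mul]
    exact hxs
  obtain ⟨z, hz⟩ := EL.hens_sq_odd p hg.two _ hN hs
  have hD0 : (D : ℚ_[p]) ≠ 0 := by
    intro h1
    have h2 : D = 0 := by exact_mod_cast h1
    exact hD (h2 ▸ dvd_zero _)
  refine ⟨(t : ℚ_[p]), 1, (z : ℚ_[p]) / D, fun h1 => one_ne_zero h1.2, ?_⟩
  have hz2 : (z : ℚ_[p]) ^ 2 = (D : ℚ_[p]) * ((∏ i, (q i).ev t 1 : ℤ) : ℚ_[p]) := by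
    have h1 : ((z ^ 2 : ℤ_[p]) : ℚ_[p]) = (((D * ∏ i, (q i).ev t 1 : ℤ) : ℤ_[p]) : ℚ_[p]) := by rw [hz]
    rw [PadicInt.coe_pow, PadicInt.coe_intCast, Int.cast_mul] at h1
    exact h1
  have h3 : ((∏ i, (q i).ev t 1 : ℤ) : ℚ_[p]) = ∏ i, (q i).ev (t : ℚ_[p]) 1 := by
    rw [Int.cast_prod]
    refine Finset.prod_congr rfl fun i _ => ?_
    have h4 := BQ.ev_map (Int.castRingHom ℚ_[p]) (q i) t 1
    simpa only [eq_intCast, Int.cast_one] using h4
  rw [← h3, div_pow, hz2]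
  field_simp

end ZS
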