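import Pool.Agent.Lib.MP_1ad228_ntTS.L1
import Pool.Agent.Lib.MP_1ad228_nt.ZHodd

/-! LEAF L2 (medium-).  Local points on the twist by `D0 * m`.  (All three theorems; model: `Pool/Agent/Lib/MP_10e784_ag/EL/ELLoc.lean`, `local_sol`.)

`split_point`: `p ∤ Rb q` is odd and prime to `d = (q i).disc` and to `(q i).A` (`good_of_not_dvd`); `ZC.isSquare_int_iff` gives `s` with `s² = d` in `ℚ_[p]`; the point is `x = s - B`, `z = 2 A ≠ 0`, `w = 0`: `BQ.root_self`, so the product over `j` is `0`.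
`twist_sq`: `(D0 m) (w / s)² = D0 w²`.
`local_sol`: `P0` from `good_point`, `Q = 8 * Rb q * P0 !` (`Gen.Rb`).  Real place: `m > 0`, `s = √m`.  `p ∣ Q * |D0|`: `m` is a nonzero square in `ℚ_[p]` by `EL.hens_sq` for the modulus `Q * D0.natAbs` (divisible by `8`), `twist_sq`.  `p ∤ Q * |D0|`, `p ∣ m`: `p ∈ RS q`, `split_point` for `D0 * m`.
`p ∤ Q * |D0|`, `p ∤ m`: `p > P0` (otherwise `p ∣ P0 !`), `good_point`. -/

set_option autoImplicit false

namespace ZS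

open Finset ZG

theorem split_point {k : ℕ} (q : Fin k → BQ) (p : ℕ) [Fact p.Prime] (h : ¬ p ∣ Rb q) (i : Fin k)
    (hi : jacobiSym (q i).disc p = 1) (D : ℤ) : HasPoint ℚ_[p] q D := by
  have hG := good_of_not_dvd q h
  have h1 : IsSquare (((q i).disc : ℤ) : ℚ_[p]) := (ZC.isSquare_int_iff hG.two _ (hG.disc i)).2 hi
  obtain ⟨s, hs⟩ := h1
  have hA : ((q i).A : ℚ_[p]) ≠ 0 := by
    intro h0
    have h2 : (q i).A = 0 := by exact_mod_cast h0
    exact hG.A i (by rw [h2]; exact dvd_zero _)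
  refine ⟨s - (q i).B, 2 * (q i).A, 0, ?_, ?_⟩
  · rintro ⟨-, h2⟩
    exact mul_ne_zero two_ne_zero hA h2
  · have h3 : (q i).ev (s - ((q i).B : ℚ_[p])) (2 * ((q i).A : ℚ_[p])) = 0 := by
      unfold BQ.ev
      unfold BQ.disc at hs
      push_cast at hs
      linear_combination (-((q i).A : ℚ_[p])) * hs
    rw [Finset.prod_eq_zero (Finset.mem_univ i) h3]
    ring

theorem twist_sq (F : Type) [Field F] {k : ℕ} (q : Fin k → BQ) (D0 : ℤ) (m : ℕ) (s : F) (hs : s ^ 2 = (m : F)) (hs0 : s ≠ 0)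
    (h : HasPoint F q D0) : HasPoint F q (D0 * m) := by
  obtain ⟨x, z, w, h1, h2⟩ := h
  refine ⟨x, z, w / s, h1, ?_⟩
  rw [← h2]
  push_cast
  rw [← hs]
  field_simp

theorem local_sol {k : ℕ} {q : Fin k → BQ} (hq : Gen q) : ∃ Q : ℕ, Q ≠ 0 ∧ ∀ D0 : ℤ, D0 ≠ 0 → ELS q D0 → ∀ m : ℕ, m ≠ 0 →
    m.Coprime (Q * D0.natAbs) → IsSquare (m : ZMod (Q * D0.natAbs)) → (∀ p : ℕ, p.Prime → p ∣ m → p ∈ RS q) →
    ELS q (D0 * m) := by
  obtain ⟨P0, hP0⟩ := good_point hq.pos q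
  have hRb : Rb q ≠ 0 := hq.Rb
  refine ⟨8 * Rb q * P0.factorial, mul_ne_zero (mul_ne_zero (by norm_num) hRb) (Nat.factorial_ne_zero _), ?_⟩
  intro D0 hD0 hels m hm hcop hsq hRP
  refine ⟨?_, ?_⟩
  · have hm0 : (0 : ℝ) < m := by exact_mod_cast Nat.pos_of_ne_zero hm
    exact twist_sq ℝ q D0 m (Real.sqrt m) (Real.sq_sqrt hm0.le) (Real.sqrt_pos.2 hm0).ne' hels.1
  intro p hp
  have hpp : p.Prime := hp.out
  have hmp : (m : ℚ_[p]) ≠ 0 := by exact_mod_cast hm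
  by_cases hA : p ∣ 8 * Rb q * P0.factorial * D0.natAbs
  · obtain ⟨z, hz⟩ := EL.hens_sq p (8 * Rb q * P0.factorial * D0.natAbs) m
      (Dvd.intro (Rb q * P0.factorial * D0.natAbs) (by ring)) hA hcop hsq
    have hz' : (z : ℚ_[p]) ^ 2 = (m : ℚ_[p]) := by exact_mod_cast congrArg (fun t : ℤ_[p] => (t : ℚ_[p])) hz
    have hz0 : (z : ℚ_[p]) ≠ 0 := by
      intro h0
      rw [h0] at hz'
      exact hmp (by rw [← hz']; ring)
    exact twist_sq ℚ_[p] q D0 m z hz' hz0 (hels.2 p)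
  have hpQ : ¬ p ∣ 8 * Rb q * P0.factorial := fun h => hA (Dvd.dvd.mul_right h _)
  have hpD0 : ¬ p ∣ D0.natAbs := fun h => hA (Dvd.dvd.mul_left h _)
  have hpR : ¬ p ∣ Rb q := fun h => hpQ (Dvd.dvd.mul_right (Dvd.dvd.mul_left h 8) _)
  have hpP0 : ¬ p ∣ P0.factorial := fun h => hpQ (Dvd.dvd.mul_left h _)
  by_cases hB : p ∣ m
  · obtain ⟨-, i, hi⟩ := hRP p hpp hB
    exact split_point q p hpR i hi (D0 * m)
  · have hpP : P0 ≤ p := by
      by_contra hlt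
      exact hpP0 ((Nat.Prime.dvd_factorial hpp).2 (by omega))
    refine hP0 p hpP hpR (D0 * m) ?_
    intro h
    rcases (Nat.prime_iff_prime_int.1 hpp).dvd_or_dvd h with h | h
    · exact hpD0 (Int.natCast_dvd.1 h)
    · exact hB (by exact_mod_cast h)

end ZS
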