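import Pool.Agent.Lib.MP_1ad228_ntTS.Defs
import Pool.Agent.Lib.MP_10e784_ag.EL.ELSm
import Pool.Agent.Lib.MP_10e784_ag.EL.ELCheb

/-! LEAF L3 (medium, copy).  Many squarefree numbers composed of primes in `RS q`, which are squares modulo `Q`.

Copy of `Pool/Agent/Lib/MP_10e784_ag/EL/ELComb.lean` (`comb` with its private lemmas, renamed; they are stated there for an arbitrary set `R` of primes) with `RP g` replaced by `RS q` and `TT g y` by `PT.PS (PT.ind (RS q)) y`.  The only change: the set `S` of primes comes from `EL.cheb` for the one polynomial `X ^ 2 - C (q i0).disc`, `i0 = ⟨0, Gen.pos⟩`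
(family over `Unit`; irreducible over `ℚ` because `(q i0).disc` is not a square in `ℤ`, hence not in `ℚ`) and the modulus `Q`; for `p ∈ S` with `p ∤ 2 (q i0).disc` there are `2` roots of `X² - disc` modulo `p`, so `disc` is a nonzero square modulo `p` and `jacobiSym (q i0).disc p = 1`, `p ∈ RS q`; replace `S` by
`{p ∈ S | ¬ p ∣ 2 (q i0).disc}` (finitely many primes are removed: change the constants `c`, `x0`). -/

set_option autoImplicit false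

namespace ZS

open Finset ZG

private theorem L3_a0 (R : Set ℕ) (Q : ℕ) : ∃ a0 : ZMod Q → ℕ,
    (∀ κ, Squarefree (a0 κ) ∧ (a0 κ).Coprime Q ∧ ∀ p : ℕ, p.Prime → p ∣ a0 κ → p ∈ R) ∧
    ∀ b : ℕ, Squarefree b → b.Coprime Q → (∀ p : ℕ, p.Prime → p ∣ b → p ∈ R) →
      IsSquare ((a0 (b : ZMod Q) : ZMod Q) * b) := by
  classical
  have key : ∀ κ : ZMod Q, ∃ a : ℕ, (Squarefree a ∧ a.Coprime Q ∧ ∀ p : ℕ, p.Prime → p ∣ a → p ∈ R) ∧
      ((∃ b : ℕ, Squarefree b ∧ b.Coprime Q ∧ (∀ p : ℕ, p.Prime → p ∣ b → p ∈ R) ∧ (b : ZMod Q) = κ) →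
        IsSquare ((a : ZMod Q) * κ)) := by
    intro κ
    by_cases h : ∃ b : ℕ, Squarefree b ∧ b.Coprime Q ∧ (∀ p : ℕ, p.Prime → p ∣ b → p ∈ R) ∧ (b : ZMod Q) = κ
    · obtain ⟨b, h1, h2, h3, h4⟩ := h
      exact ⟨b, ⟨h1, h2, h3⟩, fun _ => ⟨κ, by rw [h4]⟩⟩
    · exact ⟨1, ⟨squarefree_one, Nat.coprime_one_left Q,
        fun p hp hp1 => absurd (Nat.dvd_one.mp hp1) hp.one_lt.ne'⟩, fun h' => absurd h' h⟩
  choose a0 h1 h2 using key
  exact ⟨a0, h1, fun b hb1 hb2 hb3 => h2 b ⟨b, hb1, hb2, hb3, rfl⟩⟩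

open Classical in
private theorem L3_core (R S : Set ℕ) (Q R0 : ℕ) (hR0 : R0 ≠ 0) (hQR : Q ∣ R0) (a0 : ZMod Q → ℕ)
    (ha1 : ∀ κ, Squarefree (a0 κ) ∧ (a0 κ).Coprime Q ∧ ∀ p : ℕ, p.Prime → p ∣ a0 κ → p ∈ R)
    (ha2 : ∀ b : ℕ, Squarefree b → b.Coprime Q → (∀ p : ℕ, p.Prime → p ∣ b → p ∈ R) →
      IsSquare ((a0 (b : ZMod Q) : ZMod Q) * b))
    (haR : ∀ κ, a0 κ ∣ R0)
    (hS : ∀ p ∈ S, p.Prime ∧ (p : ZMod Q) = 1 ∧ p ∈ R) (y z : ℝ) (M0 : ℕ) (hy : 0 ≤ y) (hz : ⌊z⌋₊ ≤ M0)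
    (hM : R0 ≤ M0) :
    ∑ b ∈ (Icc 1 ⌊z⌋₊).filter (fun b => Squarefree b ∧ ∀ p : ℕ, p.Prime → p ∣ b → p ∈ {p | p ∈ R ∧ ¬ p ∣ R0}),
      ((Icc 1 ⌊y / (R0 * b)⌋₊).filter (fun p => p ∈ S ∧ M0 < p)).card ≤
    Nat.card {m : ℕ // (m : ℝ) ≤ y ∧ Squarefree m ∧ m.Coprime Q ∧ IsSquare (m : ZMod Q) ∧
        ∀ p : ℕ, p.Prime → p ∣ m → p ∈ R} := by
  rw [← Finset.card_sigma]
  rw [Nat.subtype_card ((Icc 0 ⌊y⌋₊).filter (fun m : ℕ => Squarefree m ∧ m.Coprime Q ∧ IsSquare (m : ZMod Q) ∧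
        ∀ p : ℕ, p.Prime → p ∣ m → p ∈ R)) (by
      intro m
      simp only [Finset.mem_filter, Finset.mem_Icc, Nat.zero_le, true_and]
      rw [Nat.le_floor_iff hy])]
  have hb0 : ∀ b : ℕ, (∀ p : ℕ, p.Prime → p ∣ b → p ∈ {p | p ∈ R ∧ ¬ p ∣ R0}) → b.Coprime R0 := by
    intro b hb
    exact Nat.coprime_of_dvd fun k hk h1 h2 => (hb k hk h1).2 h2
  have hprime : ∀ (b p : ℕ), 0 < b → b ≤ ⌊z⌋₊ → M0 < p → p.Prime → ¬ p ∣ a0 (b : ZMod Q) * b := by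
    intro b p hb1 hb2 hp1 hp2 h
    rcases (Nat.Prime.dvd_mul hp2).mp h with h | h
    · have h3 := Nat.le_of_dvd (Nat.pos_of_ne_zero hR0) (h.trans (haR _))
      omega
    · have h3 := Nat.le_of_dvd hb1 h
      omega
  refine Finset.card_le_card_of_injOn (fun bp : (Σ _ : ℕ, ℕ) => a0 (bp.1 : ZMod Q) * bp.1 * bp.2) ?_ ?_
  · rintro ⟨b, p⟩ h
    simp only [Finset.mem_coe, Finset.mem_sigma, Finset.mem_filter, Finset.mem_Icc] at h
    obtain ⟨⟨⟨hb1, hb2⟩, hb3, hb4⟩, ⟨hp1, hp2⟩, hp3, hp4⟩ := h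
    have hcR : b.Coprime R0 := hb0 b hb4
    have hcQ : b.Coprime Q := Nat.Coprime.coprime_dvd_right hQR hcR
    have hbR : ∀ q : ℕ, q.Prime → q ∣ b → q ∈ R := fun q hq1 hq2 => (hb4 q hq1 hq2).1
    have hsq := ha2 b hb3 hcQ hbR
    have ha := ha1 (b : ZMod Q)
    have hp := hS p hp3
    have hnd := hprime b p hb1 hb2 hp4 hp.1
    have hcop : (a0 (b : ZMod Q) * b).Coprime p := ((Nat.Prime.coprime_iff_not_dvd hp.1).mpr hnd).symm
    have hab : (a0 (b : ZMod Q)).Coprime b := (Nat.Coprime.coprime_dvd_right (haR _) hcR).symm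
    have hp2' : (p : ℝ) ≤ y / (R0 * b) := (Nat.le_floor_iff (by positivity)).mp hp2
    have hR1 : (0 : ℝ) < R0 := by exact_mod_cast Nat.pos_of_ne_zero hR0
    have hb1' : (0 : ℝ) < b := by exact_mod_cast hb1
    have haRr : (a0 (b : ZMod Q) : ℝ) ≤ R0 := by
      exact_mod_cast Nat.le_of_dvd (Nat.pos_of_ne_zero hR0) (haR _)
    simp only [Finset.coe_filter, Set.mem_ofPred_eq, Finset.mem_Icc, Nat.zero_le, true_and]
    refine ⟨?_, ?_, ?_, ?_, ?_⟩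
    · rw [Nat.le_floor_iff hy]
      push_cast
      rw [le_div_iff₀ (by positivity)] at hp2'
      calc (a0 (b : ZMod Q) : ℝ) * b * p ≤ R0 * b * p := by gcongr
        _ = p * (R0 * b) := by ring
        _ ≤ y := hp2'
    · rw [Nat.squarefree_mul_iff]
      refine ⟨hcop, ?_, hp.1.squarefree⟩
      rw [Nat.squarefree_mul_iff]
      exact ⟨hab, ha.1, hb3⟩
    · refine Nat.Coprime.mul_left (Nat.Coprime.mul_left ha.2.1 hcQ) ?_
      rw [Nat.Prime.coprime_iff_not_dvd hp.1]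
      intro h
      have h3 := Nat.le_of_dvd (Nat.pos_of_ne_zero hR0) (h.trans hQR)
      omega
    · push_cast
      rw [hp.2.1, mul_one]
      exact hsq
    · intro q hq hqm
      rcases (Nat.Prime.dvd_mul hq).mp hqm with h | h
      · rcases (Nat.Prime.dvd_mul hq).mp h with h | h
        · exact ha.2.2 q hq h
        · exact hbR q hq h
      · rw [(Nat.prime_dvd_prime_iff_eq hq hp.1).mp h]
        exact hp.2.2
  · rintro ⟨b, p⟩ h ⟨b', p'⟩ h' heq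
    simp only [Finset.mem_coe, Finset.mem_sigma, Finset.mem_filter, Finset.mem_Icc] at h h'
    obtain ⟨⟨⟨hb1, hb2⟩, hb3, hb4⟩, ⟨hp1, hp2⟩, hp3, hp4⟩ := h
    obtain ⟨⟨⟨hb1', hb2'⟩, hb3', hb4'⟩, ⟨hp1', hp2'⟩, hp3', hp4'⟩ := h'
    simp only at heq
    have hp := (hS p hp3).1
    have hp' := (hS p' hp3').1
    have hpp : p = p' := by
      have h1 : p ∣ a0 (b' : ZMod Q) * b' * p' := by rw [← heq]; exact Dvd.intro_left _ rfl
      rcases (Nat.Prime.dvd_mul hp).mp h1 with h | h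
      · exact absurd h (hprime b' p hb1' hb2' hp4 hp)
      · exact (Nat.prime_dvd_prime_iff_eq hp hp').mp h
    subst hpp
    have h2 : a0 (b : ZMod Q) * b = a0 (b' : ZMod Q) * b' := Nat.eq_of_mul_eq_mul_right hp.pos heq
    have hbb : b = b' := by
      apply Nat.dvd_antisymm
      · have h3 : b ∣ a0 (b' : ZMod Q) * b' := by rw [← h2]; exact Dvd.intro_left _ rfl
        exact Nat.Coprime.dvd_of_dvd_mul_left (Nat.Coprime.coprime_dvd_right (haR _) (hb0 b hb4)) h3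
      · have h3 : b' ∣ a0 (b : ZMod Q) * b := by rw [h2]; exact Dvd.intro_left _ rfl
        exact Nat.Coprime.dvd_of_dvd_mul_left (Nat.Coprime.coprime_dvd_right (haR _) (hb0 b' hb4')) h3
    subst hbb
    rfl

open Classical in
private theorem L3_W (S : Set ℕ) (c x L : ℝ) (M0 : ℕ) (hx : 0 ≤ x) (hc : 0 < c) (hx2 : 2 ≤ x)
    (hL : Real.log x ≤ L)
    (h : c * x / Real.log x ≤ (Nat.card {p : ℕ // p ∈ S ∧ (p : ℝ) ≤ x} : ℝ)) (hS : ∀ p ∈ S, p.Prime) :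
    c * x / L - M0 ≤ (((Icc 1 ⌊x⌋₊).filter (fun p => p ∈ S ∧ M0 < p)).card : ℝ) := by
  have hlog : 0 < Real.log x := Real.log_pos (by linarith)
  have h1 : c * x / L ≤ c * x / Real.log x := by
    apply div_le_div_of_nonneg_left _ hlog hL
    positivity
  have h2 : Nat.card {p : ℕ // p ∈ S ∧ (p : ℝ) ≤ x} = ((Icc 1 ⌊x⌋₊).filter (fun p => p ∈ S)).card := by
    apply Nat.subtype_card
    intro p
    simp only [Finset.mem_filter, Finset.mem_Icc]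
    constructor
    · rintro ⟨⟨h3, h4⟩, h5⟩
      exact ⟨h5, (Nat.le_floor_iff hx).mp h4⟩
    · rintro ⟨h5, h4⟩
      exact ⟨⟨(hS p h5).one_lt.le, (Nat.le_floor_iff hx).mpr h4⟩, h5⟩
  have h3 : ((Icc 1 ⌊x⌋₊).filter (fun p => p ∈ S)).card ≤
      ((Icc 1 ⌊x⌋₊).filter (fun p => p ∈ S ∧ M0 < p)).card + M0 := by
    calc ((Icc 1 ⌊x⌋₊).filter (fun p => p ∈ S)).card
        ≤ (((Icc 1 ⌊x⌋₊).filter (fun p => p ∈ S ∧ M0 < p)) ∪ Icc 1 M0).card := by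
          apply Finset.card_le_card
          intro p hp
          simp only [Finset.mem_filter, Finset.mem_Icc, Finset.mem_union] at hp ⊢
          by_cases h4 : M0 < p
          · exact Or.inl ⟨hp.1, hp.2, h4⟩
          · exact Or.inr ⟨hp.1.1, not_lt.mp h4⟩
      _ ≤ ((Icc 1 ⌊x⌋₊).filter (fun p => p ∈ S ∧ M0 < p)).card + (Icc 1 M0).card := Finset.card_union_le _ _
      _ = _ := by simp
  have h4 : (((Icc 1 ⌊x⌋₊).filter (fun p => p ∈ S)).card : ℝ) ≤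
      (((Icc 1 ⌊x⌋₊).filter (fun p => p ∈ S ∧ M0 < p)).card : ℝ) + M0 := by exact_mod_cast h3
  rw [h2] at h
  linarith

private theorem L3_large (c R0 x0 : ℝ) (hc : 0 < c) (hR0 : 1 ≤ R0) : ∃ y0 : ℝ, 16 ≤ y0 ∧ ∀ y : ℝ, y0 ≤ y →
    R0 + 1 ≤ y ^ (1 / 2 : ℝ) ∧ x0 ≤ y ^ (3 / 4 : ℝ) / R0 ∧
    y ^ (1 / 2 : ℝ) ≤ c / 2 * (y ^ (3 / 4 : ℝ) / R0) / Real.log y := by
  have h1 : ∀ᶠ y : ℝ in Filter.atTop, R0 + 1 ≤ y ^ (1 / 2 : ℝ) :=
    (tendsto_rpow_atTop (by norm_num : (0 : ℝ) < 1 / 2)).eventually_ge_atTop _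
  have h2 : ∀ᶠ y : ℝ in Filter.atTop, x0 * R0 ≤ y ^ (3 / 4 : ℝ) :=
    (tendsto_rpow_atTop (by norm_num : (0 : ℝ) < 3 / 4)).eventually_ge_atTop _
  have h3 : ∀ᶠ y : ℝ in Filter.atTop, ‖Real.log y‖ ≤ (c / (2 * R0)) * ‖y ^ (1 / 4 : ℝ)‖ :=
    (isLittleO_log_rpow_atTop (by norm_num : (0 : ℝ) < 1 / 4)).def (by positivity)
  obtain ⟨y1, hy1⟩ := Filter.eventually_atTop.mp (h1.and (h2.and h3))
  refine ⟨max 16 y1, le_max_left _ _, fun y hy => ?_⟩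
  have hy16 : 16 ≤ y := (le_max_left _ _).trans hy
  obtain ⟨g1, g2, g3⟩ := hy1 y ((le_max_right _ _).trans hy)
  have hy0 : 0 < y := by linarith
  have hlog : 0 < Real.log y := Real.log_pos (by linarith)
  refine ⟨g1, ?_, ?_⟩
  · rw [le_div_iff₀ (by linarith)]
    exact g2
  · rw [le_div_iff₀ hlog]
    rw [Real.norm_of_nonneg hlog.le, Real.norm_of_nonneg (by positivity)] at g3
    calc y ^ (1 / 2 : ℝ) * Real.log y ≤ y ^ (1 / 2 : ℝ) * ((c / (2 * R0)) * y ^ (1 / 4 : ℝ)) := by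
          gcongr
      _ = (c / (2 * R0)) * (y ^ (1 / 2 : ℝ) * y ^ (1 / 4 : ℝ)) := by ring
      _ = (c / (2 * R0)) * y ^ (3 / 4 : ℝ) := by
          rw [← Real.rpow_add hy0]; norm_num
      _ = c / 2 * (y ^ (3 / 4 : ℝ) / R0) := by
          field_simp

private theorem L3_irr {d : ℤ} (hd : ¬ IsSquare d) :
    Irreducible ((Polynomial.X ^ 2 - Polynomial.C d : Polynomial ℤ).map (Int.castRingHom ℚ)) := by
  rw [Polynomial.map_sub, Polynomial.map_pow, Polynomial.map_X, Polynomial.map_C]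
  refine X_pow_sub_C_irreducible_of_prime Nat.prime_two ?_
  intro b hb
  apply hd
  rw [← Rat.isSquare_intCast_iff]
  exact ⟨b, by rw [← sq, hb]; rfl⟩

private theorem L3_rt {d : ℤ} {p : ℕ} (hp : p.Prime) (hpd : ¬ p ∣ d.natAbs)
    (h : 1 ≤ PT.rt (Polynomial.X ^ 2 - Polynomial.C d) p) : jacobiSym d p = 1 := by
  have hF : Fact p.Prime := ⟨hp⟩
  unfold PT.rt at h
  have hne : Nonempty {ρ : ZMod p // ((Polynomial.X ^ 2 - Polynomial.C d : Polynomial ℤ).map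
      (Int.castRingHom (ZMod p))).eval ρ = 0} := by
    by_contra hcon
    rw [not_nonempty_iff] at hcon
    rw [Nat.card_of_isEmpty] at h
    omega
  obtain ⟨ρ, hρ⟩ := hne
  rw [Polynomial.map_sub, Polynomial.map_pow, Polynomial.map_X, Polynomial.map_C, Polynomial.eval_sub,
    Polynomial.eval_pow, Polynomial.eval_X, Polynomial.eval_C, sub_eq_zero] at hρ
  have hd0 : (d : ZMod p) ≠ 0 := by
    intro h0
    rw [ZMod.intCast_zmod_eq_zero_iff_dvd] at h0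
    exact hpd (Int.natCast_dvd.1 h0)
  rw [← jacobiSym.legendreSym.to_jacobiSym, legendreSym.eq_one_iff p hd0]
  exact ⟨ρ, by rw [← sq, hρ]; rfl⟩

private theorem L3_cheb {k : ℕ} {q : Fin k → BQ} (hq : Gen q) (Q : ℕ) (hQ : Q ≠ 0) :
    ∃ (S : Set ℕ) (c x0 : ℝ), 0 < c ∧ 2 ≤ x0 ∧
      (∀ p ∈ S, p.Prime ∧ (p : ZMod Q) = 1 ∧ p ∈ RS q) ∧
      ∀ x : ℝ, x0 ≤ x → c * x / Real.log x ≤ (Nat.card {p : ℕ // p ∈ S ∧ (p : ℝ) ≤ x} : ℝ) := by
  classical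
  let i0 : Fin k := ⟨0, hq.pos⟩
  obtain ⟨S, c1, x0, hc1, hx0, hS, hcheb⟩ := EL.cheb
    (fun i : Fin k => (Polynomial.X ^ 2 - Polynomial.C (q i).disc : Polynomial ℤ)) (fun i => L3_irr (hq.sq i)) Q hQ
  have hD0 : (q i0).disc.natAbs ≠ 0 := Int.natAbs_ne_zero.2 (hq.disc i0)
  have h3 : ∀ᶠ x : ℝ in Filter.atTop,
      ‖Real.log x‖ ≤ (c1 / (2 * ((q i0).disc.natAbs + 1))) * ‖x‖ :=
    Real.isLittleO_log_id_atTop.def (by positivity)
  obtain ⟨x1, hx1⟩ := Filter.eventually_atTop.mp h3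
  obtain ⟨S', hmem⟩ : ∃ S' : Set ℕ, ∀ p, p ∈ S' ↔ (p ∈ S ∧ ¬ p ∣ (q i0).disc.natAbs) :=
    ⟨{p | p ∈ S ∧ ¬ p ∣ (q i0).disc.natAbs}, fun _ => Iff.rfl⟩
  refine ⟨S', c1 / 2, max x0 x1, by linarith, le_max_of_le_left hx0, ?_, ?_⟩
  · intro p hpS
    obtain ⟨hp1, hp2⟩ := (hmem p).1 hpS
    obtain ⟨h1, h2, h4⟩ := hS p hp1
    refine ⟨h1, h2, h1, i0, L3_rt h1 hp2 ?_⟩
    have h5 := h4 i0
    have h6 : (Polynomial.X ^ 2 - Polynomial.C (q i0).disc : Polynomial ℤ).natDegree = 2 :=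
      Polynomial.natDegree_X_pow_sub_C
    rw [h6] at h5
    rw [h5]
    norm_num
  · intro x hx
    have hxx0 : x0 ≤ x := (le_max_left _ _).trans hx
    have hx2 : 2 ≤ x := hx0.trans hxx0
    have hlog : 0 < Real.log x := Real.log_pos (by linarith)
    have g3 := hx1 x ((le_max_right _ _).trans hx)
    rw [Real.norm_of_nonneg hlog.le, Real.norm_of_nonneg (by linarith)] at g3
    have hc := hcheb x hxx0
    have hfin : ∀ S' : Set ℕ, (∀ p ∈ S', p.Prime) → Nat.card {p : ℕ // p ∈ S' ∧ (p : ℝ) ≤ x} =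
        ((Icc 1 ⌊x⌋₊).filter (fun p => p ∈ S')).card := by
      intro S' hS'
      apply Nat.subtype_card
      intro p
      simp only [Finset.mem_filter, Finset.mem_Icc]
      constructor
      · rintro ⟨⟨h3, h4⟩, h5⟩
        exact ⟨h5, (Nat.le_floor_iff (by linarith)).mp h4⟩
      · rintro ⟨h5, h4⟩
        exact ⟨⟨(hS' p h5).one_lt.le, (Nat.le_floor_iff (by linarith)).mpr h4⟩, h5⟩
    rw [hfin S fun p hp => (hS p hp).1] at hc
    rw [hfin S' fun p hp => (hS p ((hmem p).1 hp).1).1]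
    have h5 : ((Icc 1 ⌊x⌋₊).filter (fun p => p ∈ S)).card ≤
        ((Icc 1 ⌊x⌋₊).filter (fun p => p ∈ S')).card + (q i0).disc.natAbs := by
      calc ((Icc 1 ⌊x⌋₊).filter (fun p => p ∈ S)).card
          ≤ (((Icc 1 ⌊x⌋₊).filter (fun p => p ∈ S')) ∪
              Icc 1 (q i0).disc.natAbs).card := by
            apply Finset.card_le_card
            intro p hp
            rw [Finset.mem_filter] at hp
            rw [Finset.mem_union]
            by_cases h4 : p ∣ (q i0).disc.natAbs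
            · exact Or.inr (Finset.mem_Icc.2 ⟨(Finset.mem_Icc.1 hp.1).1,
                Nat.le_of_dvd (Nat.pos_of_ne_zero hD0) h4⟩)
            · exact Or.inl (Finset.mem_filter.2 ⟨hp.1, (hmem p).2 ⟨hp.2, h4⟩⟩)
        _ ≤ _ := Finset.card_union_le _ _
        _ = _ := by rw [Nat.card_Icc, Nat.add_sub_cancel]
    have h6 : (((Icc 1 ⌊x⌋₊).filter (fun p => p ∈ S)).card : ℝ) ≤
        (((Icc 1 ⌊x⌋₊).filter (fun p => p ∈ S')).card : ℝ) +
          ((q i0).disc.natAbs : ℝ) := by exact_mod_cast h5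
    have h7 : ((q i0).disc.natAbs : ℝ) ≤ c1 / 2 * x / Real.log x := by
      rw [le_div_iff₀ hlog]
      have h8 : (0 : ℝ) ≤ ((q i0).disc.natAbs : ℝ) := Nat.cast_nonneg _
      calc ((q i0).disc.natAbs : ℝ) * Real.log x ≤ ((q i0).disc.natAbs + 1) * Real.log x := by nlinarith
        _ ≤ ((q i0).disc.natAbs + 1) * (c1 / (2 * ((q i0).disc.natAbs + 1)) * x) := by gcongr
        _ = c1 / 2 * x := by field_simp
    have h9 : c1 * x / Real.log x = c1 / 2 * x / Real.log x + c1 / 2 * x / Real.log x := by ring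
    linarith

theorem combS {k : ℕ} {q : Fin k → BQ} (hq : Gen q) (Q : ℕ) (hQ : Q ≠ 0) :
    ∃ c y0 : ℝ, 0 < c ∧ 2 ≤ y0 ∧ ∀ y : ℝ, y0 ≤ y → c * (y / Real.log y) * Real.exp (PT.PS (PT.ind (RS q)) y) ≤
      (Nat.card {m : ℕ // (m : ℝ) ≤ y ∧ Squarefree m ∧ m.Coprime Q ∧ IsSquare (m : ZMod Q) ∧
        ∀ p : ℕ, p.Prime → p ∣ m → p ∈ RS q} : ℝ) := by
  classical
  have : NeZero Q := ⟨hQ⟩
  obtain ⟨a0, ha1, ha2⟩ := L3_a0 (RS q) Q
  obtain ⟨S, c1, x0, hc1, hx0, hS, hcheb⟩ := L3_cheb hq Q hQ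
  obtain ⟨c2, hc2, hsm⟩ := EL.smooth
  obtain ⟨A2, hA2, hpow⟩ := EL.ps_pow
  set R0 : ℕ := Q * ∏ κ : ZMod Q, a0 κ with hR0def
  have ha0 : ∀ κ, a0 κ ≠ 0 := fun κ => (ha1 κ).1.ne_zero
  have hR0 : R0 ≠ 0 := mul_ne_zero hQ (Finset.prod_ne_zero_iff.mpr fun κ _ => ha0 κ)
  have hQR : Q ∣ R0 := Dvd.intro _ rfl
  have haR : ∀ κ, a0 κ ∣ R0 := fun κ => (Finset.dvd_prod_of_mem a0 (Finset.mem_univ κ)).trans (Dvd.intro_left _ rfl)
  have hR1 : (1 : ℝ) ≤ R0 := by exact_mod_cast Nat.one_le_iff_ne_zero.mpr hR0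
  have hS' : ∀ p ∈ S, p.Prime ∧ (p : ZMod Q) = 1 ∧ p ∈ RS q := by
    intro p hp
    exact hS p hp
  obtain ⟨y0, hy0, hlarge⟩ := L3_large c1 R0 x0 hc1 hR1
  refine ⟨c1 / (2 * R0) * c2 * Real.exp (-(Real.log 4 + A2 + R0)), y0, by positivity, by linarith, ?_⟩
  intro y hy
  obtain ⟨g1, g2, g3⟩ := hlarge y hy
  have hy16 : 16 ≤ y := by linarith
  have hypos : 0 < y := by linarith
  have hlogy : 0 < Real.log y := Real.log_pos (by linarith)
  set z : ℝ := y ^ (1 / 4 : ℝ) with hzdef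
  have hz2 : 2 ≤ z := by
    have h1 : (2 : ℝ) = (16 : ℝ) ^ (1 / 4 : ℝ) := by
      rw [show (16 : ℝ) = 2 ^ (4 : ℝ) by norm_num, ← Real.rpow_mul (by norm_num)]
      norm_num
    rw [h1]
    exact Real.rpow_le_rpow (by norm_num) hy16 (by norm_num)
  have hz4 : z ^ (4 : ℝ) = y := by
    rw [hzdef, ← Real.rpow_mul hypos.le]
    norm_num
  set M0 : ℕ := ⌊y ^ (1 / 2 : ℝ)⌋₊ with hM0def
  have hzM : ⌊z⌋₊ ≤ M0 := by
    apply Nat.floor_le_floor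
    exact Real.rpow_le_rpow_of_exponent_le (by linarith) (by norm_num)
  have hRM : R0 ≤ M0 := by
    rw [hM0def, Nat.le_floor_iff (by positivity)]
    linarith
  have hM0 : (M0 : ℝ) ≤ y ^ (1 / 2 : ℝ) := Nat.floor_le (by positivity)
  have hcore := L3_core (RS q) S Q R0 hR0 hQR a0 ha1 ha2 haR hS' y z M0 hypos.le hzM hRM
  have hcore' : ∑ b ∈ (Icc 1 ⌊z⌋₊).filter (fun b => Squarefree b ∧ ∀ p : ℕ, p.Prime → p ∣ b →
      p ∈ {p | p ∈ RS q ∧ ¬ p ∣ R0}), (((Icc 1 ⌊y / (R0 * b)⌋₊).filter (fun p => p ∈ S ∧ M0 < p)).card : ℝ) ≤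
      (Nat.card {m : ℕ // (m : ℝ) ≤ y ∧ Squarefree m ∧ m.Coprime Q ∧ IsSquare (m : ZMod Q) ∧
        ∀ p : ℕ, p.Prime → p ∣ m → p ∈ RS q} : ℝ) := by
    rw [← Nat.cast_sum]
    exact_mod_cast hcore
  refine le_trans ?_ hcore'
  have hterm : ∀ b ∈ (Icc 1 ⌊z⌋₊).filter (fun b => Squarefree b ∧ ∀ p : ℕ, p.Prime → p ∣ b →
      p ∈ {p | p ∈ RS q ∧ ¬ p ∣ R0}), c1 / (2 * R0) * (y / Real.log y) * ((1 : ℝ) / b) ≤
      (((Icc 1 ⌊y / (R0 * b)⌋₊).filter (fun p => p ∈ S ∧ M0 < p)).card : ℝ) := by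
    intro b hb
    simp only [Finset.mem_filter, Finset.mem_Icc] at hb
    have hb1 : (1 : ℝ) ≤ b := by exact_mod_cast hb.1.1
    have hbz : (b : ℝ) ≤ z := (Nat.le_floor_iff (by positivity)).mp hb.1.2
    have hxl : y ^ (3 / 4 : ℝ) / R0 ≤ y / (R0 * b) := by
      rw [div_le_div_iff₀ (by linarith) (by positivity)]
      have h1 : y = y ^ (3 / 4 : ℝ) * z := by
        rw [hzdef, ← Real.rpow_add hypos]; norm_num
      calc y ^ (3 / 4 : ℝ) * (R0 * b) = (y ^ (3 / 4 : ℝ) * b) * R0 := by ring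
        _ ≤ (y ^ (3 / 4 : ℝ) * z) * R0 := by gcongr
        _ = y * R0 := by rw [← h1]
    have hx0' : x0 ≤ y / (R0 * b) := g2.trans hxl
    have hx2 : 2 ≤ y / (R0 * b) := hx0.trans hx0'
    have hle : y / (R0 * b) ≤ y := by
      apply div_le_self hypos.le
      nlinarith
    have hW := L3_W S c1 (y / (R0 * b)) (Real.log y) M0 (by linarith) hc1 hx2
      (Real.log_le_log (by linarith) hle) (hcheb _ hx0') (fun p hp => (hS p hp).1)
    refine le_trans ?_ hW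
    have h3 : (M0 : ℝ) ≤ c1 / 2 * (y / (R0 * b)) / Real.log y := by
      refine hM0.trans (g3.trans ?_)
      gcongr
    have h4 : c1 / (2 * R0) * (y / Real.log y) * ((1 : ℝ) / b) = c1 / 2 * (y / (R0 * b)) / Real.log y := by
      have : (b : ℝ) ≠ 0 := by positivity
      have : (R0 : ℝ) ≠ 0 := by positivity
      field_simp
    rw [h4]
    have h5 : c1 * (y / (R0 * b)) / Real.log y =
      c1 / 2 * (y / (R0 * b)) / Real.log y + c1 / 2 * (y / (R0 * b)) / Real.log y := by ring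
    linarith
  refine le_trans ?_ (Finset.sum_le_sum hterm)
  rw [← Finset.mul_sum]
  have hs := hsm {p | p ∈ RS q ∧ ¬ p ∣ R0} z hz2
  have hd := EL.ps_del (RS q) R0 hR0 z
  have hpw := hpow (RS q) z 4 hz2 (by norm_num)
  rw [hz4] at hpw
  have hTT : PT.PS (PT.ind (RS q)) y ≤ PT.PS (PT.ind {p | p ∈ RS q ∧ ¬ p ∣ R0}) z + (Real.log 4 + A2 + R0) := by
    linarith
  have hexp : Real.exp (-(Real.log 4 + A2 + R0)) * Real.exp (PT.PS (PT.ind (RS q)) y) ≤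
      Real.exp (PT.PS (PT.ind {p | p ∈ RS q ∧ ¬ p ∣ R0}) z) := by
    rw [← Real.exp_add]
    apply Real.exp_le_exp.mpr
    linarith
  calc c1 / (2 * R0) * c2 * Real.exp (-(Real.log 4 + A2 + R0)) * (y / Real.log y) * Real.exp (PT.PS (PT.ind (RS q)) y)
      = c1 / (2 * R0) * (y / Real.log y) * (c2 * (Real.exp (-(Real.log 4 + A2 + R0)) * Real.exp (PT.PS (PT.ind (RS q)) y))) := by ring
    _ ≤ c1 / (2 * R0) * (y / Real.log y) * (c2 * Real.exp (PT.PS (PT.ind {p | p ∈ RS q ∧ ¬ p ∣ R0}) z)) := by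
        gcongr
    _ ≤ _ := by
        apply mul_le_mul_of_nonneg_left _ (by positivity)
        exact hs

end ZS
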