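import Pool.Agent.Lib.MP_1ad228_ntTS.B1
import Pool.Agent.Lib.MP_10e784_ag.PT.PTRtSum
import Pool.Agent.Lib.MP_10e784_ag.TW.TWRtLow
import Pool.Agent.Lib.MP_10e784_ag.QCharSum

/-! LEAF L4 (medium).  The sum of the reciprocals of the primes in `RS q` from below.  (Both theorems; `chi_two` is also a theorem of leaf L4 of the table tw1: if `TW1_L4.lean` is in the store, copy its proof.)

`chi_two`: for a nonsquare integer `b` let `G = X ^ 2 - C b` (monic, irreducible over `ℚ`).  `PT.rt_sum G`, `TW.rt_low G` and `PT.rt_sum X`, `TW.rt_low X` (`PT.rt X p = 1`) give `|PS (rt G) x - log log x| ≤ C` and `|PS 1 x - log log x| ≤ C` for `x ≥ 2`.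
For a prime `p ∤ 2 b`: `PT.rt G p = 1 + jacobiSym b p = 1 + QT.chi b p` (number of square roots of `b` modulo `p`); the finitely many other primes change the sums by a bounded amount (`|rt G p| ≤ 2`, `|chi| ≤ 1`, each term at most `3 / p`).  So `|PS (QT.chi b) x| ≤ C'`.
`ps_low`: for a prime `p ∤ Rb q`, by `empty_chi`: `ind (RS q) p = 1 - 2^(-k) ∑_A (-1)^|A| χ_A(p) = (1 - 2^(-k)) - 2^(-k) ∑_{A ≠ ∅} (-1)^|A| χ_A(p)` (`χ_∅ = QT.chi 1 = 1` at odd `p`; `p ∈ RS q` iff `Sp q p ≠ ∅`).  So `PS (ind (RS q)) x ≥ (1 - 2^(-k)) PS 1 x - 2^(-k) ∑_{A ≠ ∅} |PS χ_A x| - O(1) ≥ (1 - 2^(-k)) log log x - C`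
(`Gen.ind`, `chi_two`; the finitely many primes dividing `Rb q` change the sum by a bounded amount; `PS` is a finite sum over the primes up to `x`, `Finset.sum_comm`). -/

set_option autoImplicit false

namespace ZS

open Finset ZG

private theorem L4_fin (e : ℕ → ℝ) (S : Finset ℕ) (he : ∀ p : ℕ, p.Prime → p ∉ S → e p = 0) :
    ∃ C : ℝ, ∀ x : ℝ, |PT.PS e x| ≤ C := by
  classical
  refine ⟨∑ p ∈ S, |e p / p|, fun x => ?_⟩
  unfold PT.PS
  refine (Finset.abs_sum_le_sum_abs _ _).trans ?_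
  have h1 : ∑ p ∈ ((Icc 1 ⌊x⌋₊).filter Nat.Prime).filter (fun p => p ∈ S), |e p / p| =
      ∑ p ∈ (Icc 1 ⌊x⌋₊).filter Nat.Prime, |e p / p| := by
    apply Finset.sum_filter_of_ne
    intro p hp hne
    by_contra hS
    apply hne
    rw [he p (Finset.mem_filter.1 hp).2 hS, zero_div, abs_zero]
  rw [← h1]
  apply Finset.sum_le_sum_of_subset_of_nonneg
  · intro p hp
    exact (Finset.mem_filter.1 hp).2
  · intro p _ _
    exact abs_nonneg _

private theorem L4_rtX (p : ℕ) : PT.rt (Polynomial.X : Polynomial ℤ) p = 1 := by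
  unfold PT.rt
  have h : ∀ ρ : ZMod p, ((Polynomial.X : Polynomial ℤ).map (Int.castRingHom (ZMod p))).eval ρ = 0 ↔ ρ = 0 := by
    intro ρ
    rw [Polynomial.map_X, Polynomial.eval_X]
  rw [Nat.card_congr (Equiv.subtypeEquivRight h)]
  exact Nat.card_unique

private theorem L4_rtG (b : ℤ) (p : ℕ) (hp : p.Prime) (hp2 : p ≠ 2) :
    ((PT.rt (Polynomial.X ^ 2 - Polynomial.C b) p : ℕ) : ℝ) = QT.chi b p + 1 := by
  have : Fact p.Prime := ⟨hp⟩
  have hodd : Odd p := hp.odd_of_ne_two hp2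
  have h1 := legendreSym.card_sqrts p hp2 b
  have h2 : PT.rt (Polynomial.X ^ 2 - Polynomial.C b) p = {x : ZMod p | x ^ 2 = (b : ZMod p)}.toFinset.card := by
    unfold PT.rt
    have h3 : ∀ ρ : ZMod p, ((Polynomial.X ^ 2 - Polynomial.C b : Polynomial ℤ).map
        (Int.castRingHom (ZMod p))).eval ρ = 0 ↔ ρ ∈ {x : ZMod p | x ^ 2 = (b : ZMod p)} := by
      intro ρ
      rw [Polynomial.map_sub, Polynomial.map_pow, Polynomial.map_X, Polynomial.map_C, Polynomial.eval_sub,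
        Polynomial.eval_pow, Polynomial.eval_X, Polynomial.eval_C, Set.mem_ofPred_eq, sub_eq_zero]
      rfl
    rw [Nat.card_congr (Equiv.subtypeEquivRight h3), Set.toFinset_card, Nat.card_eq_fintype_card]
  rw [h2]
  have h4 : (({x : ZMod p | x ^ 2 = (b : ZMod p)}.toFinset.card : ℤ) : ℝ) = ((legendreSym p b + 1 : ℤ) : ℝ) := by
    rw [h1]
  rw [Int.cast_natCast, Int.cast_add, Int.cast_one, jacobiSym.legendreSym.to_jacobiSym] at h4
  rw [h4]
  unfold QT.chi
  rw [if_pos hodd]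

private theorem L4_irr (b : ℤ) (hb : ¬ IsSquare b) :
    Irreducible ((Polynomial.X ^ 2 - Polynomial.C b : Polynomial ℤ).map (Int.castRingHom ℚ)) := by
  have h1 : (Polynomial.X ^ 2 - Polynomial.C b : Polynomial ℤ).map (Int.castRingHom ℚ) =
      Polynomial.X ^ 2 - Polynomial.C (b : ℚ) := by
    rw [Polynomial.map_sub, Polynomial.map_pow, Polynomial.map_X, Polynomial.map_C]
    rfl
  rw [h1]
  apply X_pow_sub_C_irreducible_of_prime Nat.prime_two
  intro c hc
  apply hb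
  rw [← Rat.isSquare_intCast_iff]
  exact ⟨c, by rw [← hc]; ring⟩

private theorem L4_one : ∃ C : ℝ, ∀ x : ℝ, 2 ≤ x →
    |PT.PS (fun _ => 1) x - Real.log (Real.log x)| ≤ C := by
  have hX : Irreducible ((Polynomial.X : Polynomial ℤ).map (Int.castRingHom ℚ)) := by
    rw [Polynomial.map_X]
    exact Polynomial.irreducible_X
  obtain ⟨C1, h1⟩ := PT.rt_sum (Polynomial.X : Polynomial ℤ) hX
  obtain ⟨C2, h2⟩ := TW.rt_low (Polynomial.X : Polynomial ℤ) Polynomial.monic_X hX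
  refine ⟨max C1 C2, fun x hx => ?_⟩
  have e1 : PT.PS (fun p => (PT.rt (Polynomial.X : Polynomial ℤ) p : ℝ)) x = PT.PS (fun _ => 1) x := by
    unfold PT.PS
    refine Finset.sum_congr rfl fun p _ => ?_
    beta_reduce
    rw [L4_rtX, Nat.cast_one]
  have h3 := h1 x hx
  have h4 := h2 x hx
  rw [e1] at h3 h4
  rw [abs_le]
  have h5 := le_max_left C1 C2
  have h6 := le_max_right C1 C2
  constructor <;> linarith

private theorem L4_add (f g : ℕ → ℝ) (x : ℝ) : PT.PS (fun p => f p + g p) x = PT.PS f x + PT.PS g x := by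
  unfold PT.PS
  rw [← Finset.sum_add_distrib]
  exact Finset.sum_congr rfl fun p _ => by rw [add_div]

private theorem L4_smul (c : ℝ) (f : ℕ → ℝ) (x : ℝ) : PT.PS (fun p => c * f p) x = c * PT.PS f x := by
  unfold PT.PS
  rw [Finset.mul_sum]
  exact Finset.sum_congr rfl fun p _ => by rw [mul_div_assoc]

theorem chi_two (b : ℤ) (hb : ¬ IsSquare b) : ∃ C : ℝ, ∀ x : ℝ, 2 ≤ x → |PT.PS (QT.chi b) x| ≤ C := by
  obtain ⟨C1, h1⟩ := PT.rt_sum (Polynomial.X ^ 2 - Polynomial.C b) (L4_irr b hb)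
  obtain ⟨C2, h2⟩ := TW.rt_low (Polynomial.X ^ 2 - Polynomial.C b)
    (Polynomial.monic_X_pow_sub_C b two_ne_zero) (L4_irr b hb)
  obtain ⟨C3, h3⟩ := L4_one
  obtain ⟨C4, h4⟩ := L4_fin (fun p => QT.chi b p + ((-1) * (PT.rt (Polynomial.X ^ 2 - Polynomial.C b) p : ℝ) + 1))
    {2} (by
      intro p hp hp2
      rw [Finset.mem_singleton] at hp2
      rw [L4_rtG b p hp hp2]
      ring)
  refine ⟨max C1 C2 + C3 + C4, fun x hx => ?_⟩
  have e1 := L4_add (fun p => QT.chi b p)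
    (fun p => (-1) * (PT.rt (Polynomial.X ^ 2 - Polynomial.C b) p : ℝ) + 1) x
  have e2 := L4_add (fun p => (-1) * (PT.rt (Polynomial.X ^ 2 - Polynomial.C b) p : ℝ)) (fun _ => 1) x
  have e3 := L4_smul (-1) (fun p => (PT.rt (Polynomial.X ^ 2 - Polynomial.C b) p : ℝ)) x
  have h5 := abs_le.1 (h4 x)
  rw [e1, e2, e3] at h5
  have h6 := h1 x hx
  have h7 := h2 x hx
  have h8 := abs_le.1 (h3 x hx)
  have h9 := le_max_left C1 C2
  have h10 := le_max_right C1 C2
  rw [abs_le]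
  obtain ⟨h51, h52⟩ := h5
  obtain ⟨h81, h82⟩ := h8
  constructor
  · change -(max C1 C2 + C3 + C4) ≤ PT.PS (fun p => QT.chi b p) x
    linarith
  · change PT.PS (fun p => QT.chi b p) x ≤ max C1 C2 + C3 + C4
    linarith

private theorem L4_sum {k : ℕ} {q : Fin k → BQ} (hq : Gen q) (s : Finset (Finset (Fin k)))
    (hs : ∀ A ∈ s, A.Nonempty) : ∃ C : ℝ, ∀ x : ℝ, 2 ≤ x →
    |PT.PS (fun p => ∑ A ∈ s, (-1) ^ A.card * QT.chi (∏ i ∈ A, (q i).disc) p) x| ≤ C := by
  classical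
  induction s using Finset.induction_on with
  | empty =>
    refine ⟨0, fun x _ => ?_⟩
    unfold PT.PS
    simp
  | insert A s hA ih =>
    obtain ⟨C1, h1⟩ := ih (fun B hB => hs B (Finset.mem_insert_of_mem hB))
    obtain ⟨C2, h2⟩ := chi_two _ (hq.ind A (hs A (Finset.mem_insert_self A s)))
    refine ⟨C2 + C1, fun x hx => ?_⟩
    have e : (fun p => ∑ B ∈ insert A s, (-1 : ℝ) ^ B.card * QT.chi (∏ i ∈ B, (q i).disc) p) =
        fun p => (-1 : ℝ) ^ A.card * QT.chi (∏ i ∈ A, (q i).disc) p +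
          ∑ B ∈ s, (-1 : ℝ) ^ B.card * QT.chi (∏ i ∈ B, (q i).disc) p :=
      funext fun p => Finset.sum_insert hA
    rw [e, L4_add, L4_smul]
    refine (abs_add_le _ _).trans (add_le_add ?_ (h1 x hx))
    rw [abs_mul, abs_pow, abs_neg, abs_one, one_pow, one_mul]
    exact h2 x hx

theorem ps_low {k : ℕ} {q : Fin k → BQ} (hq : Gen q) : ∃ C : ℝ, ∀ x : ℝ, 2 ≤ x →
    (1 - (1 / 2) ^ k) * Real.log (Real.log x) - C ≤ PT.PS (PT.ind (RS q)) x := by
  classical
  obtain ⟨C1, h1⟩ := L4_sum hq ((univ : Finset (Finset (Fin k))).erase ∅)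
    (fun A hA => Finset.nonempty_iff_ne_empty.2 (Finset.mem_erase.1 hA).1)
  obtain ⟨C3, h3⟩ := L4_one
  obtain ⟨C4, h4⟩ := L4_fin (fun p => PT.ind (RS q) p + ((-(1 - (1 / 2) ^ k)) * 1 + (1 / 2) ^ k *
      ∑ A ∈ (univ : Finset (Finset (Fin k))).erase ∅, (-1) ^ A.card * QT.chi (∏ i ∈ A, (q i).disc) p))
    (Rb q).primeFactors (by
      intro p hp hpS
      have hnd : ¬ p ∣ Rb q := fun hd => hpS (Nat.mem_primeFactors.2 ⟨hp, hd, hq.Rb⟩)
      have hgood := good_of_not_dvd q hnd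
      have hodd : Odd p := hp.odd_of_ne_two hgood.two
      have h5 := empty_chi q hp hnd
      rw [← Finset.add_sum_erase univ _ (Finset.mem_univ (∅ : Finset (Fin k)))] at h5
      have h6 : QT.chi (∏ i ∈ (∅ : Finset (Fin k)), (q i).disc) p = 1 := by
        rw [Finset.prod_empty]
        unfold QT.chi
        rw [if_pos hodd, jacobiSym.one_left, Int.cast_one]
      rw [h6, Finset.card_empty, pow_zero, one_mul, mul_add, mul_one] at h5
      have h7 : PT.ind (RS q) p = 1 - (if Sp q p = ∅ then (1 : ℝ) else 0) := by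
        unfold PT.ind
        by_cases hS : Sp q p = ∅
        · have hmem : p ∉ RS q := by
            rintro ⟨-, i, hi⟩
            have hi2 : i ∈ Sp q p := by
              unfold Sp
              exact Finset.mem_filter.2 ⟨Finset.mem_univ i, hi⟩
            rw [hS] at hi2
            exact absurd hi2 (Finset.notMem_empty i)
          rw [if_neg hmem, if_pos hS]
          norm_num
        · obtain ⟨i, hi⟩ := Finset.nonempty_iff_ne_empty.2 hS
          unfold Sp at hi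
          have hmem : p ∈ RS q := ⟨hp, i, (Finset.mem_filter.1 hi).2⟩
          rw [if_pos hmem, if_neg hS]
          norm_num
      rw [h7, h5]
      ring)
  refine ⟨C4 + (1 - (1 / 2) ^ k) * C3 + (1 / 2) ^ k * C1, fun x hx => ?_⟩
  have hc0 : (0 : ℝ) ≤ (1 / 2) ^ k := by positivity
  have hc1 : (1 / 2 : ℝ) ^ k ≤ 1 := pow_le_one₀ (by norm_num) (by norm_num)
  have h5 := abs_le.1 (h4 x)
  rw [L4_add, L4_add, L4_smul, L4_smul] at h5
  obtain ⟨h51, h52⟩ := h5
  obtain ⟨h31, h32⟩ := abs_le.1 (h3 x hx)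
  obtain ⟨h11, h12⟩ := abs_le.1 (h1 x hx)
  have g1 := mul_le_mul_of_nonneg_left h31 (sub_nonneg.2 hc1)
  have g2 := mul_le_mul_of_nonneg_left h12 hc0
  have k3 : PT.PS (fun p => PT.ind (RS q) p) x = PT.PS (PT.ind (RS q)) x := rfl
  rw [k3] at h51
  linarith

end ZS
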