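import Pool.Agent.Lib.MP_1ad228_ntTS.L2
import Pool.Agent.Lib.MP_1ad228_ntTS.L3
import Pool.Agent.Lib.MP_1ad228_ntTS.L4

/-! LEAF L5 (medium-).  The lower bound for the number of everywhere locally soluble twists.  (Model: `low` in `Pool/Agent/Lib/MP_10e784_ag/EL/ELFin.lean`.)

`Q` from `local_sol`, `Q' = Q * D0.natAbs ≠ 0`, `c, y0` from `combS` for `Q'`, `C` from `ps_low`.  For `N` large let `y = N / |D0| ≥ y0`; every `m` counted by `combS` gives `D = D0 * m`: squarefree (`m` is squarefree and coprime to `D0`), `|D| ≤ N`, `ELS q D` (`local_sol`), injectively.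
So the number is at least `c (y / log y) exp (PS ..) ≥ c (y / log y) e^(-C) (log y)^(1 - u) = c e^(-C) y (log y)^(-u) ≥ c e^(-C) |D0|⁻¹ N (log N)^(-u)`, `u = (1/2)^k` (`log y ≤ log N`). -/

set_option autoImplicit false

namespace ZS

open Finset ZG

private theorem L5_finite (N : ℕ) (P : ℤ → Prop) (h : ∀ D, P D → |D| ≤ (N : ℤ)) :
    Finite {D : ℤ // P D} := by
  have h1 : {D : ℤ | P D} ⊆ ↑(Icc (-(N : ℤ)) N) := by
    intro D hD
    rw [Finset.coe_Icc, Set.mem_Icc]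
    exact abs_le.1 (h D hD)
  exact (Finset.finite_toSet _).subset h1

/-- the comparison of the real quantities -/
private theorem L5_real (u C c d y N : ℝ) (T K : ℝ) (hu : 0 ≤ u) (hc : 0 < c) (hd : 1 ≤ d) (hN : N = d * y)
    (hy : 2 ≤ y) (hT : (1 - u) * Real.log (Real.log y) - C ≤ T)
    (hK : c * (y / Real.log y) * Real.exp T ≤ K) :
    c / d * Real.exp (-C) * N / Real.log N ^ u ≤ K := by
  have hd0 : 0 < d := by linarith
  have hy0 : 0 < y := by linarith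
  have hly : 0 < Real.log y := Real.log_pos (by linarith)
  have hyN : y ≤ N := by rw [hN]; nlinarith
  have hlN : Real.log y ≤ Real.log N := Real.log_le_log hy0 hyN
  have h1 : Real.log y ^ (1 - u) * Real.exp (-C) ≤ Real.exp T := by
    rw [Real.rpow_def_of_pos hly, ← Real.exp_add]
    exact Real.exp_le_exp.2 (by linarith)
  have h2 : Real.log y ^ u * Real.log y ^ (1 - u) = Real.log y := by
    rw [← Real.rpow_add hly, add_sub_cancel, Real.rpow_one]
  have h3 : 0 < Real.log y ^ u := Real.rpow_pos_of_pos hly _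
  have h4 : 0 < Real.log y ^ (1 - u) := Real.rpow_pos_of_pos hly _
  have h5 : Real.log y ^ u ≤ Real.log N ^ u := Real.rpow_le_rpow hly.le hlN hu
  refine le_trans ?_ hK
  calc c / d * Real.exp (-C) * N / Real.log N ^ u
      = c * Real.exp (-C) * y / Real.log N ^ u := by
        rw [hN]
        field_simp
    _ ≤ c * Real.exp (-C) * y / Real.log y ^ u :=
        div_le_div_of_nonneg_left (by positivity) h3 h5
    _ = c * (y / (Real.log y ^ u * Real.log y ^ (1 - u))) *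
        (Real.log y ^ (1 - u) * Real.exp (-C)) := by
        field_simp
    _ = c * (y / Real.log y) * (Real.log y ^ (1 - u) * Real.exp (-C)) := by rw [h2]
    _ ≤ c * (y / Real.log y) * Real.exp T :=
        mul_le_mul_of_nonneg_left h1 (by positivity)

theorem lowS {k : ℕ} {q : Fin k → BQ} (hq : Gen q) (D0 : ℤ) (hD0 : Squarefree D0) (hels : ELS q D0) :
    ∃ (c : ℝ) (N0 : ℕ), 0 < c ∧ ∀ N : ℕ, N0 ≤ N → c * N / Real.log N ^ ((1 / 2) ^ k : ℝ) ≤
      (Nat.card {D : ℤ // Squarefree D ∧ |D| ≤ (N : ℤ) ∧ ELS q D} : ℝ) := by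
  obtain ⟨Q, hQ, hloc⟩ := local_sol hq
  have hD00 : D0 ≠ 0 := hD0.ne_zero
  have hd0 : D0.natAbs ≠ 0 := Int.natAbs_ne_zero.2 hD00
  obtain ⟨c1, y0, hc1, hy0, hcomb⟩ := combS hq (Q * D0.natAbs) (mul_ne_zero hQ hd0)
  obtain ⟨C, hC⟩ := ps_low hq
  replace hloc := hloc D0 hD00 hels
  obtain ⟨d, hd⟩ : ∃ d : ℕ, d = D0.natAbs := ⟨_, rfl⟩
  rw [← hd] at hd0 hcomb hloc
  have hd1 : (1 : ℝ) ≤ d := by
    have : 1 ≤ d := Nat.one_le_iff_ne_zero.2 hd0
    exact_mod_cast this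
  have hdpos : (0 : ℝ) < d := by linarith
  refine ⟨c1 / d * Real.exp (-C), d * ⌈y0⌉₊, by positivity, ?_⟩
  intro N hN1
  have hN1' : (d : ℝ) * y0 ≤ N := by
    have h1 : (d : ℝ) * ⌈y0⌉₊ ≤ N := by exact_mod_cast hN1
    have h2 : y0 ≤ ⌈y0⌉₊ := Nat.le_ceil y0
    nlinarith
  obtain ⟨y, hy⟩ : ∃ y : ℝ, y = N / d := ⟨_, rfl⟩
  have hNy : (N : ℝ) = d * y := by
    rw [hy]
    field_simp
  have hyy0 : y0 ≤ y := by
    rw [hy, le_div_iff₀ hdpos]
    linarith
  have hy2 : 2 ≤ y := hy0.trans hyy0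
  refine L5_real _ C c1 d y N (PT.PS (PT.ind (RS q)) y) _ (by positivity) hc1 hd1 hNy hy2 (hC y hy2)
    ((hcomb y hyy0).trans ?_)
  have := L5_finite N (fun D => Squarefree D ∧ |D| ≤ (N : ℤ) ∧ ELS q D) (fun D h => h.2.1)
  have hmap : ∀ m : ℕ, ((m : ℝ) ≤ y ∧ Squarefree m ∧ m.Coprime (Q * d) ∧
      IsSquare (m : ZMod (Q * d)) ∧ ∀ p : ℕ, p.Prime → p ∣ m → p ∈ RS q) →
      (Squarefree (D0 * (m : ℤ)) ∧ |D0 * (m : ℤ)| ≤ (N : ℤ) ∧ ELS q (D0 * (m : ℤ))) := by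
    rintro m ⟨h1, h2, h3, h4, h5⟩
    refine ⟨?_, ?_, hloc m h2.ne_zero h3 h4 h5⟩
    · rw [← Int.squarefree_natAbs, Int.natAbs_mul, Int.natAbs_natCast, ← hd]
      have h6 : Nat.Coprime d m := (Nat.Coprime.coprime_mul_left_right h3).symm
      rw [Nat.squarefree_mul h6, hd]
      exact ⟨Int.squarefree_natAbs.2 hD0, h2⟩
    · have h6 : (D0 * (m : ℤ)).natAbs ≤ N := by
        rw [Int.natAbs_mul, Int.natAbs_natCast, ← hd]
        have h7 : (d : ℝ) * m ≤ N := by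
          rw [hNy]
          exact mul_le_mul_of_nonneg_left h1 hdpos.le
        exact_mod_cast h7
      rw [← Int.natCast_natAbs]
      exact_mod_cast h6
  have h1 := Nat.card_le_card_of_injective
    (fun m : {m : ℕ // (m : ℝ) ≤ y ∧ Squarefree m ∧ m.Coprime (Q * d) ∧
      IsSquare (m : ZMod (Q * d)) ∧ ∀ p : ℕ, p.Prime → p ∣ m → p ∈ RS q} =>
      (⟨D0 * (m.1 : ℤ), hmap m.1 m.2⟩ : {D : ℤ // Squarefree D ∧ |D| ≤ (N : ℤ) ∧ ELS q D})) (by
      intro m m' hmm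
      have h2 : D0 * (m.1 : ℤ) = D0 * (m'.1 : ℤ) := congrArg Subtype.val hmm
      have h3 := mul_left_cancel₀ hD00 h2
      exact Subtype.ext (by exact_mod_cast h3))
  exact_mod_cast h1

end ZS
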