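import Pool.Agent.Lib.MP_1ad228_ntTS.C4
import Pool.Agent.Lib.MP_1ad228_ntTS.L5

/-! The final theorem on the quadratic twists of `w² = q_1(x, z) ... q_k(x, z)`. -/

set_option autoImplicit false

namespace ZS

open Finset ZG

theorem finalS {k : ℕ} {q : Fin k → BQ} (hq : Gen q) :
    (∃ C : ℝ, ∀ N : ℕ, 2 ≤ N →
      (Nat.card {D : ℤ // Squarefree D ∧ |D| ≤ (N : ℤ) ∧ (Adelic q D ∨ Global q D)} : ℝ) ≤
        C * N / Real.log N ^ ((1 + 1 / 2000) * (1 / 2) ^ k : ℝ)) ∧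
    ((∃ D : ℤ, Squarefree D ∧ ELS q D) → ∃ (c : ℝ) (N0 : ℕ), 0 < c ∧ ∀ N : ℕ, N0 ≤ N →
      c * N / Real.log N ^ ((1 / 2) ^ k : ℝ) ≤
        (Nat.card {D : ℤ // Squarefree D ∧ |D| ≤ (N : ℤ) ∧ ELS q D} : ℝ)) := by
  refine ⟨?_, ?_⟩
  · obtain ⟨C, hC, h⟩ := mainS hq
    refine ⟨C, fun N hN => (h N hN).trans (le_of_eq ?_)⟩
    have hlog : 0 < Real.log N := Real.log_pos (by exact_mod_cast (by omega : 1 < N))
    rw [Real.rpow_neg hlog.le]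
    rfl
  · rintro ⟨D0, h1, h2⟩
    exact lowS hq D0 h1 h2

end ZS
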